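import Pool.Agent.Work.MP_db9399_iv.TSplit

/-!
# MP_db9399, block OXE (helper48): the result of the outside stage

`Rl` (the real part after the engine) and RESTN (the left over edges) give `PreX`. The edges of `xt`
coloured by the machine keep their colours `b < P`, the others get the colours `P + b'` of Rest.
The edges of the machine which are not in `xt` (edges of heavy members inside pieces of type K, edges
between light vertices of pieces of type K) are forgotten.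
-/

set_option autoImplicit false

namespace Pool.Agent.Work.MP_db9399_oxe

open Finset Classical
open Pool.Agent.Work.MP_db9399_all (nb)
open Pool.Agent.Work.MP_db9399_da
open Pool.Agent.Work.MP_db9399_xf
open Pool.Agent.Work.MP_db9399_iv
open Pool.Agent.Work.MP_db9399_ox (sdg Rl)
open Pool.Agent.Work.MP_db9399_sg (nod nsd)

universe u

/-- the same scale with a smaller `θ` -/
noncomputable def sLam (Lam : ℝ) (s : Scl) : Scl := { s with θ := s.θ / Lam }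

section defs
variable {V : Type u} {N J : ℕ}

/-- all real edges -/
def Erx (G : SimpleGraph V) (X : XD V N J) : SimpleGraph V where
  Adj v w := G.Adj v w ∧ ¬ (Bkx G X).Adj v w
  symm := ⟨fun _ _ h => ⟨h.1.symm, fun h' => h.2 h'.symm⟩⟩
  loopless := ⟨fun v h => G.loopless.irrefl v h.1⟩

/-- the own colour as a number -/
def ccv {P : ℕ} (cc : V → Option (Fin P)) (v : V) : ℕ := ((cc v).map fun b => (b : ℕ)).getD 0

variable [Fintype V]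

/-- the fields of `OwX` which do not depend on the colouring of the edges -/
structure OwP (τ e u : ℝ) (S : Fin J → Scl) (G : SimpleGraph V) (d : ℕ) (X : XD V N J)
    (c : V → ℕ) (O : V → Prop) : Prop where
  clt : ∀ v, O v → c v < d + 2
  cc : ∀ v w, O v → O w → G.Adj v w → c v ≠ c w
  big : ∀ n, X.P.ty n = Ty.B → ∀ w w', O w → O w' → w ≠ w' →
    (S (X.sc n)).ζ / 1000 * d ≤ ((nb G w ∩ pV X.P n).card : ℝ) →
    (S (X.sc n)).ζ / 1000 * d ≤ ((nb G w' ∩ pV X.P n).card : ℝ) → c w ≠ c w'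
  sml : ∀ n, X.P.ty n = Ty.B → ∀ b, ((∑ w ∈ univ.filter (fun w => O w ∧ c w = b ∧
    ((nb G w ∩ pV X.P n).card : ℝ) < (S (X.sc n)).ζ / 1000 * d),
      (nb G w ∩ pV X.P n).card : ℕ) : ℝ) ≤ u * (S (X.sc n)).ζ * d
  dif : ∀ n, X.P.ty n = Ty.K → ∀ w w', O w → O w' → w ≠ w' →
    τ * d ≤ ((nb G w ∩ pV X.P n).card : ℝ) → τ * d ≤ ((nb G w' ∩ pV X.P n).card : ℝ) →
    c w ≠ c w'
  non : ∀ n, X.P.ty n = Ty.K → ∀ b, ((∑ w ∈ univ.filter (fun w => O w ∧ c w = b ∧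
    ((nb G w ∩ pV X.P n).card : ℝ) < τ * d), (nb G w ∩ pV X.P n).card : ℕ) : ℝ) ≤ e * d

/-- The numbers: classes of the `P` colours, palettes, reserves. `q = d + 2 - P = ∑ r + 2`. -/
structure NmX (πk CD a : ℝ) (d P : ℕ) (D r : Cx.{u} → ℕ) (cl : Fin P → Cx.{u}) : Prop where
  cr : ∀ κ, (univ.filter fun b => cl b = κ).card + r κ = D κ
  sum : ∑ κ, D κ = d
  Dd : ∀ κ, (d : ℝ) ≤ CD * D κ
  rlo : ∀ κ, 2 * (D κ : ℝ) ^ (1 - a) ≤ r κ
  rhi : ∀ κ, (r κ : ℝ) + 2 ≤ (D κ : ℝ) ^ (1 - a / 3)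
  pC : ∀ j, πk * d ≤ ((univ.filter fun b => cl b = Cx.C j).card : ℝ) ∧
    ((univ.filter fun b => cl b = Cx.C j).card : ℝ) ≤ πk * d + 1
  pQ : ∀ i, (1 - 3 * πk) / 100 * d ≤ ((univ.filter fun b => cl b = Cx.Q i).card : ℝ) ∧
    ((univ.filter fun b => cl b = Cx.Q i).card : ℝ) ≤ (1 - 3 * πk) / 100 * d + 1

/-- `PreX` with other constants of `NuX`: `l` loads, `x` excess, `q` negative numbers. -/
structure PreV (l x y q η τ e : ℝ) (S : Fin J → Scl) (G : SimpleGraph V) (d : ℕ)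
    (X : XD V N J) (A : PalX) (t : V → V → ℕ) (c : V → ℕ) (m : V → ℕ) : Prop
    extends TcX η G d X A t, OwX τ e (1 / 250) S G d X t c (Ow G X d),
      NuX l x y q S G d X A t where
  sup : ∀ n, X.P.ty n = Ty.N ∨ X.P.ty n = Ty.B → ∀ i, ∀ b ∈ range (d + 2),
    |((sgp (Fp (xt G X) X t n) (sdn X.P n) (ptn X.P n) i b : ℤ) : ℝ)| ≤ (d : ℝ) ^ (1 / 100 : ℝ)
  mm : ∀ w, Cov G X d w → m w < d + 2 ∧ m w ∉ Ft (xt G X) t w ∧ ∀ j, m w ∉ A.Q j
  ms : ∀ n β b, ((univ.filter (fun w => Cvr G X d n β w ∧ m w = b)).card : ℝ) ≤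
    (d : ℝ) ^ (1 / 200 : ℝ)

end defs

/-- OXE. `υ` = any small number. `Lam` = loss: PcX is used for `θ / Lam`, `η / Lam`. -/
def Stmt_OXE : Prop :=
  ∀ (πk CD υ : ℝ), 1 / 4 ≤ πk → πk < 1 / 3 → 1 ≤ CD → 0 < υ → υ ≤ 1 / 100 →
    ∃ ε0 : ℝ, 0 < ε0 ∧ ∀ ε C₀ : ℝ, 0 < ε → ε ≤ ε0 → 0 < C₀ → ∀ C : ℝ, 1 ≤ C →
    ∃ (Lam θ1 : ℝ) (T : Thr), 1 ≤ Lam ∧ 0 < θ1 ∧ T.Pos ∧
    ∀ (J : ℕ) (S : Fin J → Scl) (a η ε2 : ℝ), (∀ s, Adm T (S s)) → 0 < a → a ≤ 1 / 250 →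
      0 < η → η ≤ 1 → 0 < ε2 → (∀ s, ε2 ≤ (S s).θ / Lam) → ε2 ≤ η / Lam → ∃ d0 : ℕ,
    ∀ {V : Type u} [Fintype V] {N : ℕ} (G : SimpleGraph V) (d P : ℕ) (X : XD V N J)
      (D r : Cx.{u} → ℕ) (cl : Fin P → Cx.{u}) (H : Cx.{u} → SimpleGraph V)
      (Ex : Cx.{u} → Finset V) (m : Cx.{u} → NI.{u} N → ℕ) (cc : V → Option (Fin P))
      (f : Fin P → V → V) (g z θk θ' a' cs t CC ρ1 MS τ e : ℝ) (M : ℕ), d0 ≤ d →
      PcX C g z θk θ' (η / Lam) a' M (fun s => sLam Lam (S s)) G d X → 0 < g → θk ≤ 1 / 100 →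
      θ' ≤ θ1 → (∀ v ∈ X.Hv, InT X Ty.K v) → NmX πk CD a d P D r cl →
      TsX cs t CC ρ1 MS G d X D H Ex → 0 < ρ1 → ρ1 ≤ ε →
      (∀ κ i, (m κ i : ℝ) ≤ 20 * D κ + 8 * (nod (ndx X κ) i).card) →
      (∀ v, cc v ≠ none ↔ Ow G X d v) →
      Rl (Erx G X) H cl (OV X) (ndx X) prx d D r m ε ε2 C₀ cc f →
      OwP τ e (1 / 250) S G d X (ccv cc) (Ow G X d) →
      ∃ (A : PalX) (tt : V → V → ℕ) (mm : V → ℕ), PalXP πk A d ∧
        PreV 100 υ (1 / 2 + υ) υ η τ e S G d X A tt (ccv cc) mm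

end Pool.Agent.Work.MP_db9399_oxe
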