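import Mathlib

/-!
# MP_db9399, OXE, part 10 (helper48): asymptotics
-/

set_option autoImplicit false

namespace Pool.Agent.Work.MP_db9399_oxe

open Filter

theorem ev1 (K p s : ℝ) (h : p < s) : ∀ᶠ x : ℝ in atTop, K * x ^ p ≤ x ^ s := by
  have h1 : Tendsto (fun x : ℝ => x ^ (s - p)) atTop atTop := tendsto_rpow_atTop (by linarith)
  filter_upwards [h1.eventually_ge_atTop K, eventually_gt_atTop 0] with x hx h0
  have h2 : x ^ s = x ^ (s - p) * x ^ p := by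
    rw [← Real.rpow_add h0]
    congr 1
    ring
  rw [h2]
  exact mul_le_mul_of_nonneg_right hx (Real.rpow_nonneg h0.le _)

/-- all the bounds for large `d` -/
structure Big {J : ℕ} (CD δ C a η : ℝ) (θ : Fin J → ℝ) (d : ℕ) : Prop where
  hd : 1 ≤ d
  D1 : CD ≤ d
  low : (d : ℝ) ^ (98 / 100 : ℝ) ≤ ((d : ℝ) / CD) ^ (249 / 250 : ℝ)
  ms : 4 * (d : ℝ) / (2 * ((d : ℝ) / CD) ^ (249 / 250 : ℝ)) + 2 ≤ (d : ℝ) ^ (1 / 200 : ℝ)
  sup : 4 * δ * (C * (d : ℝ)) / (2 * ((d : ℝ) / CD) ^ (249 / 250 : ℝ)) + 2 ≤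
    (d : ℝ) ^ (1 / 100 : ℝ)
  up : 6 * (d : ℝ) ^ (1 - a / 3) ≤ δ * d
  half : ∀ x : ℝ, (d : ℝ) / CD ≤ x → 2 * x ^ (1 - a / 3) ≤ x
  th : ∀ s, (d : ℝ) ^ (92 / 100 : ℝ) + 16 ≤ θ s * d
  et : (d : ℝ) ^ (92 / 100 : ℝ) + 16 ≤ η / 2 * d

theorem ev2 (c : ℝ) (hc : 0 < c) : ∀ᶠ x : ℝ in atTop, x ^ (92 / 100 : ℝ) + 16 ≤ c * x := by
  filter_upwards [ev1 (2 / c) (92 / 100) 1 (by norm_num), eventually_ge_atTop (32 / c),
    eventually_gt_atTop 0] with x h1 h2 h0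
  rw [Real.rpow_one] at h1
  have h3 : 2 * x ^ (92 / 100 : ℝ) ≤ c * x := by
    have := mul_le_mul_of_nonneg_left h1 hc.le
    have e : c * (2 / c * x ^ (92 / 100 : ℝ)) = 2 * x ^ (92 / 100 : ℝ) := by
      field_simp
    rw [e] at this
    exact this
  have h4 : 32 ≤ c * x := by
    rw [div_le_iff₀ hc] at h2
    linarith
  linarith

theorem ev3 (CD K s : ℝ) (hCD : 1 ≤ CD) (hK : 0 ≤ K) (hs : 1 / 250 < s) : ∀ᶠ x : ℝ in atTop,
    K * x / (2 * (x / CD) ^ (249 / 250 : ℝ)) + 2 ≤ x ^ s := by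
  have hs0 : 0 < s := by linarith
  filter_upwards [ev1 (K * CD ^ (249 / 250 : ℝ)) (1 / 250) s hs, ev1 4 0 s hs0,
    eventually_gt_atTop 0] with x h1 h2 h0
  rw [Real.rpow_zero] at h2
  have hCD0 : 0 < CD := by linarith
  have h3 : x = x ^ (1 / 250 : ℝ) * x ^ (249 / 250 : ℝ) := by
    rw [← Real.rpow_add h0]
    norm_num
  have hp : 0 < x ^ (249 / 250 : ℝ) := Real.rpow_pos_of_pos h0 _
  have hp' : 0 < CD ^ (249 / 250 : ℝ) := Real.rpow_pos_of_pos hCD0 _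
  have h4 : K * x / (2 * (x / CD) ^ (249 / 250 : ℝ)) = K * CD ^ (249 / 250 : ℝ) *
      x ^ (1 / 250 : ℝ) / 2 := by
    rw [Real.div_rpow h0.le hCD0.le]
    nth_rewrite 1 [h3]
    field_simp
  rw [h4]
  linarith

theorem big {J : ℕ} (CD δ C a η : ℝ) (θ : Fin J → ℝ) (hCD : 1 ≤ CD) (hδ : 0 < δ) (hC : 0 ≤ C)
    (ha : 0 < a) (hη : 0 < η) (hθ : ∀ s, 0 < θ s) :
    ∃ d0 : ℕ, ∀ d, d0 ≤ d → Big CD δ C a η θ d := by
  have hCD0 : 0 < CD := by linarith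
  have key : ∀ᶠ d : ℕ in atTop, Big CD δ C a η θ d := by
    have hc : Tendsto (fun d : ℕ => (d : ℝ)) atTop atTop := tendsto_natCast_atTop_atTop
    have h5 : ∀ᶠ x : ℝ in atTop, ∀ y : ℝ, x / CD ≤ y → 2 * y ^ (1 - a / 3) ≤ y := by
      obtain ⟨x0, hx0⟩ := eventually_atTop.mp (ev1 2 (1 - a / 3) 1 (by linarith))
      filter_upwards [eventually_ge_atTop (x0 * CD)] with x hx y hy
      have := hx0 y (le_trans (by rwa [le_div_iff₀ hCD0]) hy)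
      rwa [Real.rpow_one] at this
    have h6 : ∀ᶠ x : ℝ in atTop, ∀ s, x ^ (92 / 100 : ℝ) + 16 ≤ θ s * x :=
      eventually_all.mpr fun s => ev2 (θ s) (hθ s)
    filter_upwards [eventually_ge_atTop 1, hc.eventually (eventually_ge_atTop CD),
      hc.eventually (ev1 (CD ^ (249 / 250 : ℝ)) (98 / 100) (249 / 250) (by norm_num)),
      hc.eventually (ev3 CD 4 (1 / 200) hCD (by norm_num) (by norm_num)),
      hc.eventually (ev3 CD (4 * δ * C) (1 / 100) hCD (by positivity) (by norm_num)),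
      hc.eventually (ev1 (6 / δ) (1 - a / 3) 1 (by linarith)),
      hc.eventually h5, hc.eventually h6, hc.eventually (ev2 (η / 2) (by positivity))] with
      d k1 k2 k3 k4 k5 k6 k7 k8 k9
    refine ⟨k1, k2, ?_, k4, ?_, ?_, k7, k8, k9⟩
    · rw [Real.div_rpow (Nat.cast_nonneg _) hCD0.le, le_div_iff₀ (Real.rpow_pos_of_pos hCD0 _)]
      linarith
    · rw [← mul_assoc]
      exact k5
    · rw [Real.rpow_one] at k6
      have := mul_le_mul_of_nonneg_left k6 hδ.le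
      have e : δ * (6 / δ * (d : ℝ) ^ (1 - a / 3)) = 6 * (d : ℝ) ^ (1 - a / 3) := by
        field_simp
      rwa [e] at this
  obtain ⟨d0, h0⟩ := eventually_atTop.mp key
  exact ⟨d0, h0⟩

end Pool.Agent.Work.MP_db9399_oxe
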