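import Pool.Agent.Work.MP_db9399_oxe_helper48.Nux2

/-!
# MP_db9399, OXE, part 8 (helper48): loads at the pieces
-/

set_option autoImplicit false

namespace Pool.Agent.Work.MP_db9399_oxe

open Finset Classical
open Pool.Agent.Work.MP_db9399_all (nb)
open Pool.Agent.Work.MP_db9399_lt (us)
open Pool.Agent.Work.MP_db9399_da hiding qV
open Pool.Agent.Work.MP_db9399_xf
open Pool.Agent.Work.MP_db9399_iv
open Pool.Agent.Work.MP_db9399_ox (sdg Rl sgP)
open Pool.Agent.Work.MP_db9399_sg (nod nsd Mts sgn)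

universe u

section gen

variable {V I : Type u} [Fintype V]

theorem nsd_two (nd : V → Option (I × Bool)) (i : I) (F : V → ℝ) (hF : ∀ v, 0 ≤ F v) :
    ∑ s : Bool, ∑ v ∈ nsd nd i s, F v ≤ ∑ v ∈ nod nd i, F v := by
  rw [← sum_biUnion]
  · refine sum_le_sum_of_subset_of_nonneg ?_ fun v _ _ => hF v
    intro v hv
    simp only [mem_biUnion, mem_univ, true_and, mem_nsd0] at hv
    simpa [nod] using hv
  · intro i _ i' _ hne
    rw [Function.onFun, Finset.disjoint_left]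
    intro v hv hv'
    rw [mem_nsd0] at hv hv'
    rw [hv] at hv'
    exact hne (by simpa using hv')

end gen

section defs

variable {V : Type u} [Fintype V] {N J : ℕ}

/-- sum of the real degrees of the light vertices of a piece -/
noncomputable def Wn (G : SimpleGraph V) (X : XD V N J) (n : Fin N) : ℝ :=
  ∑ v ∈ (pV X.P n).filter (fun v => ¬ InO X v), ((nb (Erx G X) v).card : ℝ)

theorem Wn_nn (G : SimpleGraph V) (X : XD V N J) (n : Fin N) : 0 ≤ Wn G X n :=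
  sum_nonneg fun _ _ => Nat.cast_nonneg _

end defs

section sit

variable {V : Type u} [Fintype V] {N J P q : ℕ} {πk C CD a ε ε2 C₀ Lam η δ : ℝ} {M : ℕ}
    {S : Fin J → Scl} {G : SimpleGraph V} {d : ℕ} {X : XD V N J} {D r : Cx.{u} → ℕ}
    {cl : Fin P → Cx.{u}} {H : Cx.{u} → SimpleGraph V} {Ex : Cx.{u} → Finset V}
    {m : Cx.{u} → NI.{u} N → ℕ} {cc : V → Option (Fin P)} {f : Fin P → V → V}
    {g z θk θ' a' cs t CC ρ1 MS : ℝ} {R : Fin q → V → V}

/-- load of a colour of the machine at a piece -/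
theorem Sit.ldf (h : Sit πk C CD a ε ε2 C₀ Lam η M S G d X D r cl H Ex m cc f g z θk θ' a' cs
    t CC ρ1 MS) (hC : 0 < C₀) (hR : Rs G X f R) (n : Fin N) (b : Fin P) :
    (((pV X.P n).filter fun v => ¬ InO X v ∧ (b : ℕ) ∈ Ft (xt G X) (tcol f R) v).card : ℝ) ≤
      C₀ * (Wn G X n / d) + 4 * (ε2 * d) := by
  set κ := cl b with hκ
  have h1 : ((pV X.P n).filter fun v => ¬ InO X v ∧ (b : ℕ) ∈ Ft (xt G X) (tcol f R) v) ⊆
      (univ : Finset (Bool × Bool)).biUnion fun p =>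
        (nsd (ndx X κ) (⟨(n, p.1)⟩ : NI.{u} N) p.2).filter fun v => f b v ≠ v := by
    intro v hv
    rw [mem_filter, (h.mch hR).mem_f (h.cov hR), mem_pV] at hv
    obtain ⟨⟨h2, h3⟩, h4, h5, -⟩ := hv
    simp only [mem_biUnion, mem_univ, true_and, mem_filter, mem_nsd0]
    have h6 : ndx X κ v ≠ none := by
      rcases h.ts.typ κ v _ (h.rl.fG b v h5) with h6 | h6
      · exact absurd h6 h4
      · exact h6
    refine ⟨(ptx X v, X.P.sd v), ?_, h5⟩
    unfold ndx at h6 ⊢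
    split_ifs at h6 ⊢ with h7
    · exact absurd rfl h6
    · rw [h3]
  refine (Nat.cast_le.mpr ((card_le_card h1).trans card_biUnion_le)).trans ?_
  push_cast
  refine (sum_le_sum fun p _ => h.rl.load b ⟨(n, p.1)⟩ p.2).trans ?_
  rw [sum_add_distrib, ← mul_sum, ← sum_div, sum_const, card_univ]
  have h2 : ∑ p : Bool × Bool, ∑ v ∈ nsd (ndx X κ) (⟨(n, p.1)⟩ : NI.{u} N) p.2,
      ((nb (H κ) v).card : ℝ) ≤ Wn G X n := by
    rw [Fintype.sum_prod_type]
    refine (sum_le_sum fun i _ => nsd_two (ndx X κ) (⟨(n, i)⟩ : NI.{u} N)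
      (fun v => ((nb (H κ) v).card : ℝ)) fun v => Nat.cast_nonneg _).trans ?_
    refine (nod_two κ n (fun v => ((nb (H κ) v).card : ℝ)) fun v => Nat.cast_nonneg _).trans ?_
    unfold Wn
    refine sum_le_sum fun v _ => Nat.cast_le.mpr (card_le_card fun w hw => ?_)
    rw [mem_nb] at hw ⊢
    exact h.ts.HG κ v w hw
  have h3 := mul_le_mul_of_nonneg_left (div_le_div_of_nonneg_right h2 (Nat.cast_nonneg (α := ℝ) d))
    hC.le
  simp only [Fintype.card_prod, Fintype.card_bool, nsmul_eq_mul]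
  push_cast
  linarith

/-- load of a colour of Rest at a piece -/
theorem Sit.ldR (h : Sit πk C CD a ε ε2 C₀ Lam η M S G d X D r cl H Ex m cc f g z θk θ' a' cs
    t CC ρ1 MS) (hC : 0 < C₀) (he : 0 < ε2) (hR : Rs G X f R) (hq0 : 0 < q)
    (hqr : ∑ κ, (r κ : ℝ) ≤ q)
    (hld : ∀ i s b, (((nsd (ndR G X d) i s).filter fun v => R b v ≠ v).card : ℝ) ≤
      (∑ v ∈ nsd (ndR G X d) i s, ((nb (EL G X f) v).card : ℝ)) / q + 4) (n : Fin N) (b : Fin q) :
    (((pV X.P n).filter fun v => ¬ InO X v ∧ P + (b : ℕ) ∈ Ft (xt G X) (tcol f R) v).card : ℝ) ≤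
      C₀ * (Wn G X n / d) + ε2 * (pV X.P n).card + ((d : ℝ) ^ (19 / 10 : ℝ) / q + 16) := by
  have h1 : ((pV X.P n).filter fun v => ¬ InO X v ∧ P + (b : ℕ) ∈ Ft (xt G X) (tcol f R) v) ⊆
      (univ : Finset (Bool × Bool)).biUnion fun p =>
        (nsd (ndR G X d) (Sum.inl (⟨(n, p.1)⟩ : NI.{u} N)) p.2).filter fun v => R b v ≠ v := by
    intro v hv
    rw [mem_filter, (h.mch hR).mem_g (h.cov hR), mem_pV] at hv
    obtain ⟨⟨h2, h3⟩, h4, h5, -⟩ := hv
    simp only [mem_biUnion, mem_univ, true_and, mem_filter, mem_nsd0]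
    exact ⟨(ptx X v, X.P.sd v), ndR_inl.mpr ⟨h4, h3, rfl, rfl⟩, h5⟩
  refine (Nat.cast_le.mpr ((card_le_card h1).trans card_biUnion_le)).trans ?_
  push_cast
  refine (sum_le_sum fun p _ => hld (Sum.inl ⟨(n, p.1)⟩) p.2 b).trans ?_
  rw [sum_add_distrib, ← sum_div, sum_const, card_univ]
  have h2 : ∑ p : Bool × Bool, ∑ v ∈ nsd (ndR G X d) (Sum.inl (⟨(n, p.1)⟩ : NI.{u} N)) p.2,
      ((nb (EL G X f) v).card : ℝ) ≤ ∑ v ∈ (pV X.P n).filter (fun v => ¬ InO X v),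
        ((nb (EL G X f) v).card : ℝ) := by
    rw [← sum_biUnion]
    · refine sum_le_sum_of_subset_of_nonneg ?_ fun v _ _ => Nat.cast_nonneg _
      intro v hv
      simp only [mem_biUnion, mem_univ, true_and, mem_nsd0] at hv
      obtain ⟨p, hp⟩ := hv
      rw [ndR_inl] at hp
      rw [mem_filter, mem_pV]
      exact ⟨⟨fun h0 => hp.1 (Or.inl h0), hp.2.1⟩, hp.1⟩
    · rintro ⟨i, s⟩ _ ⟨i', s'⟩ _ hne
      rw [Function.onFun, Finset.disjoint_left]
      intro v hv hv'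
      rw [mem_nsd0, ndR_inl] at hv hv'
      refine hne (Prod.ext (hv.2.2.1.symm.trans hv'.2.2.1) (hv.2.2.2.symm.trans hv'.2.2.2))
  have h3 : ∑ v ∈ (pV X.P n).filter (fun v => ¬ InO X v), ((nb (EL G X f) v).card : ℝ) ≤
      (d : ℝ) ^ (19 / 10 : ℝ) + (∑ κ, (r κ : ℝ)) * (C₀ * (Wn G X n / d) +
        ε2 * (pV X.P n).card) := by
    have h4 : ∀ v ∈ (pV X.P n).filter (fun v => ¬ InO X v), ((nb (EL G X f) v).card : ℝ) ≤
        noc G X H v + (∑ κ, (r κ : ℝ)) * (C₀ * (((nb (Erx G X) v).card : ℝ) / d) + ε2) := by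
      intro v hv
      rw [mem_filter] at hv
      exact (Nat.cast_le.mpr (card_le_card (EL_unc f v))).trans (h.unc_le hC he hv.2)
    refine (sum_le_sum h4).trans ?_
    rw [sum_add_distrib, ← mul_sum, sum_add_distrib, ← mul_sum, ← sum_div, sum_const, nsmul_eq_mul]
    have h5 : ∑ v ∈ (pV X.P n).filter (fun v => ¬ InO X v), noc G X H v ≤
        (d : ℝ) ^ (19 / 10 : ℝ) := by
      have h6 := h.ts.uS n
      push_cast at h6
      refine le_trans (le_of_eq ?_) h6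
      unfold noc
      refine sum_congr ?_ fun v _ => rfl
      ext v
      rw [mem_filter, mem_filter, mem_OV]
    have h6 : (0 : ℝ) ≤ ∑ κ, (r κ : ℝ) := sum_nonneg fun _ _ => Nat.cast_nonneg _
    have h7 : (((pV X.P n).filter (fun v => ¬ InO X v)).card : ℝ) * ε2 ≤
        ε2 * (pV X.P n).card := by
      rw [mul_comm]
      exact mul_le_mul_of_nonneg_left (Nat.cast_le.mpr (card_le_card (filter_subset _ _))) he.le
    have h8 : (∑ κ, (r κ : ℝ)) * (C₀ * (Wn G X n / d) +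
        (((pV X.P n).filter (fun v => ¬ InO X v)).card : ℝ) * ε2) ≤
        (∑ κ, (r κ : ℝ)) * (C₀ * (Wn G X n / d) + ε2 * (pV X.P n).card) :=
      mul_le_mul_of_nonneg_left (by linarith) h6
    unfold Wn at h8 ⊢
    linarith
  have hq : (0 : ℝ) < q := by exact_mod_cast hq0
  have h9 : 0 ≤ C₀ * (Wn G X n / d) + ε2 * (pV X.P n).card := by
    have := Wn_nn G X n
    positivity
  have h10 : (∑ p : Bool × Bool, ∑ v ∈ nsd (ndR G X d) (Sum.inl (⟨(n, p.1)⟩ : NI.{u} N)) p.2,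
      ((nb (EL G X f) v).card : ℝ)) / q ≤ (d : ℝ) ^ (19 / 10 : ℝ) / q +
        (C₀ * (Wn G X n / d) + ε2 * (pV X.P n).card) := by
    rw [div_add' _ _ _ hq.ne', div_le_div_iff_of_pos_right hq]
    have h11 := mul_le_mul_of_nonneg_right hqr h9
    linarith
  simp only [Fintype.card_prod, Fintype.card_bool, nsmul_eq_mul]
  push_cast
  linarith

/-- no colours above -/
theorem Sit.ldn (h : Sit πk C CD a ε ε2 C₀ Lam η M S G d X D r cl H Ex m cc f g z θk θ' a' cs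
    t CC ρ1 MS) (hR : Rs G X f R) {b : ℕ} (hb : P + q ≤ b) (v : V) :
    b ∉ Ft (xt G X) (tcol f R) v := by
  intro h1
  unfold Ft at h1
  rw [mem_image] at h1
  obtain ⟨w, h2, h3⟩ := h1
  rw [mem_nb] at h2
  have := (h.mch hR).tlt (h.cov hR v w h2)
  omega

/-- load of every colour at a piece -/
theorem Sit.lda (h : Sit πk C CD a ε ε2 C₀ Lam η M S G d X D r cl H Ex m cc f g z θk θ' a' cs
    t CC ρ1 MS) (hC : 0 < C₀) (he : 0 < ε2) (hR : Rs G X f R) (hq0 : 0 < q)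
    (hqr : ∑ κ, (r κ : ℝ) ≤ q)
    (hld : ∀ i s b, (((nsd (ndR G X d) i s).filter fun v => R b v ≠ v).card : ℝ) ≤
      (∑ v ∈ nsd (ndR G X d) i s, ((nb (EL G X f) v).card : ℝ)) / q + 4) (n : Fin N) (b : ℕ) :
    (((pV X.P n).filter fun v => ¬ InO X v ∧ b ∈ Ft (xt G X) (tcol f R) v).card : ℝ) ≤
      C₀ * (Wn G X n / d) + 4 * (ε2 * d) + ε2 * (pV X.P n).card +
        ((d : ℝ) ^ (19 / 10 : ℝ) / q + 16) := by
  have h0 : 0 ≤ C₀ * (Wn G X n / d) := by
    have := Wn_nn G X n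
    positivity
  have h0' : 0 ≤ 4 * (ε2 * d) := by positivity
  have h0'' : 0 ≤ ε2 * ((pV X.P n).card : ℝ) := by positivity
  have h0''' : 0 ≤ (d : ℝ) ^ (19 / 10 : ℝ) / q + 16 := by positivity
  by_cases hb : b < P
  · have := h.ldf hC hR n ⟨b, hb⟩
    simp only at this
    linarith
  · by_cases hb' : b < P + q
    · obtain ⟨b', rfl⟩ := Nat.exists_eq_add_of_le (not_lt.mp hb)
      have := h.ldR hC he hR hq0 hqr hld n ⟨b', by omega⟩
      simp only at this
      linarith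
    · have h1 : ((pV X.P n).filter fun v => ¬ InO X v ∧ b ∈ Ft (xt G X) (tcol f R) v) = ∅ := by
        rw [filter_eq_empty_iff]
        rintro v - ⟨-, h2⟩
        exact h.ldn hR (not_lt.mp hb') v h2
      rw [h1, card_empty, Nat.cast_zero]
      linarith

/-- LD at the pieces N, B: the number of the users -/
theorem us_card (T : SimpleGraph V) (tt : V → V → ℕ) (hv : ∀ v ∈ X.Hv, InT X Ty.K v) {n : Fin N}
    (hn : X.P.ty n = Ty.N ∨ X.P.ty n = Ty.B) (b : ℕ) :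
    (us (Fp T X tt n) b).card =
      ((pV X.P n).filter fun v => ¬ InO X v ∧ b ∈ Ft T tt v).card := by
  refine card_Ts n _ _ ?_ ?_
  · rintro ⟨v, hv'⟩
    simp only [us, mem_filter, mem_univ, true_and, Fp, mem_pV]
    constructor
    · intro h1
      exact ⟨hv', NB_not_InO hv hv'.1 (by rw [hv'.2]; exact hn), h1⟩
    · rintro ⟨-, -, h1⟩
      exact h1
  · intro v hv'
    rw [mem_filter, mem_pV] at hv'
    exact hv'.1

/-- real edges of a light vertex of a piece of type K -/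
theorem Sit.K1 (h : Sit πk C CD a ε ε2 C₀ Lam η M S G d X D r cl H Ex m cc f g z θk θ' a' cs
    t CC ρ1 MS) {v : V} (hO : ¬ InO X v) (hK : X.P.ty (X.P.pc v) = Ty.K) :
    ((nb (Erx G X) v).card : ℝ) ≤ ((d : ℝ) - (nb G v ∩ pV X.P (X.P.pc v)).card) +
      (pV X.P (X.P.pc v) ∩ X.Hv).card := by
  have h1 : nb (Erx G X) v ⊆ (nb G v \ pV X.P (X.P.pc v)) ∪ (pV X.P (X.P.pc v) ∩ X.Hv) := by
    intro w hw
    rw [mem_nb] at hw
    rw [mem_union, mem_sdiff, mem_nb, mem_inter]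
    by_cases hp : w ∈ pV X.P (X.P.pc v)
    · right
      refine ⟨hp, ?_⟩
      rw [mem_pV] at hp
      by_contra hH
      refine hw.2 ⟨⟨hw.1, fun h0 => hO (Or.inl h0), hp.1, hp.2.symm, fun h0 => ?_⟩, hO, ?_⟩
      · rw [hK] at h0
        cases h0
      · rintro (h0 | h0)
        · exact hp.1 h0
        · exact hH h0
    · exact Or.inl ⟨hw.1, hp⟩
  have h2 := (card_le_card h1).trans (card_union_le _ _)
  have h3 := card_sdiff_add_card_inter (nb G v) (pV X.P (X.P.pc v))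
  rw [h.px.reg v] at h3
  have h4 : ((nb (Erx G X) v).card : ℝ) ≤ ((nb G v \ pV X.P (X.P.pc v)).card : ℝ) +
      (pV X.P (X.P.pc v) ∩ X.Hv).card := by exact_mod_cast h2
  have h5 : ((nb G v \ pV X.P (X.P.pc v)).card : ℝ) + (nb G v ∩ pV X.P (X.P.pc v)).card = d := by
    exact_mod_cast h3
  linarith

/-- sum of the real degrees at a piece of type K -/
theorem Sit.WK (h : Sit πk C CD a ε ε2 C₀ Lam η M S G d X D r cl H Ex m cc f g z θk θ' a' cs
    t CC ρ1 MS) (hη : 0 ≤ η / Lam) {n : Fin N} (hK : X.P.ty n = Ty.K) :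
    Wn G X n ≤ 3 * (η / Lam) * (d : ℝ) ^ 2 := by
  have h1 : Wn G X n ≤ ∑ v ∈ pV X.P n, (((d : ℝ) - (nb G v ∩ pV X.P n).card) +
      (pV X.P n ∩ X.Hv).card) := by
    unfold Wn
    have h2 : ∀ v ∈ (pV X.P n).filter (fun v => ¬ InO X v), ((nb (Erx G X) v).card : ℝ) ≤
        ((d : ℝ) - (nb G v ∩ pV X.P n).card) + (pV X.P n ∩ X.Hv).card := by
      intro v hv
      rw [mem_filter, mem_pV] at hv
      have := h.K1 hv.2 (by rw [hv.1.2]; exact hK)
      rw [hv.1.2] at this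
      exact this
    refine (sum_le_sum h2).trans (sum_le_sum_of_subset_of_nonneg (filter_subset _ _) fun v _ _ => ?_)
    have h3 : (nb G v ∩ pV X.P n).card ≤ d := by
      rw [← h.px.reg v]
      exact card_le_card inter_subset_left
    have h3' : ((nb G v ∩ pV X.P n).card : ℝ) ≤ d := by exact_mod_cast h3
    have h4 : (0 : ℝ) ≤ (pV X.P n ∩ X.Hv).card := Nat.cast_nonneg _
    linarith
  rw [sum_add_distrib, sum_const, nsmul_eq_mul] at h1
  have h2 := h.px.ks n hK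
  have h3 := h.px.kh n hK
  have h4 := h.px.kU n hK
  have h5 := h.tk
  have hd : (0 : ℝ) ≤ d := Nat.cast_nonneg _
  have h6 : ((pV X.P n).card : ℝ) ≤ 101 / 100 * d :=
    h4.trans (mul_le_mul_of_nonneg_right (by linarith) hd)
  have h0 : (0 : ℝ) ≤ (pV X.P n).card := Nat.cast_nonneg _
  have h7 : ((pV X.P n).card : ℝ) * (pV X.P n ∩ X.Hv).card ≤
      (pV X.P n).card * (η / Lam * (pV X.P n).card) := mul_le_mul_of_nonneg_left h3 h0
  have h8 : η / Lam * d * (pV X.P n).card ≤ η / Lam * d * (101 / 100 * d) :=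
    mul_le_mul_of_nonneg_left h6 (mul_nonneg hη hd)
  have h9 : ((pV X.P n).card : ℝ) * (pV X.P n).card ≤ (101 / 100 * d) * (101 / 100 * d) :=
    mul_le_mul h6 h6 h0 (by positivity)
  have h10 := mul_le_mul_of_nonneg_left h9 hη
  have h11 : 0 ≤ η / Lam * ((d : ℝ) * d) := mul_nonneg hη (mul_nonneg hd hd)
  nlinarith

/-- one light vertex -/
theorem Sit.hl (h : Sit πk C CD a ε ε2 C₀ Lam η M S G d X D r cl H Ex m cc f g z θk θ' a' cs
    t CC ρ1 MS) (hd : 1 ≤ d) (hC : 0 < C₀) (hη : 0 ≤ η / Lam) (h1 : C₀ * θ' ≤ 1 / 8)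
    (h2 : C₀ * (η / Lam) ≤ 1 / 16) (h3 : ∀ s, C₀ * (S s).ζ ≤ 1 / 4) (v : V) (hO : ¬ InO X v) :
    C₀ * (((nb (Erx G X) v).card : ℝ) / d) ≤ 1 / 4 := by
  have hd' : (0 : ℝ) < d := by exact_mod_cast hd
  have key : C₀ * ((nb (Erx G X) v).card : ℝ) ≤ 1 / 4 * d → C₀ * (((nb (Erx G X) v).card : ℝ) / d) ≤
      1 / 4 := by
    intro h4
    rw [← mul_div_assoc, div_le_iff₀ hd']
    exact h4
  apply key
  have h0 : v ∉ X.P.V0 := fun h0 => hO (Or.inl h0)
  have hH : v ∉ X.Hv := fun h0 => hO (Or.inr h0)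
  by_cases hNB : X.P.ty (X.P.pc v) = Ty.N ∨ X.P.ty (X.P.pc v) = Ty.B
  · have hl : Fl X v := Or.inr ⟨h0, hNB⟩
    rw [← nb_xt_Fl h.hv hl]
    have h4 : ((nb (xt G X) v).card : ℝ) ≤ ((nb (thin G X.P) v).card : ℝ) :=
      Nat.cast_le.mpr (card_le_card fun w hw => by
        rw [mem_nb] at hw ⊢
        exact hw.1)
    have h5 : ((nb (thin G X.P) v).card : ℝ) ≤ (S (X.sc (X.P.pc v))).ζ * d :=
      h.px.thd v (hNB.imp (fun h6 => ⟨h0, h6⟩) fun h6 => ⟨h0, h6⟩)
    calc C₀ * ((nb (xt G X) v).card : ℝ) ≤ C₀ * ((S (X.sc (X.P.pc v))).ζ * d) :=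
          mul_le_mul_of_nonneg_left (h4.trans h5) hC.le
      _ = C₀ * (S (X.sc (X.P.pc v))).ζ * d := by ring
      _ ≤ 1 / 4 * d := mul_le_mul_of_nonneg_right (h3 _) hd'.le
  · by_cases hK : X.P.ty (X.P.pc v) = Ty.K
    · have h4 := h.K1 hO hK
      have h5 := h.px.kl v ⟨⟨h0, hK⟩, hH⟩
      have h6 := h.px.kh _ hK
      have h7 := h.px.kU _ hK
      have h8 := h.tk
      have h9 : ((pV X.P (X.P.pc v)).card : ℝ) ≤ 101 / 100 * d :=
        h7.trans (mul_le_mul_of_nonneg_right (by linarith) hd'.le)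
      have h10 := mul_le_mul_of_nonneg_left h9 hη
      have h11 : ((nb (Erx G X) v).card : ℝ) ≤ θ' * d + η / Lam * (101 / 100 * d) := by linarith
      have h12 := mul_le_mul_of_nonneg_left h11 hC.le
      have h13 := mul_le_mul_of_nonneg_right h1 hd'.le
      have h14 := mul_le_mul_of_nonneg_right h2 hd'.le
      nlinarith
    · exfalso
      have hE : X.P.ty (X.P.pc v) = Ty.E := by
        rcases h5 : X.P.ty (X.P.pc v) with _ | _ | _ | _ <;> simp_all
      exact (h.px.emp _ hE).false ⟨v, h0, rfl⟩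

end sit

end Pool.Agent.Work.MP_db9399_oxe
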