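import Pool.Agent.Work.MP_db9399_oxe_helper48.Tt

/-!
# MP_db9399, OXE, part 2 (helper48): the left over graph, degrees
-/

set_option autoImplicit false

namespace Pool.Agent.Work.MP_db9399_oxe

open Finset Classical
open Pool.Agent.Work.MP_db9399_all (nb)
open Pool.Agent.Work.MP_db9399_da
open Pool.Agent.Work.MP_db9399_xf
open Pool.Agent.Work.MP_db9399_iv
open Pool.Agent.Work.MP_db9399_ox (sdg Rl)
open Pool.Agent.Work.MP_db9399_sg (nod nsd)

universe u

/-- the situation of OXE -/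
structure Sit {V : Type u} [Fintype V] {N J P : ℕ} (πk C CD a ε ε2 C₀ Lam η : ℝ) (M : ℕ)
    (S : Fin J → Scl) (G : SimpleGraph V) (d : ℕ) (X : XD V N J) (D r : Cx.{u} → ℕ)
    (cl : Fin P → Cx.{u}) (H : Cx.{u} → SimpleGraph V) (Ex : Cx.{u} → Finset V)
    (m : Cx.{u} → NI.{u} N → ℕ) (cc : V → Option (Fin P)) (f : Fin P → V → V)
    (g z θk θ' a' cs t CC ρ1 MS : ℝ) : Prop where
  px : PcX C g z θk θ' (η / Lam) a' M (fun s => sLam Lam (S s)) G d X
  g0 : 0 < g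
  tk : θk ≤ 1 / 100
  hv : ∀ v ∈ X.Hv, InT X Ty.K v
  nm : NmX πk CD a d P D r cl
  ts : TsX cs t CC ρ1 MS G d X D H Ex
  r0 : 0 < ρ1
  r1 : ρ1 ≤ ε
  hm : ∀ κ i, (m κ i : ℝ) ≤ 20 * D κ + 8 * (nod (ndx X κ) i).card
  hc : ∀ v, cc v ≠ none ↔ Ow G X d v
  rl : Rl (Erx G X) H cl (OV X) (ndx X) prx d D r m ε ε2 C₀ cc f

/-- the left over graph -/
def EL {V : Type u} {N J P : ℕ} (G : SimpleGraph V) (X : XD V N J) (f : Fin P → V → V) :
    SimpleGraph V where
  Adj v w := (xt G X).Adj v w ∧ (∀ b, f b v ≠ w) ∧ ∀ b, f b w ≠ v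
  symm := ⟨fun _ _ h => ⟨h.1.symm, h.2.2, h.2.1⟩⟩
  loopless := ⟨fun _ h => h.1.ne rfl⟩

section gen

variable {V : Type u} {N J P : ℕ} {G : SimpleGraph V} {X : XD V N J}

theorem mem_nb [Fintype V] {K : SimpleGraph V} {v w : V} : w ∈ nb K v ↔ K.Adj v w := by
  simp [nb]

theorem xt_Erx {v w : V} (h : (xt G X).Adj v w) : (Erx G X).Adj v w :=
  ⟨h.1.1, fun h' => h.1.2 h'.1⟩

/-- vertices all of whose real edges are in `xt` -/
def Fl (X : XD V N J) (v : V) : Prop :=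
  v ∈ X.P.V0 ∨ (v ∉ X.P.V0 ∧ (X.P.ty (X.P.pc v) = Ty.N ∨ X.P.ty (X.P.pc v) = Ty.B))

theorem NB_not_InO (hv : ∀ v ∈ X.Hv, InT X Ty.K v) {v : V} (h0 : v ∉ X.P.V0)
    (ht : X.P.ty (X.P.pc v) = Ty.N ∨ X.P.ty (X.P.pc v) = Ty.B) : ¬ InO X v := by
  rintro (h | h)
  · exact h0 h
  · have := (hv v h).2
    rw [this] at ht
    rcases ht with h | h <;> cases h

theorem Erx_xt (hv : ∀ v ∈ X.Hv, InT X Ty.K v) {v w : V} (hf : Fl X v)
    (h : (Erx G X).Adj v w) : (xt G X).Adj v w := by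
  refine ⟨⟨h.1, fun hb => ?_⟩, fun hl => ?_⟩
  · rcases hf with hf | ⟨h0, ht⟩
    · exact hb.2.1 hf
    · refine h.2 ⟨hb, NB_not_InO hv h0 ht, NB_not_InO hv hb.2.2.1 ?_⟩
      rw [← hb.2.2.2.1]
      exact ht
  · rcases hf with hf | ⟨h0, ht⟩
    · exact hl.1.1.1 hf
    · have := hl.1.1.2
      rw [this] at ht
      rcases ht with h | h <;> cases h

variable [Fintype V]

theorem mem_OV {v : V} : v ∈ OV X ↔ InO X v := by simp [OV]

theorem nb_Erx_O {v : V} (h : InO X v) : nb (Erx G X) v = nb G v := by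
  ext w
  rw [mem_nb, mem_nb]
  exact ⟨fun h' => h'.1, fun h' => ⟨h', fun h2 => h2.2.1 h⟩⟩

theorem nb_xt_Fl (hv : ∀ v ∈ X.Hv, InT X Ty.K v) {v : V} (h : Fl X v) :
    nb (xt G X) v = nb (Erx G X) v := by
  ext w
  rw [mem_nb, mem_nb]
  exact ⟨xt_Erx, Erx_xt hv h⟩

theorem nb_xt_thin {v : V} (h : ¬ Lk X v) : nb (xt G X) v = nb (thin G X.P) v := by
  ext w
  rw [mem_nb, mem_nb]
  exact ⟨fun h' => h'.1, fun h' => ⟨h', fun h2 => h h2.1⟩⟩

/-- the uncoloured real edges at `v` -/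
noncomputable def unc (G : SimpleGraph V) (X : XD V N J) (f : Fin P → V → V) (v : V) : Finset V :=
  (nb (Erx G X) v).filter fun w => ∀ b, f b v ≠ w

/-- the number of the real edges at `v` in no class -/
noncomputable def noc (G : SimpleGraph V) (X : XD V N J) (H : Cx.{u} → SimpleGraph V) (v : V) : ℝ :=
  (((nb G v).filter fun w => ¬ (Bkx G X).Adj v w ∧ ∀ κ, ¬ (H κ).Adj v w).card : ℝ)

theorem EL_unc (f : Fin P → V → V) (v : V) : nb (EL G X f) v ⊆ unc G X f v := by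
  intro w hw
  rw [mem_nb] at hw
  rw [unc, mem_filter, mem_nb]
  exact ⟨xt_Erx hw.1, hw.2.1⟩

theorem EL_unc_Fl (hv : ∀ v ∈ X.Hv, InT X Ty.K v) (f : Fin P → V → V)
    (ff : ∀ b v, f b (f b v) = v) {v : V} (h : Fl X v) : nb (EL G X f) v = unc G X f v := by
  refine Subset.antisymm (EL_unc f v) ?_
  intro w hw
  rw [unc, mem_filter, mem_nb] at hw
  rw [mem_nb]
  refine ⟨Erx_xt hv h hw.1, hw.2, fun b hb => hw.2 b ?_⟩
  rw [← hb]
  exact ff b w

end gen

section sit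

variable {V : Type u} [Fintype V] {N J P : ℕ} {πk C CD a ε ε2 C₀ Lam η : ℝ} {M : ℕ}
    {S : Fin J → Scl} {G : SimpleGraph V} {d : ℕ} {X : XD V N J} {D r : Cx.{u} → ℕ}
    {cl : Fin P → Cx.{u}} {H : Cx.{u} → SimpleGraph V} {Ex : Cx.{u} → Finset V}
    {m : Cx.{u} → NI.{u} N → ℕ} {cc : V → Option (Fin P)} {f : Fin P → V → V}
    {g z θk θ' a' cs t CC ρ1 MS : ℝ}

theorem Sit.fE (h : Sit πk C CD a ε ε2 C₀ Lam η M S G d X D r cl H Ex m cc f g z θk θ' a' cs t CC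
    ρ1 MS) (b : Fin P) (v : V) (hb : f b v ≠ v) : (Erx G X).Adj v (f b v) :=
  h.ts.HG _ _ _ (h.rl.fG b v hb)

/-- uncoloured and coloured edges -/
theorem Sit.unc_card (h : Sit πk C CD a ε ε2 C₀ Lam η M S G d X D r cl H Ex m cc f g z θk θ' a' cs
    t CC ρ1 MS) (v : V) :
    (unc G X f v).card + (univ.filter fun b => f b v ≠ v).card = (nb (Erx G X) v).card := by
  have h1 := card_match f h.rl.fd (fun b v hb => h.fE b v hb) v univ
  rw [← h1]
  have h2 := card_filter_add_card_filter_not (s := nb (Erx G X) v) (fun w => ∀ b, f b v ≠ w)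
  rw [← h2]
  unfold unc
  congr 2
  ext w
  simp

theorem Sit.cls_card (h : Sit πk C CD a ε ε2 C₀ Lam η M S G d X D r cl H Ex m cc f g z θk θ' a' cs
    t CC ρ1 MS) (v : V) :
    ((nb (Erx G X) v).card : ℝ) = noc G X H v + ∑ κ, ((nb (H κ) v).card : ℝ) := by
  have h1 : (nb (Erx G X) v) = ((nb G v).filter fun w => ¬ (Bkx G X).Adj v w ∧
      ∀ κ, ¬ (H κ).Adj v w) ∪ univ.biUnion fun κ => nb (H κ) v := by
    ext w
    simp only [mem_union, mem_filter, mem_nb, mem_biUnion, mem_univ, true_and]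
    constructor
    · intro hw
      by_cases hk : ∃ κ, (H κ).Adj v w
      · exact Or.inr hk
      · left
        exact ⟨hw.1, hw.2, fun κ hκ => hk ⟨κ, hκ⟩⟩
    · rintro (hw | ⟨κ, hw⟩)
      · exact ⟨hw.1, hw.2.1⟩
      · exact h.ts.HG κ v w hw
  rw [h1, card_union_of_disjoint, card_biUnion]
  · unfold noc
    push_cast
    rfl
  · intro κ _ κ' _ hne
    rw [Function.onFun, Finset.disjoint_left]
    intro w hw hw'
    rw [mem_nb] at hw hw'
    exact h.ts.dis κ κ' v w hne hw hw'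
  · rw [Finset.disjoint_left]
    intro w hw hw'
    simp only [mem_filter, mem_biUnion, mem_univ, true_and, mem_nb] at hw hw'
    obtain ⟨κ, hκ⟩ := hw'
    exact hw.2.2 κ hκ

theorem Sit.nb_off (h : Sit πk C CD a ε ε2 C₀ Lam η M S G d X D r cl H Ex m cc f g z θk θ' a' cs
    t CC ρ1 MS) {κ : Cx.{u}} {v : V} (hO : ¬ InO X v) (hn : ndx X κ v = none) :
    nb (H κ) v = ∅ := by
  rw [eq_empty_iff_forall_notMem]
  intro w hw
  rw [mem_nb] at hw
  rcases h.ts.typ κ v w hw with h1 | h1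
  · exact hO h1
  · exact h1 hn

theorem sum_cls (cl : Fin P → Cx.{u}) (p : Fin P → Prop) :
    ∑ κ, ((univ.filter fun b => cl b = κ ∧ p b).card : ℝ) = ((univ.filter fun b => p b).card : ℝ) := by
  have h1 : (univ.filter fun b => p b).card =
      ∑ κ, ((univ.filter fun b => p b).filter fun b => cl b = κ).card :=
    card_eq_sum_card_fiberwise (fun _ _ => mem_univ _)
  rw [h1]
  push_cast
  refine sum_congr rfl fun κ _ => ?_
  rw [filter_filter]
  congr 2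
  ext b
  simp [and_comm]

/-- the uncoloured edges at a light vertex -/
theorem Sit.unc_le (h : Sit πk C CD a ε ε2 C₀ Lam η M S G d X D r cl H Ex m cc f g z θk θ' a' cs
    t CC ρ1 MS) (hC0 : 0 < C₀) (he : 0 < ε2) {v : V} (hO : ¬ InO X v) :
    ((unc G X f v).card : ℝ) ≤ noc G X H v +
      (∑ κ, (r κ : ℝ)) * (C₀ * (((nb (Erx G X) v).card : ℝ) / d) + ε2) := by
  have h1 : ((unc G X f v).card : ℝ) + ((univ.filter fun b => f b v ≠ v).card : ℝ) =
      ((nb (Erx G X) v).card : ℝ) := by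
    exact_mod_cast h.unc_card v
  have h2 := h.cls_card v
  have h3 : ∑ κ, ((nb (H κ) v).card : ℝ) ≤ ((nb (Erx G X) v).card : ℝ) := by
    have : 0 ≤ noc G X H v := Nat.cast_nonneg _
    linarith
  have h4 : ∀ κ, ((nb (H κ) v).card : ℝ) ≤ ((univ.filter fun b => cl b = κ ∧ f b v ≠ v).card : ℝ) +
      (r κ : ℝ) * (C₀ * (((nb (Erx G X) v).card : ℝ) / d) + ε2) := by
    intro κ
    by_cases hn : ndx X κ v = none
    · rw [h.nb_off hO hn]
      simp only [card_empty, Nat.cast_zero]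
      positivity
    · have h5 := h.rl.lft κ v hn
      have h6 : C₀ * ((r κ : ℝ) / d) * (∑ κ', ((nb (H κ') v).card : ℝ)) ≤
          C₀ * ((r κ : ℝ) / d) * ((nb (Erx G X) v).card : ℝ) :=
        mul_le_mul_of_nonneg_left h3 (by positivity)
      have h7 : (r κ : ℝ) * (C₀ * (((nb (Erx G X) v).card : ℝ) / d) + ε2) =
          C₀ * ((r κ : ℝ) / d) * ((nb (Erx G X) v).card : ℝ) + ε2 * r κ := by ring
      rw [h7]
      linarith
  have h8 := sum_le_sum fun κ (_ : κ ∈ univ) => h4 κ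
  have h9 : ∑ κ, ((univ.filter fun b => cl b = κ ∧ f b v ≠ v).card : ℝ) =
      ((univ.filter fun b => f b v ≠ v).card : ℝ) := by
    convert sum_cls cl (fun b => f b v ≠ v)
  rw [sum_add_distrib, h9, ← sum_mul] at h8
  linarith

end sit

end Pool.Agent.Work.MP_db9399_oxe
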