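import Pool.Agent.Work.MP_db9399_oxe_helper48.Pal
import Pool.Agent.Work.MP_db9399_oxe_helper48.Asy

/-!
# MP_db9399, OXE (helper48): the theorem
-/

set_option autoImplicit false

namespace Pool.Agent.Work.MP_db9399_oxe

open Finset Classical
open Pool.Agent.Work.MP_db9399_all (nb)
open Pool.Agent.Work.MP_db9399_lt (us)
open Pool.Agent.Work.MP_db9399_da hiding qV
open Pool.Agent.Work.MP_db9399_xf
open Pool.Agent.Work.MP_db9399_iv
open Pool.Agent.Work.MP_db9399_ox (sdg Rl sgP)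
open Pool.Agent.Work.MP_db9399_sg (nod nsd Mts sgn)

universe u

section num

variable {J P : ℕ} {πk C CD a δ η : ℝ} {d : ℕ} {D r : Cx.{u} → ℕ} {cl : Fin P → Cx.{u}}
  {θ : Fin J → ℝ}

theorem Dle (h : NmX πk CD a d P D r cl) (κ : Cx.{u}) : D κ ≤ d := by
  rw [← h.sum]
  exact single_le_sum (fun _ _ => Nat.zero_le _) (mem_univ κ)

theorem Dge (h : NmX πk CD a d P D r cl) (hCD : 1 ≤ CD) (κ : Cx.{u}) :
    (d : ℝ) / CD ≤ D κ := by
  rw [div_le_iff₀ (by linarith)]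
  have := h.Dd κ
  linarith

theorem r_lo (h : NmX πk CD a d P D r cl) (hB : Big CD δ C a η θ d) (hCD : 1 ≤ CD) (ha : 0 < a)
    (ha1 : a ≤ 1 / 250) : 2 * ((d : ℝ) / CD) ^ (249 / 250 : ℝ) ≤ ∑ κ, (r κ : ℝ) := by
  have hCD0 : 0 < CD := by linarith
  have h1 : (1 : ℝ) ≤ (d : ℝ) / CD := by
    rw [le_div_iff₀ hCD0]
    linarith [hB.D1]
  have h2 : ((d : ℝ) / CD) ^ (249 / 250 : ℝ) ≤ (D Cx.R : ℝ) ^ (1 - a) := by
    refine (Real.rpow_le_rpow_of_exponent_le h1 (by linarith : (249 / 250 : ℝ) ≤ 1 - a)).trans ?_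
    exact Real.rpow_le_rpow (by linarith) (Dge h hCD _) (by linarith)
  have h3 := h.rlo Cx.R
  have h4 : (r Cx.R : ℝ) ≤ ∑ κ, (r κ : ℝ) :=
    single_le_sum (f := fun κ => (r κ : ℝ)) (fun _ _ => Nat.cast_nonneg _) (mem_univ Cx.R)
  linarith

theorem r_up (h : NmX πk CD a d P D r cl) (hB : Big CD δ C a η θ d) (ha : 0 < a)
    (ha1 : a ≤ 1 / 250) : ∑ κ, (r κ : ℝ) + 12 ≤ δ * d := by
  have h1 : ∀ κ, (r κ : ℝ) + 2 ≤ (d : ℝ) ^ (1 - a / 3) := by
    intro κ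
    refine (h.rhi κ).trans (Real.rpow_le_rpow (Nat.cast_nonneg _) ?_ (by linarith))
    exact_mod_cast Dle h κ
  have h2 := sum_le_sum fun κ (_ : κ ∈ univ) => h1 κ
  rw [sum_add_distrib, sum_const, sum_const, card_univ, card_Cx, nsmul_eq_mul, nsmul_eq_mul] at h2
  push_cast at h2
  have := hB.up
  linarith

theorem r_half (h : NmX πk CD a d P D r cl) (hB : Big CD δ C a η θ d) (hCD : 1 ≤ CD)
    (κ : Cx.{u}) : 2 * r κ ≤ D κ := by
  have h1 := h.rhi κ
  have h2 := hB.half (D κ) (Dge h hCD κ)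
  have : 2 * (r κ : ℝ) ≤ D κ := by linarith
  exact_mod_cast this

end num

/-- OXE -/
theorem stmt_OXE : Stmt_OXE.{u} := by
  intro πk CD υ hπ1 hπ2 hCD hυ hυ1
  have h3π : 0 < 1 - 3 * πk := by linarith
  obtain ⟨δ, hδ⟩ : ∃ δ : ℝ, δ = υ * (1 - 3 * πk) / 400 := ⟨_, rfl⟩
  have hδ0 : 0 < δ := by rw [hδ]; positivity
  have hδ1 : 1600 * δ ≤ υ := by
    rw [hδ]
    nlinarith
  refine ⟨δ / 100, by positivity, fun ε C₀ hε hε1 hC0 C hC => ?_⟩
  obtain ⟨Lam, hL⟩ : ∃ Lam : ℝ, Lam = 16 * C₀ + 2 * C + 8 + C₀ / δ := ⟨_, rfl⟩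
  have hCδ : 0 < C₀ / δ := by positivity
  have hL1 : 1 ≤ Lam := by rw [hL]; linarith
  have hL0 : 0 < Lam := by linarith
  refine ⟨Lam, 1 / (8 * C₀), ⟨fun _ => 1, fun _ _ => 1, fun _ _ _ => δ,
    fun _ _ _ _ => min δ (1 / (4 * C₀)), fun _ _ _ _ _ => 1⟩, hL1, by positivity, ?_, ?_⟩
  · exact ⟨fun _ _ => one_pos, fun _ _ _ _ => one_pos, fun _ _ _ _ _ _ => hδ0,
      fun _ _ _ _ _ _ _ _ => lt_min hδ0 (by positivity), fun _ _ _ _ _ _ _ _ _ _ => one_pos⟩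
  intro J S a η ε2 hS ha ha1 hη hη1 he2 he2s he2η
  obtain ⟨d1, hd1⟩ := big CD δ C a η (fun s => (S s).θ) hCD hδ0 (by linarith) ha hη
    (fun s => (hS s).θ.1)
  obtain ⟨d2, hd2⟩ := Pool.Agent.Work.MP_db9399_sg_helper39.stmt_RESTN.{u} (C + 2) (by linarith)
  refine ⟨max d1 d2, ?_⟩
  intro V _ N G d P X D r cl H Ex m cc f g z θk θ' a' cs t CC ρ1 MS τ e M hd hpx hg hθk hθ' hHv
    hnm hts hρ0 hρ1 hm hcc hrl hown
  have hB := hd1 d (le_trans (le_max_left _ _) hd)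
  have h : Sit πk C CD a ε ε2 C₀ Lam η M S G d X D r cl H Ex m cc f g z θk θ' a' cs t CC ρ1 MS :=
    ⟨hpx, hg, hθk, hHv, hnm, hts, hρ0, hρ1, hm, hcc, hrl⟩
  -- numbers
  have hζδ : ∀ s, (S s).ζ ≤ δ := fun s => (hS s).ζ.2.trans (min_le_left _ _)
  have hζC : ∀ s, C₀ * (S s).ζ ≤ 1 / 4 := by
    intro s
    have h1 := (hS s).ζ.2.trans (min_le_right _ _)
    have h2 := mul_le_mul_of_nonneg_left h1 hC0.le
    have e1 : C₀ * (1 / (4 * C₀)) = 1 / 4 := by field_simp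
    rwa [e1] at h2
  have hζ8 : ∀ s, (S s).ζ ≤ 1 / 8 := fun s => by
    have := hζδ s
    linarith
  have hθ0 : ∀ s, 0 < (S s).θ := fun s => (hS s).θ.1
  have hθ1 : ∀ s, (S s).θ ≤ 1 := fun s => (hS s).θ.2
  have hθL : ∀ s, 0 ≤ (S s).θ / Lam := fun s => (div_pos (hθ0 s) hL0).le
  have hθL1 : ∀ s, (S s).θ / Lam ≤ 1 := fun s => by
    rw [div_le_one hL0]
    exact (hθ1 s).trans hL1
  have hth : ∀ s, C₀ * ((S s).θ / Lam) ≤ δ := by
    intro s
    rw [← mul_div_assoc, div_le_iff₀ hL0]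
    have h1 : C₀ ≤ δ * Lam := by
      rw [hL]
      have e1 : δ * (C₀ / δ) = C₀ := by field_simp
      nlinarith
    have h2 := mul_le_mul_of_nonneg_left (hθ1 s) hC0.le
    linarith
  have hd0 : (0 : ℝ) < d := by exact_mod_cast hB.hd
  have hBd : Bd δ C₀ ε ε2 Lam S d D r := by
    refine ⟨hB.hd, hδ0, by linarith, hC0, hε, by linarith, he2, hL0, hζδ, fun s => (hS s).ε.2,
      fun s => (hθ0 s).le, hth, r_half hnm hB hCD, fun κ => ?_⟩
    have h1 : (1 : ℝ) ≤ (d : ℝ) / CD := by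
      rw [le_div_iff₀ (by linarith)]
      linarith [hB.D1]
    exact_mod_cast h1.trans (Dge hnm hCD κ)
  have hrlo := r_lo hnm hB hCD ha ha1
  have hrup := r_up hnm hB ha ha1
  have hPr := hnm.Pr
  obtain ⟨q, hq⟩ : ∃ q, P + q = d + 2 := ⟨d + 2 - P, by omega⟩
  have hqe : d + 2 - P = q := by omega
  have hqr : (q : ℝ) = ∑ κ, (r κ : ℝ) + 2 := by
    have : q = ∑ κ, r κ + 2 := by omega
    rw [this]
    push_cast
    ring
  have hL98 := hB.low
  have h98 : (d : ℝ) ^ (98 / 100 : ℝ) ≤ q := by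
    have : 0 ≤ ((d : ℝ) / CD) ^ (249 / 250 : ℝ) := Real.rpow_nonneg (by positivity) _
    linarith
  have hd1' : (1 : ℝ) ≤ d := by exact_mod_cast hB.hd
  have h90 : 2 * (d : ℝ) ^ (9 / 10 : ℝ) ≤ ∑ κ, (r κ : ℝ) := by
    have := Real.rpow_le_rpow_of_exponent_le hd1' (by norm_num : (9 / 10 : ℝ) ≤ 98 / 100)
    linarith
  have hq0 : 0 < q := by
    have : (0 : ℝ) < q := lt_of_lt_of_le (Real.rpow_pos_of_pos hd0 _) h98
    exact_mod_cast this
  have hq0' : (0 : ℝ) < q := by exact_mod_cast hq0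
  have hqd : (q : ℝ) ≤ δ * d := by linarith
  have hqd' : (q : ℝ) ≤ d := hqd.trans (by nlinarith)
  have hηL : 0 ≤ η / Lam := (div_pos hη hL0).le
  have hCθ' : C₀ * θ' ≤ 1 / 8 := by
    have h2 := mul_le_mul_of_nonneg_left hθ' hC0.le
    have e1 : C₀ * (1 / (8 * C₀)) = 1 / 8 := by field_simp
    rwa [e1] at h2
  have hCη : C₀ * (η / Lam) ≤ 1 / 16 := by
    rw [← mul_div_assoc, div_le_iff₀ hL0, hL]
    have := mul_le_mul_of_nonneg_left hη1 hC0.le
    linarith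
  have he24 : ε2 ≤ 1 / 4 := by
    refine he2η.trans ?_
    rw [div_le_iff₀ hL0, hL]
    linarith
  have hl := h.hl hB.hd hC0 hηL hCθ' hCη hζC
  -- Rest
  have hsz : ∀ (i : NI.{u} N ⊕ NI.{u} N) s, ((nsd (ndR G X d) i s).card : ℝ) ≤ (C + 2) * d := by
    intro i s
    rcases i with ⟨n, i⟩ | ⟨n, β⟩
    · have h1 : nsd (ndR G X d) (Sum.inl (⟨(n, i)⟩ : NI.{u} N)) s ⊆ pV X.P n := by
        intro v hv
        rw [mem_nsd0, ndR_inl] at hv
        rw [mem_pV]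
        exact ⟨fun h0 => hv.1 (Or.inl h0), hv.2.1⟩
      have h2 := pV_le hpx (by linarith) n
      have h3 : ((nsd (ndR G X d) (Sum.inl (⟨(n, i)⟩ : NI.{u} N)) s).card : ℝ) ≤
        ((pV X.P n).card : ℝ) := Nat.cast_le.mpr (card_le_card h1)
      linarith
    · have h1 : nsd (ndR G X d) (Sum.inr (⟨(n, β)⟩ : NI.{u} N)) s ⊆
          univ.filter fun w => Cvr G X d n β w := by
        intro v hv
        rw [mem_nsd0] at hv
        rw [mem_filter]
        exact ⟨mem_univ _, (ndR_inr hv).2.1⟩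
      have h2 := cov_card hpx hζ8 hB.hd hθL n β
      have h2' : ((univ.filter fun w => Cvr G X d n β w).card : ℝ) ≤
        2 * ((S (X.sc n)).θ / Lam) * d := h2
      have h3 : ((nsd (ndR G X d) (Sum.inr (⟨(n, β)⟩ : NI.{u} N)) s).card : ℝ) ≤
        ((univ.filter fun w => Cvr G X d n β w).card : ℝ) := Nat.cast_le.mpr (card_le_card h1)
      have h4 := mul_le_mul_of_nonneg_right (hθL1 (X.sc n)) hd0.le
      have h5 : 0 ≤ C * d := by positivity
      linarith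
  obtain ⟨R, hM, hco, hE, hld⟩ := hd2 (EL G X f) (ndR G X d) d q (le_trans (le_max_right _ _) hd)
    h98 (by exact_mod_cast hqd') (fun v => by rw [← hqe]; exact h.EL_deg hl h90 hC0 he2 he24 v)
    (fun v w hvw => by rw [← hqe]; exact h.EL_adj hl h90 hC0 he2 he24 v w hvw) hsz
  have hR : Rs G X f R := ⟨hM, hco⟩
  -- loads
  have h92 : (d : ℝ) ^ (19 / 10 : ℝ) / q ≤ (d : ℝ) ^ (92 / 100 : ℝ) := by
    rw [div_le_iff₀ hq0']
    have e1 : (d : ℝ) ^ (19 / 10 : ℝ) = (d : ℝ) ^ (92 / 100 : ℝ) * (d : ℝ) ^ (98 / 100 : ℝ) := by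
      rw [← Real.rpow_add hd0]
      norm_num
    rw [e1]
    exact mul_le_mul_of_nonneg_left h98 (Real.rpow_nonneg hd0.le _)
  have hload : ∀ (n : Fin N) (b : ℕ) (x : ℝ), 0 ≤ x → ε2 ≤ x → Wn G X n ≤ 3 * x * (d : ℝ) ^ 2 →
      (((pV X.P n).filter fun v => ¬ InO X v ∧ b ∈ Ft (xt G X) (tcol f R) v).card : ℝ) ≤
        (3 * C₀ + 4 + C) * x * d + ((d : ℝ) ^ (92 / 100 : ℝ) + 16) := by
    intro n b x hx hex hW
    have h1 := h.lda hC0 he2 hR hq0 (by linarith) hld n b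
    have h2 : Wn G X n / d ≤ 3 * x * d := by
      rw [div_le_iff₀ hd0]
      linarith [hW, sq (d : ℝ)]
    have h3 := mul_le_mul_of_nonneg_left h2 hC0.le
    have h4 := pV_le hpx (by linarith) n
    have h5 : ε2 * ((pV X.P n).card : ℝ) ≤ x * (C * d) :=
      mul_le_mul hex h4 (Nat.cast_nonneg _) hx
    have h6 : ε2 * d ≤ x * d := mul_le_mul_of_nonneg_right hex hd0.le
    linarith
  have hNB : ∀ (n : Fin N), X.P.ty n = Ty.N ∨ X.P.ty n = Ty.B → ∀ b,
      ((us (Fp (xt G X) X (tcol f R) n) b).card : ℝ) ≤ 100 * (S (X.sc n)).θ * d := by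
    intro n hn b
    rw [us_card (xt G X) (tcol f R) hHv hn b]
    have h1 : Wn G X n ≤ 3 * ((S (X.sc n)).θ / Lam) * (d : ℝ) ^ 2 := by
      have h2 := h.thE hn
      have h3 : 0 ≤ (S (X.sc n)).θ / Lam * (d : ℝ) ^ 2 := mul_nonneg (hθL _) (by positivity)
      unfold Wn
      linarith
    have h2 := hload n b _ (hθL _) (he2s _) h1
    have h3 := hB.th (X.sc n)
    have h4 : (3 * C₀ + 4 + C) * ((S (X.sc n)).θ / Lam) ≤ (S (X.sc n)).θ := by
      rw [← mul_div_assoc, div_le_iff₀ hL0, mul_comm (S (X.sc n)).θ Lam]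
      refine mul_le_mul_of_nonneg_right ?_ (hθ0 _).le
      rw [hL]
      linarith
    have h5 := mul_le_mul_of_nonneg_right h4 hd0.le
    have h6 : 0 ≤ (S (X.sc n)).θ * d := mul_nonneg (hθ0 _).le hd0.le
    linarith
  have hKl : ∀ n, X.P.ty n = Ty.K → ∀ b, (((pV X.P n).filter fun v => ¬ InO X v ∧
      b ∈ Ft (xt G X) (tcol f R) v).card : ℝ) ≤ η * d := by
    intro n hn b
    have h2 := hload n b _ hηL he2η (h.WK hηL hn)
    have h3 := hB.et
    have h4 : (3 * C₀ + 4 + C) * (η / Lam) ≤ η / 2 := by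
      rw [← mul_div_assoc, div_le_iff₀ hL0]
      have h5 : 3 * C₀ + 4 + C ≤ Lam / 2 := by
        rw [hL]
        linarith
      have := mul_le_mul_of_nonneg_right h5 hη.le
      linarith
    have h5 := mul_le_mul_of_nonneg_right h4 hd0.le
    linarith
  have hqL : 2 * ((d : ℝ) / CD) ^ (249 / 250 : ℝ) ≤ q := by linarith
  have hL0' : 0 < 2 * ((d : ℝ) / CD) ^ (249 / 250 : ℝ) := by
    have : 0 < CD := by linarith
    positivity
  refine ⟨palA cl, tcol f R, mmr P R, palA_P hnm, ?_⟩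
  refine
    { toTcX := h.tcx hR hq hKl
      toOwX := h.owx hR hown
      toNuX := ?_
      sup := ?_
      mm := ?_
      ms := ?_ }
  · refine ⟨fun n hn v => h.rQ hR hn v, hNB, fun n hn i => ?_, fun n hn β => ?_, fun n hn j => ?_⟩
    · refine (h.exc hBd hR hq hE hn i).trans ?_
      exact mul_le_mul_of_nonneg_right (by linarith) (Nat.cast_nonneg _)
    · refine (h.tot hBd hR hq hqd hE hn β).trans ?_
      exact mul_le_mul_of_nonneg_right (by linarith) (Nat.cast_nonneg _)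
    · show ∑ b ∈ pcl cl (Cx.Q j), _ ≤ (3 / 5 + υ * (sV X.P n false).card / d) *
        ((pcl cl (Cx.Q j)).card : ℝ)
      rw [sum_pcl, pcl_card]
      refine (h.neg hBd hR (Or.inr hn) j (!j)).trans ?_
      have h1 : ((sV X.P n false).card : ℝ) + (sV X.P n false).card = (pV X.P n).card := by
        exact_mod_cast B_side hpx hn false
      have h2 := (hnm.pQ j).1
      have h3 : 0 ≤ υ * ((sV X.P n false).card : ℝ) / d := by positivity
      have h4 := mul_le_mul_of_nonneg_left h2 h3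
      have e1 : υ * ((sV X.P n false).card : ℝ) / d * ((1 - 3 * πk) / 100 * d) =
          4 * δ * (sV X.P n false).card := by
        rw [hδ]
        field_simp
        ring
      rw [e1] at h4
      rw [← h1]
      linarith
  · intro n hn i b hb
    refine h.sup hBd hR hq (by linarith) hq0 ?_ hE hn i b hb
    refine le_trans ?_ hB.sup
    have := div_le_div_of_nonneg_left (by positivity : 0 ≤ 4 * δ * (C * (d : ℝ))) hL0' hqL
    linarith
  · intro w hw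
    exact h.mm hR hq hw
  · intro n β b
    refine (h.ms hR hq hB.hd hq0 hζ8 hθL hθL1 hE n β b).trans ?_
    refine le_trans ?_ hB.ms
    have := div_le_div_of_nonneg_left (by positivity : 0 ≤ 4 * (d : ℝ)) hL0' hqL
    linarith

end Pool.Agent.Work.MP_db9399_oxe

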