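import Pool.Agent.Work.MP_db9399_oxe_helper48.Rst

/-!
# MP_db9399, OXE, part 4 (helper48): numbers of the pieces = numbers of the nodes
-/

set_option autoImplicit false

namespace Pool.Agent.Work.MP_db9399_oxe

open Finset Classical
open Pool.Agent.Work.MP_db9399_all (nb)
open Pool.Agent.Work.MP_db9399_lt (us)
open Pool.Agent.Work.MP_db9399_da hiding qV
open Pool.Agent.Work.MP_db9399_xf
open Pool.Agent.Work.MP_db9399_iv
open Pool.Agent.Work.MP_db9399_ox (sdg Rl sgP)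
open Pool.Agent.Work.MP_db9399_sg (nod nsd Mts sgn)

universe u

section pieces

variable {V : Type u} [Fintype V] {N J : ℕ} {G : SimpleGraph V} {X : XD V N J}

theorem mem_qV {n : Fin N} {s i : Bool} {v : V} :
    v ∈ qV X n s i ↔ v ∉ X.P.V0 ∧ X.P.pc v = n ∧ X.P.sd v = s ∧ X.P.pt v = i := by
  simp [qV, sV, and_assoc]

/-- the number of elements of an intersection does not depend on the decision procedure -/
theorem inter_card_inst {α : Type*} (A B : Finset α) (i1 i2 : DecidableEq α) :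
    (@Inter.inter _ (@Finset.instInter _ i1) A B).card =
      (@Inter.inter _ (@Finset.instInter _ i2) A B).card := by
  rw [Subsingleton.elim i1 i2]

theorem card_Ts (n : Fin N) (A : Finset (Ts X.P n)) (B : Finset V)
    (h : ∀ v : Ts X.P n, v ∈ A ↔ v.1 ∈ B) (hB : ∀ v ∈ B, v ∉ X.P.V0 ∧ X.P.pc v = n) :
    A.card = B.card := by
  refine card_bij (fun v _ => v.1) ?_ ?_ ?_
  · intro v hv
    exact (h v).mp hv
  · intro v _ w _ e
    exact Subtype.ext e
  · intro v hv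
    exact ⟨⟨v, hB v hv⟩, (h _).mpr hv, rfl⟩

theorem qtr_us (T : SimpleGraph V) (t : V → V → ℕ) (n : Fin N) (s i : Bool) (b : ℕ) :
    (qtr (sdn X.P n) (ptn X.P n) s i ∩ us (Fp T X t n) b).card =
      ((qV X n s i).filter fun v => b ∈ Ft T t v).card := by
  refine card_Ts n _ _ ?_ ?_
  · rintro ⟨v, hv⟩
    simp only [mem_inter, qtr, us, mem_filter, mem_univ, true_and, mem_qV, sdn, ptn, Fp]
    tauto
  · intro v hv
    rw [mem_filter, mem_qV] at hv
    exact ⟨hv.1.1, hv.1.2.1⟩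

theorem sgp_eq (T : SimpleGraph V) (t : V → V → ℕ) (n : Fin N) (i : Bool) (b : ℕ) :
    sgp (Fp T X t n) (sdn X.P n) (ptn X.P n) i b =
      (((qV X n false i).filter fun v => b ∈ Ft T t v).card : ℤ) -
        (((qV X n true i).filter fun v => b ∈ Ft T t v).card : ℤ) := by
  unfold sgp
  rw [← qtr_us, ← qtr_us]
  exact congrArg₂ (fun a b : ℕ => (a : ℤ) - (b : ℤ)) (inter_card_inst _ _ _ _)
    (inter_card_inst _ _ _ _)

theorem us_eq (T : SimpleGraph V) (t : V → V → ℕ) (n : Fin N) (b : ℕ) :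
    (us (Fp T X t n) b).card = ∑ i : Bool, ∑ s : Bool,
      ((qV X n s i).filter fun v => b ∈ Ft T t v).card := by
  have h1 : us (Fp T X t n) b = univ.biUnion fun i : Bool => univ.biUnion fun s : Bool =>
      qtr (sdn X.P n) (ptn X.P n) s i ∩ us (Fp T X t n) b := by
    ext v
    simp only [mem_biUnion, mem_univ, true_and, mem_inter, qtr, mem_filter]
    constructor
    · intro hv
      exact ⟨_, _, ⟨rfl, rfl⟩, hv⟩
    · rintro ⟨_, _, _, hv⟩
      exact hv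
  rw [h1, card_biUnion]
  · refine sum_congr rfl fun i _ => ?_
    rw [card_biUnion]
    · refine sum_congr rfl fun s _ => ?_
      exact qtr_us T t n s i b
    · intro s _ s' _ hne
      rw [Function.onFun, Finset.disjoint_left]
      intro v hv hv'
      simp only [mem_inter, qtr, mem_filter, mem_univ, true_and] at hv hv'
      exact hne (hv.1.1.symm.trans hv'.1.1)
  · intro i _ i' _ hne
    rw [Function.onFun, Finset.disjoint_left]
    intro v hv hv'
    simp only [mem_biUnion, mem_inter, qtr, mem_filter, mem_univ, true_and] at hv hv'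
    obtain ⟨_, h2, _⟩ := hv
    obtain ⟨_, h3, _⟩ := hv'
    exact hne (h2.2.symm.trans h3.2)


/-- a need is the positive part of a signed number -/
theorem need_eq (T : SimpleGraph V) (t : V → V → ℕ) (n : Fin N) (β : Bool) (b : ℕ) :
    2 * ((need (Fp T X t n) (sdn X.P n) β b : ℕ) : ℝ) =
      |((sgp (Fp T X t n) (sdn X.P n) (ptn X.P n) false b : ℤ) : ℝ) +
        ((sgp (Fp T X t n) (sdn X.P n) (ptn X.P n) true b : ℤ) : ℝ)| +
      (if β then 1 else -1) * (((sgp (Fp T X t n) (sdn X.P n) (ptn X.P n) false b : ℤ) : ℝ) +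
        ((sgp (Fp T X t n) (sdn X.P n) (ptn X.P n) true b : ℤ) : ℝ)) := by
  have hs : ∀ s : Bool, (sid (sdn X.P n) s ∩ us (Fp T X t n) b).card =
      (qtr (sdn X.P n) (ptn X.P n) s false ∩ us (Fp T X t n) b).card +
        (qtr (sdn X.P n) (ptn X.P n) s true ∩ us (Fp T X t n) b).card := by
    intro s
    rw [← card_union_of_disjoint]
    · congr 1
      ext v
      simp only [mem_inter, mem_union, sid, qtr, mem_filter, mem_univ, true_and]
      cases ptn X.P n v <;> simp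
    · rw [Finset.disjoint_left]
      intro v hv hv'
      simp only [mem_inter, qtr, mem_filter, mem_univ, true_and] at hv hv'
      have := hv.1.2.symm.trans hv'.1.2
      simp at this
  have key : ∀ x y : ℕ, 2 * (((x - y : ℕ) : ℝ)) = |(x : ℝ) - y| + ((x : ℝ) - y) := by
    intro x y
    rcases le_total x y with h | h
    · rw [Nat.sub_eq_zero_of_le h, abs_of_nonpos (by
        have : (x : ℝ) ≤ y := by exact_mod_cast h
        linarith)]
      simp
    · rw [Nat.cast_sub h, abs_of_nonneg (by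
        have : (y : ℝ) ≤ x := by exact_mod_cast h
        linarith)]
      ring
  have hnd : need (Fp T X t n) (sdn X.P n) β b = (sid (sdn X.P n) (!β) ∩ us (Fp T X t n) b).card -
      (sid (sdn X.P n) β ∩ us (Fp T X t n) b).card := by
    unfold need
    exact congrArg₂ (fun a b : ℕ => a - b) (inter_card_inst _ _ _ _) (inter_card_inst _ _ _ _)
  have hsg : ∀ i, sgp (Fp T X t n) (sdn X.P n) (ptn X.P n) i b =
      ((qtr (sdn X.P n) (ptn X.P n) false i ∩ us (Fp T X t n) b).card : ℤ) -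
        ((qtr (sdn X.P n) (ptn X.P n) true i ∩ us (Fp T X t n) b).card : ℤ) := by
    intro i
    unfold sgp
    exact congrArg₂ (fun a b : ℕ => (a : ℤ) - (b : ℤ)) (inter_card_inst _ _ _ _)
      (inter_card_inst _ _ _ _)
  rw [hnd, key, hs, hs, hsg, hsg]
  push_cast
  cases β
  · simp only [Bool.not_false, Bool.false_eq_true, if_false]
    rw [← abs_neg]
    ring_nf
  · simp only [Bool.not_true, if_true]
    ring_nf

end pieces

section nodes

variable {V : Type u} [Fintype V] {N J : ℕ} {G : SimpleGraph V} {X : XD V N J} {d : ℕ}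

theorem mem_nsd0 {I : Type u} {nd : V → Option (I × Bool)} {i : I} {s : Bool} {v : V} :
    v ∈ nsd nd i s ↔ nd v = some (i, s) := by simp [nsd]

theorem ptx_NB {v : V} (ht : X.P.ty (X.P.pc v) = Ty.N ∨ X.P.ty (X.P.pc v) = Ty.B) :
    ptx X v = X.P.pt v := by
  unfold ptx
  rw [if_pos ht]

/-- the nodes of the classes at a piece of type N or B -/
theorem mem_nsd {κ : Cx.{u}} {n : Fin N} (hn : X.P.ty n = Ty.N ∨ X.P.ty n = Ty.B) {i s : Bool}
    {v : V} : v ∈ nsd (ndx X κ) ⟨(n, i)⟩ s ↔ ¬ InO X v ∧ v ∈ qV X n s i ∧ κ ≠ Cx.Q i := by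
  rw [mem_qV, mem_nsd0]
  unfold ndx
  constructor
  · intro h
    split_ifs at h with h1
    push Not at h1
    simp only [Option.some.injEq, Prod.mk.injEq, ULift.up.injEq] at h
    obtain ⟨⟨h2, h3⟩, h4⟩ := h
    have ht : X.P.ty (X.P.pc v) = Ty.N ∨ X.P.ty (X.P.pc v) = Ty.B := by rw [h2]; exact hn
    rw [ptx_NB ht] at h3
    refine ⟨h1.1, ⟨fun h0 => h1.1 (Or.inl h0), h2, h4, h3⟩, ?_⟩
    have := h1.2.2 ht
    rw [h3] at this
    exact this
  · rintro ⟨h1, ⟨h2, h3, h4, h5⟩, h6⟩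
    have ht : X.P.ty (X.P.pc v) = Ty.N ∨ X.P.ty (X.P.pc v) = Ty.B := by rw [h3]; exact hn
    rw [if_neg]
    · rw [ptx_NB ht, h3, h4, h5]
    · push Not
      refine ⟨h1, fun j _ hK _ => ?_, fun _ => ?_⟩
      · rw [hK] at ht
        rcases ht with ht | ht <;> cases ht
      · rw [h5]
        exact h6

theorem mem_nsdR {n : Fin N} (hn : X.P.ty n = Ty.N ∨ X.P.ty n = Ty.B) {i s : Bool}
    {v : V} : v ∈ nsd (ndR G X d) (Sum.inl ⟨(n, i)⟩) s ↔ ¬ InO X v ∧ v ∈ qV X n s i := by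
  rw [mem_qV, mem_nsd0, ndR_inl]
  constructor
  · rintro ⟨h1, h2, h3, h4⟩
    have ht : X.P.ty (X.P.pc v) = Ty.N ∨ X.P.ty (X.P.pc v) = Ty.B := by rw [h2]; exact hn
    rw [ptx_NB ht] at h3
    exact ⟨h1, fun h0 => h1 (Or.inl h0), h2, h4, h3⟩
  · rintro ⟨h1, h2, h3, h4, h5⟩
    have ht : X.P.ty (X.P.pc v) = Ty.N ∨ X.P.ty (X.P.pc v) = Ty.B := by rw [h3]; exact hn
    rw [ptx_NB ht]
    exact ⟨h1, h3, h5, h4⟩

theorem qV_light (hv : ∀ v ∈ X.Hv, InT X Ty.K v) {n : Fin N}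
    (hn : X.P.ty n = Ty.N ∨ X.P.ty n = Ty.B) {i s : Bool} {v : V} (h : v ∈ qV X n s i) :
    ¬ InO X v := by
  rw [mem_qV] at h
  exact NB_not_InO hv h.1 (by rw [h.2.1]; exact hn)

theorem nsd_eq (hv : ∀ v ∈ X.Hv, InT X Ty.K v) {κ : Cx.{u}} {n : Fin N}
    (hn : X.P.ty n = Ty.N ∨ X.P.ty n = Ty.B) (i s : Bool) (hκ : κ ≠ Cx.Q i) :
    nsd (ndx X κ) ⟨(n, i)⟩ s = qV X n s i := by
  ext v
  rw [mem_nsd hn]
  exact ⟨fun h => h.2.1, fun h => ⟨qV_light hv hn h, h, hκ⟩⟩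

theorem nsd_emp {κ : Cx.{u}} {n : Fin N}
    (hn : X.P.ty n = Ty.N ∨ X.P.ty n = Ty.B) (i s : Bool) (hκ : κ = Cx.Q i) :
    nsd (ndx X κ) ⟨(n, i)⟩ s = ∅ := by
  rw [eq_empty_iff_forall_notMem]
  intro v hv
  rw [mem_nsd hn] at hv
  exact hv.2.2 hκ

theorem nsdR_eq (hv : ∀ v ∈ X.Hv, InT X Ty.K v) {n : Fin N}
    (hn : X.P.ty n = Ty.N ∨ X.P.ty n = Ty.B) (i s : Bool) :
    nsd (ndR G X d) (Sum.inl ⟨(n, i)⟩) s = qV X n s i := by
  ext v
  rw [mem_nsdR hn]
  exact ⟨fun h => h.2, fun h => ⟨qV_light hv hn h, h⟩⟩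

end nodes

section sit

variable {V : Type u} [Fintype V] {N J P q : ℕ} {πk C CD a ε ε2 C₀ Lam η : ℝ} {M : ℕ}
    {S : Fin J → Scl} {G : SimpleGraph V} {d : ℕ} {X : XD V N J} {D r : Cx.{u} → ℕ}
    {cl : Fin P → Cx.{u}} {H : Cx.{u} → SimpleGraph V} {Ex : Cx.{u} → Finset V}
    {m : Cx.{u} → NI.{u} N → ℕ} {cc : V → Option (Fin P)} {f : Fin P → V → V}
    {g z θk θ' a' cs t CC ρ1 MS : ℝ} {R : Fin q → V → V}

/-- the matchings of Rest: of the left over graph, all edges -/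
structure Rs (G : SimpleGraph V) (X : XD V N J) (f : Fin P → V → V) (R : Fin q → V → V) :
    Prop where
  mt : Mts (EL G X f) R
  co : ∀ v w, (EL G X f).Adj v w → ∃ b, R b v = w

theorem Sit.mch (h : Sit πk C CD a ε ε2 C₀ Lam η M S G d X D r cl H Ex m cc f g z θk θ' a' cs
    t CC ρ1 MS) (hR : Rs G X f R) : Mch f R := by
  refine ⟨h.rl.ff, h.rl.fd, hR.mt.NN, hR.mt.Nd, fun b b' v hb he => ?_⟩
  exact (hR.mt.NG b' v hb).2.1 b he

theorem Sit.cov (h : Sit πk C CD a ε ε2 C₀ Lam η M S G d X D r cl H Ex m cc f g z θk θ' a' cs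
    t CC ρ1 MS) (hR : Rs G X f R) (v w : V) (hvw : (xt G X).Adj v w) :
    (∃ b, f b v = w) ∨ ∃ b, R b v = w := by
  by_cases h1 : ∃ b, f b v = w
  · exact Or.inl h1
  · right
    push Not at h1
    refine hR.co v w ⟨hvw, h1, fun b hb => h1 b ?_⟩
    rw [← hb]
    exact h.rl.ff b w

/-- colours of the machine on a quarter -/
theorem Sit.qf (h : Sit πk C CD a ε ε2 C₀ Lam η M S G d X D r cl H Ex m cc f g z θk θ' a' cs
    t CC ρ1 MS) (hR : Rs G X f R) {n : Fin N} (hn : X.P.ty n = Ty.N ∨ X.P.ty n = Ty.B)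
    (s i : Bool) (b : Fin P) :
    ((qV X n s i).filter fun v => (b : ℕ) ∈ Ft (xt G X) (tcol f R) v) =
      ((nsd (ndx X (cl b)) ⟨(n, i)⟩ s).filter fun v => f b v ≠ v) := by
  ext v
  rw [mem_filter, mem_filter, (h.mch hR).mem_f (h.cov hR)]
  by_cases hκ : cl b = Cx.Q i
  · rw [nsd_emp hn i s hκ]
    simp only [notMem_empty, false_and, iff_false, not_and]
    intro hv hb _
    have h1 := h.ts.typ (cl b) v _ (h.rl.fG b v hb)
    have h2 := qV_light h.hv hn hv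
    rw [mem_qV] at hv
    rcases h1 with h1 | h1
    · exact h2 h1
    · apply h1
      unfold ndx
      rw [if_pos]
      right; right
      rw [hv.2.1, hv.2.2.2]
      exact ⟨hn, hκ⟩
  · rw [nsd_eq h.hv hn i s hκ]
    constructor
    · rintro ⟨h1, h2, -⟩
      exact ⟨h1, h2⟩
    · rintro ⟨h1, h2⟩
      refine ⟨h1, h2, Erx_xt h.hv (Or.inr ?_) (h.fE b v h2)⟩
      rw [mem_qV] at h1
      exact ⟨h1.1, by rw [h1.2.1]; exact hn⟩

/-- colours of Rest on a quarter -/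
theorem Sit.qR (h : Sit πk C CD a ε ε2 C₀ Lam η M S G d X D r cl H Ex m cc f g z θk θ' a' cs
    t CC ρ1 MS) (hR : Rs G X f R) {n : Fin N} (hn : X.P.ty n = Ty.N ∨ X.P.ty n = Ty.B)
    (s i : Bool) (b : Fin q) :
    ((qV X n s i).filter fun v => P + (b : ℕ) ∈ Ft (xt G X) (tcol f R) v) =
      ((nsd (ndR G X d) (Sum.inl ⟨(n, i)⟩) s).filter fun v => R b v ≠ v) := by
  ext v
  rw [mem_filter, mem_filter, (h.mch hR).mem_g (h.cov hR), nsdR_eq h.hv hn]
  constructor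
  · rintro ⟨h1, h2, -⟩
    exact ⟨h1, h2⟩
  · rintro ⟨h1, h2⟩
    exact ⟨h1, h2, (hR.mt.NG b v h2).1⟩

theorem Sit.sgf (h : Sit πk C CD a ε ε2 C₀ Lam η M S G d X D r cl H Ex m cc f g z θk θ' a' cs
    t CC ρ1 MS) (hR : Rs G X f R) {n : Fin N} (hn : X.P.ty n = Ty.N ∨ X.P.ty n = Ty.B)
    (i : Bool) (b : Fin P) :
    sgp (Fp (xt G X) X (tcol f R) n) (sdn X.P n) (ptn X.P n) i (b : ℕ) =
      sgn (ndx X (cl b)) f ⟨(n, i)⟩ b := by
  rw [sgp_eq, h.qf hR hn, h.qf hR hn]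
  rfl

theorem Sit.sgR (h : Sit πk C CD a ε ε2 C₀ Lam η M S G d X D r cl H Ex m cc f g z θk θ' a' cs
    t CC ρ1 MS) (hR : Rs G X f R) {n : Fin N} (hn : X.P.ty n = Ty.N ∨ X.P.ty n = Ty.B)
    (i : Bool) (b : Fin q) :
    sgp (Fp (xt G X) X (tcol f R) n) (sdn X.P n) (ptn X.P n) i (P + (b : ℕ)) =
      sgn (ndR G X d) R (Sum.inl ⟨(n, i)⟩) b := by
  rw [sgp_eq, h.qR hR hn, h.qR hR hn]
  rfl

end sit

end Pool.Agent.Work.MP_db9399_oxe
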