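import Pool.Agent.Work.MP_db9399_oxe_helper48.Nod

/-!
# MP_db9399, OXE, part 5 (helper48): signed sums at the pieces of type N and B
-/

set_option autoImplicit false

namespace Pool.Agent.Work.MP_db9399_oxe

open Finset Classical
open Pool.Agent.Work.MP_db9399_all (nb)
open Pool.Agent.Work.MP_db9399_lt (us)
open Pool.Agent.Work.MP_db9399_da hiding qV
open Pool.Agent.Work.MP_db9399_xf
open Pool.Agent.Work.MP_db9399_iv
open Pool.Agent.Work.MP_db9399_ox (sdg Rl sgP)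
open Pool.Agent.Work.MP_db9399_sg (nod nsd Mts sgn)

universe u

section gen

variable {V I : Type u} [Fintype V] [Fintype I] {P q : ℕ}

theorem mem_nod {nd : V → Option (I × Bool)} {i : I} {v : V} :
    v ∈ nod nd i ↔ ∃ s, nd v = some (i, s) := by simp [nod]

theorem sum_range_split {d : ℕ} (hq : P + q = d + 2) (F : ℕ → ℝ) :
    ∑ b ∈ range (d + 2), F b = ∑ b : Fin P, F b + ∑ b : Fin q, F (P + (b : ℕ)) := by
  rw [← hq, sum_range_add, Finset.sum_range, Finset.sum_range]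

theorem cnt_swap {K : ℕ} (R : Fin K → V → V) (A : Finset V) :
    ∑ b, ((A.filter fun v => R b v ≠ v).card : ℝ) =
      ∑ v ∈ A, ((univ.filter fun b => R b v ≠ v).card : ℝ) := by
  have h1 : ∀ b, ((A.filter fun v => R b v ≠ v).card : ℝ) =
      ∑ v ∈ A, if R b v ≠ v then (1 : ℝ) else 0 := by
    intro b
    rw [← sum_filter, sum_const, nsmul_eq_mul, mul_one]
  have h2 : ∀ v, ((univ.filter fun b => R b v ≠ v).card : ℝ) =
      ∑ b, if R b v ≠ v then (1 : ℝ) else 0 := by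
    intro v
    rw [← sum_filter, sum_const, nsmul_eq_mul, mul_one]
  simp_rw [h1, h2]
  exact sum_comm

theorem sum_sgn {K : ℕ} (R : Fin K → V → V) (nd : V → Option (I × Bool)) (i : I) :
    ∑ b, (sgn nd R i b : ℝ) =
      ∑ v ∈ nsd nd i false, ((univ.filter fun b => R b v ≠ v).card : ℝ) -
        ∑ v ∈ nsd nd i true, ((univ.filter fun b => R b v ≠ v).card : ℝ) := by
  rw [← cnt_swap, ← cnt_swap, ← sum_sub_distrib]
  refine sum_congr rfl fun b _ => ?_
  unfold sgn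
  push_cast
  ring

/-- sums over all colours, class by class -/
theorem sum_fib (cl : Fin P → Cx.{u}) (F : Fin P → ℝ) :
    ∑ b, F b = ∑ κ, ∑ b with cl b = κ, F b := by
  have := (Finset.sum_fiberwise (univ : Finset (Fin P)) cl F).symm
  convert this

/-- the classes are counted -/
def cxE : Cx.{u} ≃ (Fin 3 ⊕ (Bool ⊕ Unit)) where
  toFun := fun κ => match κ with
    | Cx.C j => Sum.inl j
    | Cx.Q i => Sum.inr (Sum.inl i)
    | Cx.R => Sum.inr (Sum.inr ())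
  invFun := fun x => match x with
    | Sum.inl j => Cx.C j
    | Sum.inr (Sum.inl i) => Cx.Q i
    | Sum.inr (Sum.inr _) => Cx.R
  left_inv := by rintro (_ | _ | _) <;> rfl
  right_inv := by rintro (_ | _ | _) <;> rfl

theorem card_Cx : Fintype.card Cx.{u} = 6 := by
  rw [Fintype.card_congr cxE]
  simp

end gen

section sit

variable {V : Type u} [Fintype V] {N J P q : ℕ} {πk C CD a ε ε2 C₀ Lam η : ℝ} {M : ℕ}
    {S : Fin J → Scl} {G : SimpleGraph V} {d : ℕ} {X : XD V N J} {D r : Cx.{u} → ℕ}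
    {cl : Fin P → Cx.{u}} {H : Cx.{u} → SimpleGraph V} {Ex : Cx.{u} → Finset V}
    {m : Cx.{u} → NI.{u} N → ℕ} {cc : V → Option (Fin P)} {f : Fin P → V → V}
    {g z θk θ' a' cs t CC ρ1 MS : ℝ} {R : Fin q → V → V}

/-- the error terms of `Rl` -/
noncomputable def E1 (H : Cx.{u} → SimpleGraph V) (X : XD V N J) (d : ℕ)
    (m : Cx.{u} → NI.{u} N → ℕ) (C₀ ε : ℝ) (κ : Cx.{u}) (i : NI.{u} N) : ℝ :=
  C₀ * ((∑ v ∈ nod (ndx X κ) i, ((nb (H κ) v).card : ℝ)) / d) + ε * m κ i + ε * d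

theorem E1_nn (hC : 0 < C₀) (hε : 0 < ε) (κ : Cx.{u}) (i : NI.{u} N) :
    0 ≤ E1 H X d m C₀ ε κ i := by
  unfold E1
  have : 0 ≤ ∑ v ∈ nod (ndx X κ) i, ((nb (H κ) v).card : ℝ) := sum_nonneg fun _ _ => Nat.cast_nonneg _
  positivity


end sit

section nodp

variable {V : Type u} [Fintype V] {N J : ℕ} {X : XD V N J}

/-- the node `(n, i)` is inside the piece `n` -/
theorem nod_pV {κ : Cx.{u}} {n : Fin N} {i : Bool} {v : V} (h : v ∈ nod (ndx X κ) ⟨(n, i)⟩) :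
    ¬ InO X v ∧ v ∈ pV X.P n ∧ ptx X v = i := by
  rw [mem_nod] at h
  obtain ⟨s, hs⟩ := h
  unfold ndx at hs
  split_ifs at hs with h1
  push Not at h1
  simp only [Option.some.injEq, Prod.mk.injEq, ULift.up.injEq] at hs
  exact ⟨h1.1, mem_pV.mpr ⟨fun h0 => h1.1 (Or.inl h0), hs.1.1⟩, hs.1.2⟩

theorem nod_two (κ : Cx.{u}) (n : Fin N) (F : V → ℝ) (hF : ∀ v, 0 ≤ F v) :
    ∑ i : Bool, ∑ v ∈ nod (ndx X κ) (⟨(n, i)⟩ : NI.{u} N), F v ≤
      ∑ v ∈ (pV X.P n).filter (fun v => ¬ InO X v), F v := by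
  rw [← sum_biUnion]
  · refine sum_le_sum_of_subset_of_nonneg ?_ fun v _ _ => hF v
    intro v hv
    simp only [mem_biUnion, mem_univ, true_and] at hv
    obtain ⟨i, hi⟩ := hv
    obtain ⟨h1, h2, -⟩ := nod_pV hi
    rw [mem_filter]
    exact ⟨h2, h1⟩
  · intro i _ i' _ hne
    rw [Function.onFun, Finset.disjoint_left]
    intro v hv hv'
    exact hne ((nod_pV hv).2.2.symm.trans (nod_pV hv').2.2)

end nodp

section sit

variable {V : Type u} [Fintype V] {N J P q : ℕ} {πk C CD a ε ε2 C₀ Lam η : ℝ} {M : ℕ}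
    {S : Fin J → Scl} {G : SimpleGraph V} {d : ℕ} {X : XD V N J} {D r : Cx.{u} → ℕ}
    {cl : Fin P → Cx.{u}} {H : Cx.{u} → SimpleGraph V} {Ex : Cx.{u} → Finset V}
    {m : Cx.{u} → NI.{u} N → ℕ} {cc : V → Option (Fin P)} {f : Fin P → V → V}
    {g z θk θ' a' cs t CC ρ1 MS : ℝ} {R : Fin q → V → V}

/-- The error terms at one piece, all classes and nodes. `W` bounds the sum of the real degrees. -/
theorem Sit.E1_sum (h : Sit πk C CD a ε ε2 C₀ Lam η M S G d X D r cl H Ex m cc f g z θk θ' a' cs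
    t CC ρ1 MS) (hC : 0 < C₀) (hε : 0 < ε) (n : Fin N) :
    ∑ κ, ∑ i : Bool, E1 H X d m C₀ ε κ ⟨(n, i)⟩ ≤
      C₀ * ((∑ v ∈ (pV X.P n).filter (fun v => ¬ InO X v), ((nb (Erx G X) v).card : ℝ)) / d) +
        ε * (52 * d + 48 * (pV X.P n).card) := by
  have hcard : Fintype.card Cx.{u} = 6 := card_Cx
  have h1 : ∑ κ, ∑ i : Bool, ∑ v ∈ nod (ndx X κ) (⟨(n, i)⟩ : NI.{u} N), ((nb (H κ) v).card : ℝ) ≤
      ∑ v ∈ (pV X.P n).filter (fun v => ¬ InO X v), ((nb (Erx G X) v).card : ℝ) := by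
    refine (sum_le_sum fun κ _ => nod_two κ n (fun v => ((nb (H κ) v).card : ℝ))
      fun v => Nat.cast_nonneg _).trans ?_
    rw [sum_comm]
    refine sum_le_sum fun v _ => ?_
    have := h.cls_card v
    have h0 : 0 ≤ noc G X H v := Nat.cast_nonneg _
    linarith
  have h2 : ∀ κ, ∑ i : Bool, ((m κ (⟨(n, i)⟩ : NI.{u} N) : ℕ) : ℝ) ≤
      40 * D κ + 8 * (pV X.P n).card := by
    intro κ
    have h3 : ∑ i : Bool, ((nod (ndx X κ) (⟨(n, i)⟩ : NI.{u} N)).card : ℝ) ≤ (pV X.P n).card := by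
      have := nod_two (X := X) κ n (fun _ => (1 : ℝ)) (fun _ => zero_le_one)
      simp only [sum_const, nsmul_eq_mul, mul_one] at this
      refine this.trans ?_
      exact_mod_cast card_le_card (filter_subset _ _)
    have h4 := sum_le_sum fun i (_ : i ∈ (univ : Finset Bool)) => h.hm κ (⟨(n, i)⟩ : NI.{u} N)
    rw [sum_add_distrib, ← mul_sum, sum_const] at h4
    simp only [card_univ, Fintype.card_bool, nsmul_eq_mul] at h4
    push_cast at h4
    have h3' := mul_le_mul_of_nonneg_left h3 (by norm_num : (0 : ℝ) ≤ 8)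
    rw [mul_sum] at h3'
    linarith
  have h5 : ∑ κ, ∑ i : Bool, ((m κ (⟨(n, i)⟩ : NI.{u} N) : ℕ) : ℝ) ≤
      40 * d + 48 * (pV X.P n).card := by
    refine (sum_le_sum fun κ _ => h2 κ).trans ?_
    rw [sum_add_distrib, ← mul_sum, sum_const, card_univ, hcard]
    have : ∑ κ, (D κ : ℝ) = d := by exact_mod_cast h.nm.sum
    rw [this, nsmul_eq_mul]
    push_cast
    linarith
  have h6 : ∑ κ, ∑ i : Bool, E1 H X d m C₀ ε κ ⟨(n, i)⟩ =
      C₀ * ((∑ κ, ∑ i : Bool, ∑ v ∈ nod (ndx X κ) (⟨(n, i)⟩ : NI.{u} N),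
        ((nb (H κ) v).card : ℝ)) / d) + ε * (∑ κ, ∑ i : Bool, ((m κ (⟨(n, i)⟩ : NI.{u} N) : ℕ) : ℝ)) +
        12 * (ε * d) := by
    unfold E1
    simp_rw [sum_add_distrib, ← mul_sum, ← sum_div, sum_const]
    rw [card_univ, hcard, card_univ, Fintype.card_bool]
    simp only [nsmul_eq_mul]
    push_cast
    ring
  rw [h6]
  have h7 : C₀ * ((∑ κ, ∑ i : Bool, ∑ v ∈ nod (ndx X κ) (⟨(n, i)⟩ : NI.{u} N),
      ((nb (H κ) v).card : ℝ)) / d) ≤ C₀ * ((∑ v ∈ (pV X.P n).filter (fun v => ¬ InO X v),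
        ((nb (Erx G X) v).card : ℝ)) / d) :=
    mul_le_mul_of_nonneg_left (div_le_div_of_nonneg_right h1 (Nat.cast_nonneg _)) hC.le
  have h8 := mul_le_mul_of_nonneg_left h5 hε.le
  nlinarith

/-- colours of the machine on a quarter, without `Ft` -/
theorem Sit.qf' (h : Sit πk C CD a ε ε2 C₀ Lam η M S G d X D r cl H Ex m cc f g z θk θ' a' cs
    t CC ρ1 MS) {n : Fin N} (hn : X.P.ty n = Ty.N ∨ X.P.ty n = Ty.B) (s i : Bool) (b : Fin P) :
    ((qV X n s i).filter fun v => f b v ≠ v) =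
      ((nsd (ndx X (cl b)) ⟨(n, i)⟩ s).filter fun v => f b v ≠ v) := by
  ext v
  rw [mem_filter, mem_filter]
  by_cases hκ : cl b = Cx.Q i
  · rw [nsd_emp hn i s hκ]
    simp only [notMem_empty, false_and, iff_false, not_and]
    intro hv hb
    have h1 := h.ts.typ (cl b) v _ (h.rl.fG b v hb)
    have h2 := qV_light h.hv hn hv
    rw [mem_qV] at hv
    rcases h1 with h1 | h1
    · exact h2 h1
    · apply h1
      unfold ndx
      rw [if_pos]
      right; right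
      rw [hv.2.1, hv.2.2.2]
      exact ⟨hn, hκ⟩
  · rw [nsd_eq h.hv hn i s hκ]

theorem Sit.Rcard (hR : Rs G X f R) (v : V) :
    (univ.filter fun b => R b v ≠ v).card = (nb (EL G X f) v).card := by
  have h1 := card_match R hR.mt.Nd hR.mt.NG v univ
  rw [← h1]
  congr 1
  ext w
  simp only [mem_filter, mem_univ, true_and, mem_nb]
  exact ⟨fun hw => hw.1, fun hw => ⟨hw, hR.co v w hw⟩⟩

/-- the signed sum of Rest at a node = signed thin degrees minus the signed sum of the machine -/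
theorem Sit.sR (h : Sit πk C CD a ε ε2 C₀ Lam η M S G d X D r cl H Ex m cc f g z θk θ' a' cs
    t CC ρ1 MS) (hR : Rs G X f R) {n : Fin N} (hn : X.P.ty n = Ty.N ∨ X.P.ty n = Ty.B) (i : Bool) :
    ∑ b, (sgn (ndR G X d) R (Sum.inl ⟨(n, i)⟩) b : ℝ) =
      (∑ v ∈ qV X n false i, ((nb (thin G X.P) v).card : ℝ) -
        ∑ v ∈ qV X n true i, ((nb (thin G X.P) v).card : ℝ)) -
      ∑ κ, ∑ b with cl b = κ, (sgn (ndx X κ) f ⟨(n, i)⟩ b : ℝ) := by
  have h1 : ∀ s, ∑ v ∈ qV X n s i, ((univ.filter fun b => R b v ≠ v).card : ℝ) =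
      ∑ v ∈ qV X n s i, ((nb (thin G X.P) v).card : ℝ) -
        ∑ b, (((nsd (ndx X (cl b)) ⟨(n, i)⟩ s).filter fun v => f b v ≠ v).card : ℝ) := by
    intro s
    have h2 : ∑ b, (((nsd (ndx X (cl b)) ⟨(n, i)⟩ s).filter fun v => f b v ≠ v).card : ℝ) =
        ∑ v ∈ qV X n s i, ((univ.filter fun b => f b v ≠ v).card : ℝ) := by
      rw [← cnt_swap]
      exact sum_congr rfl fun b _ => by rw [h.qf' hn]
    rw [h2, ← sum_sub_distrib]
    refine sum_congr rfl fun v hv => ?_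
    have h3 := h.unc_card v
    have hl : Fl X v := by
      rw [mem_qV] at hv
      exact Or.inr ⟨hv.1, by rw [hv.2.1]; exact hn⟩
    have hK : ¬ Lk X v := by
      rintro ⟨⟨h0, hK⟩, -⟩
      rcases hl with hl | ⟨-, hl⟩
      · exact h0 hl
      · rw [hK] at hl
        rcases hl with hl | hl <;> cases hl
    rw [← nb_xt_Fl h.hv hl, nb_xt_thin hK, ← EL_unc_Fl h.hv f h.rl.ff hl] at h3
    rw [Sit.Rcard hR]
    have : ((nb (EL G X f) v).card : ℝ) + ((univ.filter fun b => f b v ≠ v).card : ℝ) =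
        ((nb (thin G X.P) v).card : ℝ) := by exact_mod_cast h3
    linarith
  rw [sum_sgn, nsdR_eq h.hv hn, nsdR_eq h.hv hn, h1, h1]
  have h4 : ∑ κ, ∑ b with cl b = κ, (sgn (ndx X κ) f ⟨(n, i)⟩ b : ℝ) =
      ∑ b, (((nsd (ndx X (cl b)) ⟨(n, i)⟩ false).filter fun v => f b v ≠ v).card : ℝ) -
        ∑ b, (((nsd (ndx X (cl b)) ⟨(n, i)⟩ true).filter fun v => f b v ≠ v).card : ℝ) := by
    rw [← sum_sub_distrib, sum_fib cl]
    refine sum_congr rfl fun κ _ => sum_congr rfl fun b hb => ?_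
    rw [mem_filter] at hb
    unfold sgn
    rw [hb.2]
    push_cast
    ring
  rw [h4]
  ring

end sit

end Pool.Agent.Work.MP_db9399_oxe
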