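import Pool.Agent.Work.MP_db9399_oxe_helper48.Num

/-!
# MP_db9399, OXE, part 6 (helper48): excess, needs, negative numbers, sup at the pieces N and B
-/

set_option autoImplicit false

namespace Pool.Agent.Work.MP_db9399_oxe

open Finset Classical
open Pool.Agent.Work.MP_db9399_all (nb)
open Pool.Agent.Work.MP_db9399_lt (us)
open Pool.Agent.Work.MP_db9399_da hiding qV
open Pool.Agent.Work.MP_db9399_xf
open Pool.Agent.Work.MP_db9399_iv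
open Pool.Agent.Work.MP_db9399_ox (sdg Rl sgP)
open Pool.Agent.Work.MP_db9399_sg (nod nsd Mts sgn)

universe u

/-- numerical bounds -/
structure Bd {J : ℕ} (δ C₀ ε ε2 Lam : ℝ) (S : Fin J → Scl) (d : ℕ) (D r : Cx.{u} → ℕ) : Prop where
  hd : 1 ≤ d
  δ0 : 0 < δ
  δ1 : δ ≤ 1 / 100
  C0 : 0 < C₀
  e0 : 0 < ε
  e1 : 100 * ε ≤ δ
  e2 : 0 < ε2
  L0 : 0 < Lam
  z : ∀ s, (S s).ζ ≤ δ
  ez : ∀ s, (S s).ε ≤ δ
  th0 : ∀ s, 0 ≤ (S s).θ
  th : ∀ s, C₀ * ((S s).θ / Lam) ≤ δ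
  Dr : ∀ κ, 2 * r κ ≤ D κ
  D1 : ∀ κ, 1 ≤ D κ

theorem sum_prx {N : ℕ} (n : Fin N) (F : NI.{u} N → ℝ) :
    ∑ i with prx i = ⟨n⟩, F i = ∑ l : Bool, F ⟨(n, l)⟩ := by
  have h1 : (univ.filter fun i : NI.{u} N => prx i = ⟨n⟩) =
      (univ : Finset Bool).image fun l => (⟨(n, l)⟩ : NI.{u} N) := by
    ext i
    simp only [mem_filter, mem_univ, true_and, mem_image, prx, ULift.up.injEq]
    constructor
    · intro h
      exact ⟨i.down.2, by rw [← h]⟩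
    · rintro ⟨l, rfl⟩
      rfl
  rw [h1, sum_image]
  intro l _ l' _ h
  simpa using h

section sit

variable {V : Type u} [Fintype V] {N J P q : ℕ} {πk C CD a ε ε2 C₀ Lam η δ : ℝ} {M : ℕ}
    {S : Fin J → Scl} {G : SimpleGraph V} {d : ℕ} {X : XD V N J} {D r : Cx.{u} → ℕ}
    {cl : Fin P → Cx.{u}} {H : Cx.{u} → SimpleGraph V} {Ex : Cx.{u} → Finset V}
    {m : Cx.{u} → NI.{u} N → ℕ} {cc : V → Option (Fin P)} {f : Fin P → V → V}
    {g z θk θ' a' cs t CC ρ1 MS : ℝ} {R : Fin q → V → V}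

theorem Sit.plo (h : Sit πk C CD a ε ε2 C₀ Lam η M S G d X D r cl H Ex m cc f g z θk θ' a' cs
    t CC ρ1 MS) (B : Bd δ C₀ ε ε2 Lam S d D r) {n : Fin N}
    (hn : X.P.ty n = Ty.N ∨ X.P.ty n = Ty.B) : (d : ℝ) ≤ ((pV X.P n).card : ℝ) := by
  refine pV_lo h.px h.g0 hn ?_
  have := B.z (X.sc n)
  have := B.δ1
  show (S (X.sc n)).ζ ≤ 1 / 2
  linarith

/-- sum of the real degrees on a piece of type N, B -/
theorem Sit.thE (h : Sit πk C CD a ε ε2 C₀ Lam η M S G d X D r cl H Ex m cc f g z θk θ' a' cs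
    t CC ρ1 MS) {n : Fin N} (hn : X.P.ty n = Ty.N ∨ X.P.ty n = Ty.B) :
    ∑ v ∈ (pV X.P n).filter (fun v => ¬ InO X v), ((nb (Erx G X) v).card : ℝ) ≤
      (S (X.sc n)).θ / Lam * (d : ℝ) ^ 2 := by
  refine le_trans ?_ (h.px.ths n hn)
  refine (sum_le_sum_of_subset_of_nonneg (filter_subset _ _) fun v _ _ => Nat.cast_nonneg _).trans ?_
  refine sum_le_sum fun v hv => ?_
  rw [mem_pV] at hv
  have hl : Fl X v := Or.inr ⟨hv.1, by rw [hv.2]; exact hn⟩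
  rw [← nb_xt_Fl h.hv hl]
  exact Nat.cast_le.mpr (card_le_card fun w hw => by
    rw [mem_nb] at hw ⊢
    exact hw.1)

theorem Sit.Etot (h : Sit πk C CD a ε ε2 C₀ Lam η M S G d X D r cl H Ex m cc f g z θk θ' a' cs
    t CC ρ1 MS) (B : Bd δ C₀ ε ε2 Lam S d D r) {n : Fin N}
    (hn : X.P.ty n = Ty.N ∨ X.P.ty n = Ty.B) :
    ∑ κ, ∑ i : Bool, E1 H X d m C₀ ε κ ⟨(n, i)⟩ ≤ 2 * δ * (pV X.P n).card := by
  refine (h.E1_sum B.C0 B.e0 n).trans ?_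
  have h1 := h.thE hn
  have h2 := h.plo B hn
  have hd : (1 : ℝ) ≤ d := by exact_mod_cast B.hd
  have h3 : C₀ * ((∑ v ∈ (pV X.P n).filter (fun v => ¬ InO X v), ((nb (Erx G X) v).card : ℝ)) / d) ≤
      δ * (pV X.P n).card := by
    have h4 : (∑ v ∈ (pV X.P n).filter (fun v => ¬ InO X v), ((nb (Erx G X) v).card : ℝ)) / d ≤
        (S (X.sc n)).θ / Lam * d := by
      rw [div_le_iff₀ (by linarith)]
      nlinarith
    have h5 := B.th (X.sc n)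
    calc C₀ * ((∑ v ∈ (pV X.P n).filter (fun v => ¬ InO X v), ((nb (Erx G X) v).card : ℝ)) / d)
        ≤ C₀ * ((S (X.sc n)).θ / Lam * d) := mul_le_mul_of_nonneg_left h4 B.C0.le
      _ = C₀ * ((S (X.sc n)).θ / Lam) * d := by ring
      _ ≤ δ * d := mul_le_mul_of_nonneg_right h5 (by linarith)
      _ ≤ δ * (pV X.P n).card := mul_le_mul_of_nonneg_left h2 B.δ0.le
  have h6 : ε * (52 * d + 48 * (pV X.P n).card) ≤ δ * (pV X.P n).card := by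
    have : 52 * (d : ℝ) + 48 * (pV X.P n).card ≤ 100 * (pV X.P n).card := by linarith
    have h7 := mul_le_mul_of_nonneg_left this B.e0.le
    have h8 := mul_le_mul_of_nonneg_right B.e1 (by linarith : (0 : ℝ) ≤ (pV X.P n).card)
    nlinarith
  linarith

theorem Sit.Eκi (h : Sit πk C CD a ε ε2 C₀ Lam η M S G d X D r cl H Ex m cc f g z θk θ' a' cs
    t CC ρ1 MS) (B : Bd δ C₀ ε ε2 Lam S d D r) {n : Fin N}
    (hn : X.P.ty n = Ty.N ∨ X.P.ty n = Ty.B) (i : Bool) :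
    ∑ κ, E1 H X d m C₀ ε κ ⟨(n, i)⟩ ≤ 2 * δ * (pV X.P n).card := by
  refine le_trans (sum_le_sum fun κ _ => ?_) (h.Etot B hn)
  exact single_le_sum (f := fun i : Bool => E1 H X d m C₀ ε κ ⟨(n, i)⟩)
    (fun i _ => E1_nn B.C0 B.e0 κ _) (mem_univ i)

theorem Sit.Eκ1 (h : Sit πk C CD a ε ε2 C₀ Lam η M S G d X D r cl H Ex m cc f g z θk θ' a' cs
    t CC ρ1 MS) (B : Bd δ C₀ ε ε2 Lam S d D r) {n : Fin N}
    (hn : X.P.ty n = Ty.N ∨ X.P.ty n = Ty.B) (κ : Cx.{u}) (i : Bool) :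
    E1 H X d m C₀ ε κ ⟨(n, i)⟩ ≤ 2 * δ * (pV X.P n).card := by
  refine le_trans ?_ (h.Eκi B hn i)
  exact single_le_sum (f := fun κ => E1 H X d m C₀ ε κ (⟨(n, i)⟩ : NI.{u} N))
    (fun κ _ => E1_nn B.C0 B.e0 κ _) (mem_univ κ)

/-- signed sum of one class -/
theorem Sit.sgκ (h : Sit πk C CD a ε ε2 C₀ Lam η M S G d X D r cl H Ex m cc f g z θk θ' a' cs
    t CC ρ1 MS) (κ : Cx.{u}) (i : NI.{u} N) :
    |∑ b with cl b = κ, (sgn (ndx X κ) f i b : ℝ)| ≤ ρ1 * D κ + E1 H X d m C₀ ε κ i := by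
  have h1 := h.rl.sm κ i
  have h2 := h.ts.bal κ i
  unfold E1
  have := abs_sub_abs_le_abs_sub (∑ b with cl b = κ, (sgn (ndx X κ) f i b : ℝ))
    (sdg (H κ) (ndx X κ) i)
  linarith

/-- signed sum of Rest -/
theorem Sit.sRb (h : Sit πk C CD a ε ε2 C₀ Lam η M S G d X D r cl H Ex m cc f g z θk θ' a' cs
    t CC ρ1 MS) (B : Bd δ C₀ ε ε2 Lam S d D r) (hR : Rs G X f R) {n : Fin N}
    (hn : X.P.ty n = Ty.N ∨ X.P.ty n = Ty.B) (i : Bool) :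
    |∑ b, (sgn (ndR G X d) R (Sum.inl ⟨(n, i)⟩) b : ℝ)| ≤ 4 * δ * (pV X.P n).card := by
  rw [h.sR hR hn i]
  have h1 : |∑ v ∈ qV X n false i, ((nb (thin G X.P) v).card : ℝ) -
      ∑ v ∈ qV X n true i, ((nb (thin G X.P) v).card : ℝ)| ≤ (S (X.sc n)).ε * d :=
    h.px.thq n hn i
  have h2 : |∑ κ, ∑ b with cl b = κ, (sgn (ndx X κ) f ⟨(n, i)⟩ b : ℝ)| ≤
      ρ1 * d + ∑ κ, E1 H X d m C₀ ε κ ⟨(n, i)⟩ := by
    refine (abs_sum_le_sum_abs _ _).trans ((sum_le_sum fun κ _ => h.sgκ κ ⟨(n, i)⟩).trans ?_)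
    rw [sum_add_distrib, ← mul_sum]
    have : ∑ κ, (D κ : ℝ) = d := by exact_mod_cast h.nm.sum
    rw [this]
  have h3 := h.Eκi B hn i
  have h4 := B.ez (X.sc n)
  have h5 := h.plo B hn
  have hd : (1 : ℝ) ≤ d := by exact_mod_cast B.hd
  have h6 : ρ1 ≤ δ := by
    have := h.r1
    have := B.e1
    have := B.e0
    linarith
  have h7 : (S (X.sc n)).ε * d ≤ δ * (pV X.P n).card :=
    (mul_le_mul_of_nonneg_right h4 (by linarith)).trans (mul_le_mul_of_nonneg_left h5 B.δ0.le)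
  have h8 : ρ1 * d ≤ δ * (pV X.P n).card :=
    (mul_le_mul_of_nonneg_right h6 (by linarith)).trans (mul_le_mul_of_nonneg_left h5 B.δ0.le)
  refine (abs_sub _ _).trans ?_
  linarith

/-- `mu` is small -/
theorem Sit.mu (h : Sit πk C CD a ε ε2 C₀ Lam η M S G d X D r cl H Ex m cc f g z θk θ' a' cs
    t CC ρ1 MS) (B : Bd δ C₀ ε ε2 Lam S d D r) (κ : Cx.{u}) (i : NI.{u} N) :
    |sdg (H κ) (ndx X κ) i / ((D κ : ℝ) - r κ)| ≤ 1 / 10 ∧ 0 < (D κ : ℝ) - r κ ∧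
      |sdg (H κ) (ndx X κ) i / ((D κ : ℝ) - r κ)| * ((D κ : ℝ) - r κ) ≤ ρ1 * D κ := by
  have h1 := h.ts.bal κ i
  have h2 : 2 * (r κ : ℝ) ≤ D κ := by exact_mod_cast B.Dr κ
  have h3 : (1 : ℝ) ≤ D κ := by exact_mod_cast B.D1 κ
  have h4 : 0 < (D κ : ℝ) - r κ := by linarith
  have h5 : |sdg (H κ) (ndx X κ) i / ((D κ : ℝ) - r κ)| * ((D κ : ℝ) - r κ) ≤ ρ1 * D κ := by
    rw [abs_div, abs_of_pos h4, div_mul_cancel₀ _ h4.ne']
    exact h1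
  refine ⟨?_, h4, h5⟩
  have h6 : ρ1 ≤ 1 / 20 := by
    have := h.r1
    have := B.e1
    have := B.e0
    have := B.δ1
    linarith
  have h7 : ρ1 * D κ ≤ 1 / 10 * ((D κ : ℝ) - r κ) := by
    have := mul_le_mul_of_nonneg_right h6 (by linarith : (0 : ℝ) ≤ D κ)
    linarith
  exact le_of_mul_le_mul_right (h5.trans h7) h4

/-- number of the colours of a class -/
theorem Sit.ncl (h : Sit πk C CD a ε ε2 C₀ Lam η M S G d X D r cl H Ex m cc f g z θk θ' a' cs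
    t CC ρ1 MS) (κ : Cx.{u}) :
    ((univ.filter fun b => cl b = κ).card : ℝ) = (D κ : ℝ) - r κ := by
  have := h.nm.cr κ
  have h2 : ((univ.filter fun b => cl b = κ).card : ℝ) + r κ = D κ := by exact_mod_cast this
  linarith

/-- EXC -/
theorem Sit.exc (h : Sit πk C CD a ε ε2 C₀ Lam η M S G d X D r cl H Ex m cc f g z θk θ' a' cs
    t CC ρ1 MS) (B : Bd δ C₀ ε ε2 Lam S d D r) (hR : Rs G X f R) (hq : P + q = d + 2)
    (hE : ∀ i b, |(sgn (ndR G X d) R i b : ℝ) - (∑ b', (sgn (ndR G X d) R i b' : ℝ)) / q| ≤ 2)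
    {n : Fin N} (hn : X.P.ty n = Ty.N ∨ X.P.ty n = Ty.B) (i : Bool) :
    ∑ b ∈ range (d + 2),
      max (|((sgp (Fp (xt G X) X (tcol f R) n) (sdn X.P n) (ptn X.P n) i b : ℤ) : ℝ)| - 4) 0 ≤
      6 * δ * (pV X.P n).card := by
  rw [sum_range_split hq]
  have h1 : ∑ b : Fin P, max (|((sgp (Fp (xt G X) X (tcol f R) n) (sdn X.P n) (ptn X.P n) i
      (b : ℕ) : ℤ) : ℝ)| - 4) 0 ≤ 2 * δ * (pV X.P n).card := by
    rw [sum_fib cl]
    refine le_trans (sum_le_sum fun κ _ => ?_) (h.Eκi B hn i)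
    refine le_trans (sum_le_sum fun b hb => ?_) (h.rl.exc κ ⟨(n, i)⟩)
    rw [mem_filter] at hb
    rw [h.sgf hR hn, hb.2]
    refine max_le_max ?_ le_rfl
    have h2 := (h.mu B κ ⟨(n, i)⟩).1
    have h3 := abs_sub_abs_le_abs_sub (sgn (ndx X κ) f ⟨(n, i)⟩ b : ℝ)
      (sdg (H κ) (ndx X κ) ⟨(n, i)⟩ / ((D κ : ℝ) - r κ))
    linarith
  have h2 : ∑ b : Fin q, max (|((sgp (Fp (xt G X) X (tcol f R) n) (sdn X.P n) (ptn X.P n) i
      (P + (b : ℕ)) : ℤ) : ℝ)| - 4) 0 ≤ 4 * δ * (pV X.P n).card := by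
    set s : ℝ := ∑ b, (sgn (ndR G X d) R (Sum.inl ⟨(n, i)⟩) b : ℝ) with hs
    have h3 : ∀ b : Fin q, max (|((sgp (Fp (xt G X) X (tcol f R) n) (sdn X.P n) (ptn X.P n) i
        (P + (b : ℕ)) : ℤ) : ℝ)| - 4) 0 ≤ |s / q| := by
      intro b
      rw [h.sgR hR hn]
      have h4 := hE (Sum.inl ⟨(n, i)⟩) b
      rw [← hs] at h4
      have h5 := abs_sub_abs_le_abs_sub (sgn (ndR G X d) R (Sum.inl ⟨(n, i)⟩) b : ℝ) (s / q)
      refine max_le ?_ (abs_nonneg _)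
      linarith
    refine (sum_le_sum fun b _ => h3 b).trans ?_
    rw [sum_const, card_univ, Fintype.card_fin, nsmul_eq_mul, abs_div]
    have h6 := h.sRb B hR hn i
    rw [← hs] at h6
    rcases Nat.eq_zero_or_pos q with h0 | h0
    · subst h0
      have : 0 ≤ 4 * δ * ((pV X.P n).card : ℝ) := (abs_nonneg _).trans h6
      simpa using this
    · have : (0 : ℝ) < q := by exact_mod_cast h0
      rw [abs_of_pos this, mul_div_cancel₀ _ this.ne']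
      exact h6
  linarith

end sit

end Pool.Agent.Work.MP_db9399_oxe
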