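import Pool.Agent.Work.MP_db9399_oxe_helper48.Nux

/-!
# MP_db9399, OXE, part 7 (helper48): needs, negative numbers, sup, loads at the pieces N and B
-/

set_option autoImplicit false

namespace Pool.Agent.Work.MP_db9399_oxe

open Finset Classical
open Pool.Agent.Work.MP_db9399_all (nb)
open Pool.Agent.Work.MP_db9399_lt (us)
open Pool.Agent.Work.MP_db9399_da hiding qV
open Pool.Agent.Work.MP_db9399_xf
open Pool.Agent.Work.MP_db9399_iv
open Pool.Agent.Work.MP_db9399_ox (sdg Rl sgP)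
open Pool.Agent.Work.MP_db9399_sg (nod nsd Mts sgn)

universe u

theorem sum_prx' {N : ℕ} (n : Fin N) (F : NI.{u} N → ℝ) :
    ∑ i ∈ @Finset.filter (NI.{u} N) (fun i => prx i = ⟨n⟩)
      (fun a => Classical.propDecidable (prx a = ⟨n⟩)) univ, F i = ∑ l : Bool, F ⟨(n, l)⟩ := by
  convert sum_prx n F

section sit

variable {V : Type u} [Fintype V] {N J P q : ℕ} {πk C CD a ε ε2 C₀ Lam η δ : ℝ} {M : ℕ}
    {S : Fin J → Scl} {G : SimpleGraph V} {d : ℕ} {X : XD V N J} {D r : Cx.{u} → ℕ}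
    {cl : Fin P → Cx.{u}} {H : Cx.{u} → SimpleGraph V} {Ex : Cx.{u} → Finset V}
    {m : Cx.{u} → NI.{u} N → ℕ} {cc : V → Option (Fin P)} {f : Fin P → V → V}
    {g z θk θ' a' cs t CC ρ1 MS : ℝ} {R : Fin q → V → V}

/-- absolute values on the nodes of Rest -/
theorem Sit.absR (h : Sit πk C CD a ε ε2 C₀ Lam η M S G d X D r cl H Ex m cc f g z θk θ' a' cs
    t CC ρ1 MS) (B : Bd δ C₀ ε ε2 Lam S d D r) (hR : Rs G X f R)
    (hE : ∀ i b, |(sgn (ndR G X d) R i b : ℝ) - (∑ b', (sgn (ndR G X d) R i b' : ℝ)) / q| ≤ 2)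
    {n : Fin N} (hn : X.P.ty n = Ty.N ∨ X.P.ty n = Ty.B) (i : Bool) :
    ∑ b, |(sgn (ndR G X d) R (Sum.inl ⟨(n, i)⟩) b : ℝ)| ≤ 2 * q + 4 * δ * (pV X.P n).card := by
  set s : ℝ := ∑ b, (sgn (ndR G X d) R (Sum.inl ⟨(n, i)⟩) b : ℝ) with hs
  have h6 := h.sRb B hR hn i
  rw [← hs] at h6
  have h3 : ∀ b : Fin q, |(sgn (ndR G X d) R (Sum.inl ⟨(n, i)⟩) b : ℝ)| ≤ 2 + |s / q| := by
    intro b
    have h4 := hE (Sum.inl ⟨(n, i)⟩) b
    rw [← hs] at h4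
    have h5 := abs_sub_abs_le_abs_sub (sgn (ndR G X d) R (Sum.inl ⟨(n, i)⟩) b : ℝ) (s / q)
    linarith
  refine (sum_le_sum fun b _ => h3 b).trans ?_
  rw [sum_const, card_univ, Fintype.card_fin, nsmul_eq_mul, abs_div, mul_add]
  rcases Nat.eq_zero_or_pos q with h0 | h0
  · subst h0
    have : 0 ≤ 4 * δ * ((pV X.P n).card : ℝ) := (abs_nonneg _).trans h6
    simpa using this
  · have : (0 : ℝ) < q := by exact_mod_cast h0
    rw [abs_of_pos this, mul_div_cancel₀ _ this.ne']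
    linarith

/-- the machine: sum of the absolute values at a piece -/
theorem Sit.absP (h : Sit πk C CD a ε ε2 C₀ Lam η M S G d X D r cl H Ex m cc f g z θk θ' a' cs
    t CC ρ1 MS) (B : Bd δ C₀ ε ε2 Lam S d D r) {n : Fin N}
    (hn : X.P.ty n = Ty.N ∨ X.P.ty n = Ty.B) :
    ∑ κ, ∑ b with cl b = κ, |∑ l : Bool, (sgn (ndx X κ) f ⟨(n, l)⟩ b : ℝ)| ≤
      d + 3 * δ * (pV X.P n).card := by
  have h1 : ∀ κ, ∑ b with cl b = κ, |∑ l : Bool, (sgn (ndx X κ) f ⟨(n, l)⟩ b : ℝ)| ≤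
      (1 + ε) * ((D κ : ℝ) - r κ) + ε * d + ∑ l : Bool, E1 H X d m C₀ ε κ ⟨(n, l)⟩ +
        2 * ρ1 * D κ := by
    intro κ
    have h2 := h.rl.winP κ ⟨n⟩
    rw [sum_prx' n (fun i => sdg (H κ) (ndx X κ) i),
      sum_prx' n (fun i => C₀ * ((∑ v ∈ nod (ndx X κ) i, ((nb (H κ) v).card : ℝ)) / d) +
        ε * m κ i + ε * d)] at h2
    obtain ⟨-, h4, -⟩ := h.mu B κ (⟨(n, true)⟩ : NI.{u} N)
    set μ : ℝ := (∑ l : Bool, sdg (H κ) (ndx X κ) (⟨(n, l)⟩ : NI.{u} N)) / ((D κ : ℝ) - r κ) with hμ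
    have h5 : |μ| * ((D κ : ℝ) - r κ) ≤ 2 * ρ1 * D κ := by
      rw [hμ, abs_div, abs_of_pos h4, div_mul_cancel₀ _ h4.ne']
      refine (abs_sum_le_sum_abs _ _).trans ((sum_le_sum fun l _ => h.ts.bal κ _).trans ?_)
      rw [sum_const, card_univ, Fintype.card_bool, nsmul_eq_mul]
      push_cast
      linarith
    have h6 : ∀ b, cl b = κ → |∑ l : Bool, (sgn (ndx X κ) f ⟨(n, l)⟩ b : ℝ)| ≤
        |sgP (ndx X κ) prx f ⟨n⟩ b - μ| + |μ| := by
      intro b _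
      unfold sgP
      rw [sum_prx' n (fun i => (sgn (ndx X κ) f i b : ℝ))]
      have := abs_sub_abs_le_abs_sub (∑ l : Bool, (sgn (ndx X κ) f ⟨(n, l)⟩ b : ℝ)) μ
      linarith
    refine (sum_le_sum fun b hb => h6 b (mem_filter.mp hb).2).trans ?_
    rw [sum_add_distrib, sum_const, nsmul_eq_mul, h.ncl κ]
    unfold E1
    linarith
  refine (sum_le_sum fun κ _ => h1 κ).trans ?_
  have h2 : ∑ κ, (D κ : ℝ) = d := by exact_mod_cast h.nm.sum
  have h2' : ∑ κ, 2 * ρ1 * (D κ : ℝ) = 2 * ρ1 * d := by rw [← mul_sum, h2]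
  rw [sum_add_distrib, sum_add_distrib, sum_add_distrib, h2', ← mul_sum, sum_const,
    card_univ, card_Cx, nsmul_eq_mul]
  have h3 : ∑ κ, ((D κ : ℝ) - r κ) ≤ d := by
    rw [sum_sub_distrib, h2]
    have : 0 ≤ ∑ κ, (r κ : ℝ) := sum_nonneg fun _ _ => Nat.cast_nonneg _
    linarith
  have h4 := h.Etot B hn
  have h5 := h.plo B hn
  have h6 := h.r1
  have h7 := B.e1
  have h8 := B.e0
  have hd : (1 : ℝ) ≤ d := by exact_mod_cast B.hd
  have h9 : (1 + ε) * ∑ κ, ((D κ : ℝ) - r κ) ≤ (1 + ε) * d :=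
    mul_le_mul_of_nonneg_left h3 (by linarith)
  have h10 : 2 * ρ1 * d ≤ 2 * ε * d := mul_le_mul_of_nonneg_right (by linarith) (by linarith)
  have h11 : 9 * ε * d ≤ δ * (pV X.P n).card := by
    have h12 : 9 * ε * d ≤ δ * d := mul_le_mul_of_nonneg_right (by linarith) (by linarith)
    exact h12.trans (mul_le_mul_of_nonneg_left h5 B.δ0.le)
  push_cast
  linarith

/-- TOT -/
theorem Sit.tot (h : Sit πk C CD a ε ε2 C₀ Lam η M S G d X D r cl H Ex m cc f g z θk θ' a' cs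
    t CC ρ1 MS) (B : Bd δ C₀ ε ε2 Lam S d D r) (hR : Rs G X f R) (hq : P + q = d + 2)
    (hqd : (q : ℝ) ≤ δ * d)
    (hE : ∀ i b, |(sgn (ndR G X d) R i b : ℝ) - (∑ b', (sgn (ndR G X d) R i b' : ℝ)) / q| ≤ 2)
    {n : Fin N} (hn : X.P.ty n = Ty.B) (β : Bool) :
    ((∑ b ∈ range (d + 2), need (Fp (xt G X) X (tcol f R) n) (sdn X.P n) β b : ℕ) : ℝ) ≤
      (1 / 2 + 32 * δ) * (sV X.P n β).card := by
  have hn' : X.P.ty n = Ty.N ∨ X.P.ty n = Ty.B := Or.inr hn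
  rw [Nat.cast_sum, sum_range_split hq]
  set σ : ℕ → ℝ := fun b =>
    ((sgp (Fp (xt G X) X (tcol f R) n) (sdn X.P n) (ptn X.P n) false b : ℤ) : ℝ) +
      ((sgp (Fp (xt G X) X (tcol f R) n) (sdn X.P n) (ptn X.P n) true b : ℤ) : ℝ) with hσ
  have hneed : ∀ b, 2 * ((need (Fp (xt G X) X (tcol f R) n) (sdn X.P n) β b : ℕ) : ℝ) =
      |σ b| + (if β then 1 else -1) * σ b := fun b => need_eq (xt G X) (tcol f R) n β b
  have hsb : |(if β then (1 : ℝ) else -1)| = 1 := by cases β <;> simp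
  -- machine
  have hσf : ∀ b : Fin P, σ b = ∑ l : Bool, (sgn (ndx X (cl b)) f ⟨(n, l)⟩ b : ℝ) := by
    intro b
    simp only [hσ]
    rw [h.sgf hR hn', h.sgf hR hn', Fintype.sum_bool]
    ring
  have m1 : ∑ b : Fin P, |σ b| ≤ d + 3 * δ * (pV X.P n).card := by
    rw [sum_fib cl]
    refine le_trans (le_of_eq ?_) (h.absP B hn')
    refine sum_congr rfl fun κ _ => sum_congr rfl fun b hb => ?_
    rw [hσf, (mem_filter.mp hb).2]
  have m2 : |∑ b : Fin P, σ b| ≤ 3 * δ * (pV X.P n).card := by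
    have e1 : ∑ b : Fin P, σ b = ∑ κ, ∑ l : Bool, ∑ b with cl b = κ,
        (sgn (ndx X κ) f ⟨(n, l)⟩ b : ℝ) := by
      rw [sum_fib cl]
      refine sum_congr rfl fun κ _ => ?_
      rw [sum_comm]
      refine sum_congr rfl fun b hb => ?_
      rw [hσf, (mem_filter.mp hb).2]
    rw [e1]
    refine (abs_sum_le_sum_abs _ _).trans ((sum_le_sum fun κ _ =>
      (abs_sum_le_sum_abs _ _).trans (sum_le_sum fun l _ => h.sgκ κ ⟨(n, l)⟩)).trans ?_)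
    simp_rw [sum_add_distrib, sum_const, card_univ, Fintype.card_bool, nsmul_eq_mul, ← mul_sum]
    have h2 : ∑ κ, (D κ : ℝ) = d := by exact_mod_cast h.nm.sum
    rw [h2]
    have h4 := h.Etot B hn'
    have h5 := h.plo B hn'
    have h6 := h.r1
    have h7 := B.e1
    have h8 := B.e0
    have hd : (1 : ℝ) ≤ d := by exact_mod_cast B.hd
    have h10 : 2 * (ρ1 * d) ≤ δ * d := by nlinarith
    have h11 := mul_le_mul_of_nonneg_left h5 B.δ0.le
    push_cast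
    linarith
  have m3 : ∑ b : Fin P, ((need (Fp (xt G X) X (tcol f R) n) (sdn X.P n) β (b : ℕ) : ℕ) : ℝ) ≤
      d / 2 + 3 * δ * (pV X.P n).card := by
    have e1 : 2 * ∑ b : Fin P, ((need (Fp (xt G X) X (tcol f R) n) (sdn X.P n) β (b : ℕ) : ℕ) : ℝ) =
        ∑ b : Fin P, |σ b| + (if β then 1 else -1) * ∑ b : Fin P, σ b := by
      rw [mul_sum, mul_sum, ← sum_add_distrib]
      exact sum_congr rfl fun b _ => hneed b
    have e2 : (if β then (1 : ℝ) else -1) * ∑ b : Fin P, σ b ≤ |∑ b : Fin P, σ b| := by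
      refine (le_abs_self _).trans ?_
      rw [abs_mul, hsb, one_mul]
    linarith
  -- Rest
  have m4 : ∑ b : Fin q, ((need (Fp (xt G X) X (tcol f R) n) (sdn X.P n) β (P + (b : ℕ)) : ℕ) : ℝ) ≤
      4 * q + 8 * δ * (pV X.P n).card := by
    have e1 : ∀ b : Fin q,
        ((need (Fp (xt G X) X (tcol f R) n) (sdn X.P n) β (P + (b : ℕ)) : ℕ) : ℝ) ≤
        |(sgn (ndR G X d) R (Sum.inl ⟨(n, false)⟩) b : ℝ)| +
          |(sgn (ndR G X d) R (Sum.inl ⟨(n, true)⟩) b : ℝ)| := by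
      intro b
      have e2 := hneed (P + (b : ℕ))
      have e3 : (if β then (1 : ℝ) else -1) * σ (P + (b : ℕ)) ≤ |σ (P + (b : ℕ))| := by
        refine (le_abs_self _).trans ?_
        rw [abs_mul, hsb, one_mul]
      have e4 : |σ (P + (b : ℕ))| ≤ |(sgn (ndR G X d) R (Sum.inl ⟨(n, false)⟩) b : ℝ)| +
          |(sgn (ndR G X d) R (Sum.inl ⟨(n, true)⟩) b : ℝ)| := by
        simp only [hσ]
        rw [h.sgR hR hn', h.sgR hR hn']
        exact abs_add_le _ _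
      linarith
    refine (sum_le_sum fun b _ => e1 b).trans ?_
    rw [sum_add_distrib]
    have e5 := h.absR B hR hE hn' false
    have e6 := h.absR B hR hE hn' true
    linarith
  have h1 : ((sV X.P n β).card : ℝ) + (sV X.P n β).card = (pV X.P n).card := by
    exact_mod_cast B_side h.px hn β
  have h2 : (1 - (S (X.sc n)).ζ) * d ≤ ((sV X.P n β).card : ℝ) := B_lo h.px hn β
  have h3 := B.z (X.sc n)
  have hd : (1 : ℝ) ≤ d := by exact_mod_cast B.hd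
  have h4 : (1 - δ) * d ≤ ((sV X.P n β).card : ℝ) := by
    refine le_trans (mul_le_mul_of_nonneg_right (by linarith) (by linarith)) h2
  have h5 := B.δ1
  have h6 := B.δ0
  have h7 : (d : ℝ) ≤ (1 + 2 * δ) * (sV X.P n β).card := by
    have : (1 + 2 * δ) * ((1 - δ) * d) ≤ (1 + 2 * δ) * ((sV X.P n β).card : ℝ) :=
      mul_le_mul_of_nonneg_left h4 (by linarith)
    nlinarith
  have h8 : δ * d ≤ 2 * δ * (sV X.P n β).card := by
    have := mul_le_mul_of_nonneg_left h7 h6.le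
    have h0 : (0 : ℝ) ≤ (sV X.P n β).card := Nat.cast_nonneg _
    nlinarith
  rw [← h1] at m3 m4
  nlinarith

/-- NEG -/
theorem Sit.neg (h : Sit πk C CD a ε ε2 C₀ Lam η M S G d X D r cl H Ex m cc f g z θk θ' a' cs
    t CC ρ1 MS) (B : Bd δ C₀ ε ε2 Lam S d D r) (hR : Rs G X f R)
    {n : Fin N} (hn : X.P.ty n = Ty.N ∨ X.P.ty n = Ty.B) (j i : Bool) :
    ∑ b with cl b = Cx.Q j,
      max (-((sgp (Fp (xt G X) X (tcol f R) n) (sdn X.P n) (ptn X.P n) i (b : ℕ) : ℤ) : ℝ)) 0 ≤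
      3 / 5 * ((univ.filter fun b => cl b = Cx.Q j).card : ℝ) + 2 * δ * (pV X.P n).card := by
  set κ : Cx.{u} := Cx.Q j with hκ
  have h0 : ∑ b with cl b = κ,
      max (-((sgp (Fp (xt G X) X (tcol f R) n) (sdn X.P n) (ptn X.P n) i (b : ℕ) : ℤ) : ℝ)) 0 =
      ∑ b with cl b = κ, max (-(sgn (ndx X κ) f ⟨(n, i)⟩ b : ℝ)) 0 := by
    refine sum_congr rfl fun b hb => ?_
    rw [h.sgf hR hn, (mem_filter.mp hb).2]
  rw [h0]
  obtain ⟨h1, h2, h3⟩ := h.mu B κ (⟨(n, i)⟩ : NI.{u} N)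
  set μ := sdg (H κ) (ndx X κ) (⟨(n, i)⟩ : NI.{u} N) / ((D κ : ℝ) - r κ) with hμ
  have h4 : ∑ b with cl b = κ, |(sgn (ndx X κ) f ⟨(n, i)⟩ b : ℝ)| ≤
      (1 + ε) * ((D κ : ℝ) - r κ) + E1 H X d m C₀ ε κ ⟨(n, i)⟩ + ρ1 * D κ := by
    have h5 := h.rl.win κ ⟨(n, i)⟩
    rw [← hμ] at h5
    have h6 : ∀ b, |(sgn (ndx X κ) f ⟨(n, i)⟩ b : ℝ)| ≤
        |(sgn (ndx X κ) f ⟨(n, i)⟩ b : ℝ) - μ| + |μ| := by
      intro b
      have := abs_sub_abs_le_abs_sub (sgn (ndx X κ) f ⟨(n, i)⟩ b : ℝ) μ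
      linarith
    refine (sum_le_sum fun b _ => h6 b).trans ?_
    rw [sum_add_distrib, sum_const, nsmul_eq_mul, h.ncl κ]
    unfold E1
    linarith
  have h5 := h.sgκ κ (⟨(n, i)⟩ : NI.{u} N)
  have h6 : ∀ b, 2 * max (-(sgn (ndx X κ) f ⟨(n, i)⟩ b : ℝ)) 0 =
      |(sgn (ndx X κ) f ⟨(n, i)⟩ b : ℝ)| - (sgn (ndx X κ) f ⟨(n, i)⟩ b : ℝ) := by
    intro b
    rcases le_total 0 (sgn (ndx X κ) f ⟨(n, i)⟩ b : ℝ) with h7 | h7
    · rw [max_eq_right (by linarith), abs_of_nonneg h7]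
      ring
    · rw [max_eq_left (by linarith), abs_of_nonpos h7]
      ring
  have h7 : 2 * ∑ b with cl b = κ, max (-(sgn (ndx X κ) f ⟨(n, i)⟩ b : ℝ)) 0 =
      ∑ b with cl b = κ, |(sgn (ndx X κ) f ⟨(n, i)⟩ b : ℝ)| -
        ∑ b with cl b = κ, (sgn (ndx X κ) f ⟨(n, i)⟩ b : ℝ) := by
    rw [mul_sum, ← sum_sub_distrib]
    exact sum_congr rfl fun b _ => h6 b
  have h8 := neg_le_of_abs_le h5
  have h9 := h.Eκ1 B hn κ i
  have h10 : 2 * (r κ : ℝ) ≤ D κ := by exact_mod_cast B.Dr κ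
  rw [h.ncl κ]
  have h11 : ρ1 ≤ 1 / 100 := by
    have := h.r1
    have := B.e1
    have := B.e0
    have := B.δ1
    linarith
  have h12 : ε ≤ 1 / 100 := by
    have := B.e1
    have := B.e0
    have := B.δ1
    linarith
  have h13 : ρ1 * D κ ≤ 1 / 50 * ((D κ : ℝ) - r κ) := by
    have : ρ1 * D κ ≤ 1 / 100 * D κ := mul_le_mul_of_nonneg_right h11 (Nat.cast_nonneg _)
    linarith
  nlinarith

/-- SUP -/
theorem Sit.sup (h : Sit πk C CD a ε ε2 C₀ Lam η M S G d X D r cl H Ex m cc f g z θk θ' a' cs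
    t CC ρ1 MS) (B : Bd δ C₀ ε ε2 Lam S d D r) (hR : Rs G X f R) (hq : P + q = d + 2)
    (hC : 0 ≤ C) (hq0 : 0 < q) (hs : 4 * δ * (C * d) / q + 2 ≤ (d : ℝ) ^ (1 / 100 : ℝ))
    (hE : ∀ i b, |(sgn (ndR G X d) R i b : ℝ) - (∑ b', (sgn (ndR G X d) R i b' : ℝ)) / q| ≤ 2)
    {n : Fin N} (hn : X.P.ty n = Ty.N ∨ X.P.ty n = Ty.B) (i : Bool) (b : ℕ)
    (hb : b ∈ range (d + 2)) :
    |((sgp (Fp (xt G X) X (tcol f R) n) (sdn X.P n) (ptn X.P n) i b : ℤ) : ℝ)| ≤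
      (d : ℝ) ^ (1 / 100 : ℝ) := by
  rw [mem_range] at hb
  have hd : (1 : ℝ) ≤ d := by exact_mod_cast B.hd
  by_cases hbP : b < P
  · have h1 := h.sgf hR hn i ⟨b, hbP⟩
    simp only at h1
    rw [h1]
    refine (h.rl.sup ⟨b, hbP⟩ ⟨(n, i)⟩).trans ?_
    exact Real.rpow_le_rpow_of_exponent_le hd (by norm_num)
  · obtain ⟨b', rfl⟩ := Nat.exists_eq_add_of_le (not_lt.mp hbP)
    have hb' : b' < q := by omega
    have h1 := h.sgR hR hn i ⟨b', hb'⟩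
    simp only at h1
    rw [h1]
    have h2 := hE (Sum.inl ⟨(n, i)⟩) ⟨b', hb'⟩
    have h3 := h.sRb B hR hn i
    set s : ℝ := ∑ b, (sgn (ndR G X d) R (Sum.inl ⟨(n, i)⟩) b : ℝ) with hs'
    have h5 := abs_sub_abs_le_abs_sub (sgn (ndR G X d) R (Sum.inl ⟨(n, i)⟩) ⟨b', hb'⟩ : ℝ) (s / q)
    have hq' : (0 : ℝ) < q := by exact_mod_cast hq0
    have h6 : |s / q| ≤ 4 * δ * (C * d) / q := by
      rw [abs_div, abs_of_pos hq']
      refine div_le_div_of_nonneg_right (h3.trans ?_) hq'.le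
      exact mul_le_mul_of_nonneg_left (pV_le h.px hC n) (by have := B.δ0; positivity)
    linarith

end sit

end Pool.Agent.Work.MP_db9399_oxe
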