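import Pool.Agent.Work.MP_db9399_oxe_helper48.Ld

/-!
# MP_db9399, OXE, part 9 (helper48): palettes, own colours, missing colours of covering vertices
-/

set_option autoImplicit false

namespace Pool.Agent.Work.MP_db9399_oxe

open Finset Classical
open Pool.Agent.Work.MP_db9399_all (nb)
open Pool.Agent.Work.MP_db9399_lt (us)
open Pool.Agent.Work.MP_db9399_da hiding qV
open Pool.Agent.Work.MP_db9399_xf
open Pool.Agent.Work.MP_db9399_iv
open Pool.Agent.Work.MP_db9399_ox (sdg Rl sgP)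
open Pool.Agent.Work.MP_db9399_sg (nod nsd Mts sgn)

universe u

section pal

variable {P : ℕ}

/-- the colours of a class -/
noncomputable def pcl (cl : Fin P → Cx.{u}) (κ : Cx.{u}) : Finset ℕ :=
  (univ.filter fun b : Fin P => cl b = κ).image fun b : Fin P => (b : ℕ)

theorem mem_pcl {cl : Fin P → Cx.{u}} {κ : Cx.{u}} {b : ℕ} :
    b ∈ pcl cl κ ↔ ∃ b' : Fin P, cl b' = κ ∧ (b' : ℕ) = b := by
  simp [pcl]

theorem pcl_card (cl : Fin P → Cx.{u}) (κ : Cx.{u}) :
    (pcl cl κ).card = (univ.filter fun b : Fin P => cl b = κ).card :=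
  card_image_of_injective _ Fin.val_injective

theorem pcl_dis (cl : Fin P → Cx.{u}) {κ κ' : Cx.{u}} (h : κ ≠ κ') :
    Disjoint (pcl cl κ) (pcl cl κ') := by
  rw [Finset.disjoint_left]
  intro b hb hb'
  rw [mem_pcl] at hb hb'
  obtain ⟨x, h1, h2⟩ := hb
  obtain ⟨y, h3, h4⟩ := hb'
  have : x = y := Fin.ext (h2.trans h4.symm)
  rw [this] at h1
  exact h (h1.symm.trans h3)

theorem pcl_sub (cl : Fin P → Cx.{u}) (κ : Cx.{u}) {n : ℕ} (h : P ≤ n) : pcl cl κ ⊆ range n := by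
  intro b hb
  rw [mem_pcl] at hb
  obtain ⟨x, -, h2⟩ := hb
  rw [mem_range]
  have := x.isLt
  omega

/-- the palettes -/
noncomputable def palA (cl : Fin P → Cx.{u}) : PalX where
  C := fun j => pcl cl (Cx.C j)
  Q := fun i => pcl cl (Cx.Q i)

theorem palA_P {πk CD a : ℝ} {d : ℕ} {D r : Cx.{u} → ℕ} {cl : Fin P → Cx.{u}}
    (h : NmX πk CD a d P D r cl) : PalXP πk (palA cl) d := by
  have hP : P ≤ d + 2 := by
    have := h.Pr
    omega
  refine ⟨fun j => pcl_sub cl _ hP, fun i j hij => pcl_dis cl ?_, fun j => ?_,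
    fun i => pcl_sub cl _ hP, pcl_dis cl ?_, fun i j => pcl_dis cl ?_, fun i => ?_⟩
  · intro h1
    exact hij (by injection h1)
  · show πk * d ≤ ((pcl cl (Cx.C j)).card : ℝ) ∧ ((pcl cl (Cx.C j)).card : ℝ) ≤ πk * d + 1
    rw [pcl_card]
    exact h.pC j
  · intro h1
    injection h1 with h1
    cases h1
  · intro h1
    cases h1
  · show (1 - 3 * πk) / 100 * d ≤ ((pcl cl (Cx.Q i)).card : ℝ) ∧
      ((pcl cl (Cx.Q i)).card : ℝ) ≤ (1 - 3 * πk) / 100 * d + 1
    rw [pcl_card]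
    exact h.pQ i

theorem sum_pcl (cl : Fin P → Cx.{u}) (κ : Cx.{u}) (F : ℕ → ℝ) :
    ∑ b ∈ pcl cl κ, F b = ∑ b with cl b = κ, F (b : ℕ) := by
  unfold pcl
  rw [sum_image fun x _ y _ h => Fin.ext h]

end pal

section sit

variable {V : Type u} [Fintype V] {N J P q : ℕ} {πk C CD a ε ε2 C₀ Lam η δ : ℝ} {M : ℕ}
    {S : Fin J → Scl} {G : SimpleGraph V} {d : ℕ} {X : XD V N J} {D r : Cx.{u} → ℕ}
    {cl : Fin P → Cx.{u}} {H : Cx.{u} → SimpleGraph V} {Ex : Cx.{u} → Finset V}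
    {m : Cx.{u} → NI.{u} N → ℕ} {cc : V → Option (Fin P)} {f : Fin P → V → V}
    {g z θk θ' a' cs t CC ρ1 MS : ℝ} {R : Fin q → V → V}

/-- the colours of a class without node are not used -/
theorem Sit.nocl (h : Sit πk C CD a ε ε2 C₀ Lam η M S G d X D r cl H Ex m cc f g z θk θ' a' cs
    t CC ρ1 MS) (hR : Rs G X f R) {v : V} (hO : ¬ InO X v) {κ : Cx.{u}} (hn : ndx X κ v = none) :
    Disjoint (Ft (xt G X) (tcol f R) v) (pcl cl κ) := by
  rw [Finset.disjoint_left]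
  intro b hb hb'
  rw [mem_pcl] at hb'
  obtain ⟨x, h1, rfl⟩ := hb'
  rw [(h.mch hR).mem_f (h.cov hR)] at hb
  have h2 := h.ts.typ (cl x) v _ (h.rl.fG x v hb.1)
  rw [h1] at h2
  rcases h2 with h2 | h2
  · exact hO h2
  · exact h2 hn

theorem Sit.rQ (h : Sit πk C CD a ε ε2 C₀ Lam η M S G d X D r cl H Ex m cc f g z θk θ' a' cs
    t CC ρ1 MS) (hR : Rs G X f R) {n : Fin N} (hn : X.P.ty n = Ty.N ∨ X.P.ty n = Ty.B)
    (v : Ts X.P n) :
    Disjoint (Fp (xt G X) X (tcol f R) n v) ((palA cl).Q (X.P.pt v.1)) := by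
  obtain ⟨v, h0, h1⟩ := v
  have hO : ¬ InO X v := NB_not_InO h.hv h0 (by rw [h1]; exact hn)
  refine h.nocl hR hO ?_
  unfold ndx
  rw [if_pos]
  right; right
  exact ⟨by rw [h1]; exact hn, rfl⟩

theorem Sit.rK (h : Sit πk C CD a ε ε2 C₀ Lam η M S G d X D r cl H Ex m cc f g z θk θ' a' cs
    t CC ρ1 MS) (hR : Rs G X f R) {v : V} (hv : Lk X v) :
    Disjoint (Ft (xt G X) (tcol f R) v) ((palA cl).C (X.P.th v)) := by
  have hO : ¬ InO X v := by
    rintro (h0 | h0)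
    · exact hv.1.1 h0
    · exact hv.2 h0
  refine h.nocl hR hO ?_
  unfold ndx
  rw [if_pos]
  right; left
  exact ⟨_, rfl, hv.1.2, rfl⟩

/-- TcX -/
theorem Sit.tcx (h : Sit πk C CD a ε ε2 C₀ Lam η M S G d X D r cl H Ex m cc f g z θk θ' a' cs
    t CC ρ1 MS) (hR : Rs G X f R) (hq : P + q = d + 2)
    (hlK : ∀ n, X.P.ty n = Ty.K → ∀ b, (((pV X.P n).filter fun v => ¬ InO X v ∧
      b ∈ Ft (xt G X) (tcol f R) v).card : ℝ) ≤ η * d) :
    TcX η G d X (palA cl) (tcol f R) := by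
  refine ⟨tcol_sym f R, fun v w hvw => ?_, fun v w hw w' hw' e => ?_, fun v hv => h.rK hR hv,
    fun n hn b => ?_⟩
  · rw [← hq]
    exact (h.mch hR).tlt (h.cov hR v w hvw)
  · rw [mem_coe, mem_nb] at hw hw'
    exact (h.mch hR).tinj (h.cov hR v w hw) (h.cov hR v w' hw') e
  · refine le_trans (Nat.cast_le.mpr (card_le_card fun v hv => ?_)) (hlK n hn b)
    rw [mem_filter, mem_pV] at hv
    rw [mem_filter, mem_pV]
    refine ⟨hv.1, ?_, hv.2.2⟩
    rintro (h0 | h0)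
    · exact hv.1.1 h0
    · exact hv.2.1 h0

/-- OwX -/
theorem Sit.owx (h : Sit πk C CD a ε ε2 C₀ Lam η M S G d X D r cl H Ex m cc f g z θk θ' a' cs
    t CC ρ1 MS) (hR : Rs G X f R) {τ e u' : ℝ} (hO : OwP τ e u' S G d X (ccv cc) (Ow G X d)) :
    OwX τ e u' S G d X (tcol f R) (ccv cc) (Ow G X d) := by
  refine ⟨hO.clt, hO.cc, fun v hv hb => ?_, hO.big, hO.sml, hO.dif, hO.non⟩
  obtain ⟨b, hb'⟩ := Option.ne_none_iff_exists'.mp ((h.hc v).mpr hv)
  have h1 : ccv cc v = (b : ℕ) := by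
    unfold ccv
    rw [hb']
    rfl
  rw [h1, (h.mch hR).mem_f (h.cov hR)] at hb
  exact hb.1 (h.rl.fo b v hb')

/-- a covering vertex misses a colour of Rest -/
theorem Sit.misR (h : Sit πk C CD a ε ε2 C₀ Lam η M S G d X D r cl H Ex m cc f g z θk θ' a' cs
    t CC ρ1 MS) (hR : Rs G X f R) (hq : P + q = d + 2) {w : V} (hw : Cov G X d w) :
    ∃ b : Fin q, R b w = w := by
  obtain ⟨n, β, hc⟩ := hw
  have hO : InO X w := Or.inl hc.1
  have hn : cc w = none := by
    by_contra h1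
    exact ((h.hc w).mp h1).2 ⟨n, β, hc⟩
  have h1 := h.deg_O hO
  rw [if_pos hn] at h1
  have h2 := card_le_card (EL_unc (G := G) (X := X) f w)
  have h3 := Sit.Rcard hR w
  by_contra hcon
  push Not at hcon
  have h4 : (univ.filter fun b => R b w ≠ w) = univ :=
    filter_true_of_mem fun b _ => hcon b
  rw [h4, card_univ, Fintype.card_fin] at h3
  omega

/-- the missing colours -/
noncomputable def mmr (P : ℕ) {q : ℕ} (R : Fin q → V → V) (w : V) : ℕ :=
  if h : ∃ b : Fin q, R b w = w then P + (h.choose : ℕ) else P + q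

theorem mmr_spec {w : V} {b : ℕ} (h : ∃ b : Fin q, R b w = w) (hb : mmr P R w = b) :
    ∃ b' : Fin q, b = P + b' ∧ R b' w = w := by
  unfold mmr at hb
  rw [dif_pos h] at hb
  exact ⟨h.choose, hb.symm, h.choose_spec⟩

theorem Sit.mm (h : Sit πk C CD a ε ε2 C₀ Lam η M S G d X D r cl H Ex m cc f g z θk θ' a' cs
    t CC ρ1 MS) (hR : Rs G X f R) (hq : P + q = d + 2) {w : V} (hw : Cov G X d w) :
    mmr P R w < d + 2 ∧ mmr P R w ∉ Ft (xt G X) (tcol f R) w ∧ ∀ j, mmr P R w ∉ (palA cl).Q j := by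
  obtain ⟨b, h1, h2⟩ := mmr_spec (P := P) (h.misR hR hq hw) rfl
  rw [h1]
  refine ⟨by have := b.isLt; omega, ?_, fun j hj => ?_⟩
  · rw [(h.mch hR).mem_g (h.cov hR)]
    exact fun h3 => h3.1 h2
  · have h3 : P + (b : ℕ) ∈ pcl cl (Cx.Q j) := hj
    rw [mem_pcl] at h3
    obtain ⟨x, -, h4⟩ := h3
    have := x.isLt
    omega

/-- few covering vertices of a side have the same missing colour -/
theorem Sit.ms (h : Sit πk C CD a ε ε2 C₀ Lam η M S G d X D r cl H Ex m cc f g z θk θ' a' cs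
    t CC ρ1 MS) (hR : Rs G X f R) (hq : P + q = d + 2) (hd : 1 ≤ d) (hq0 : 0 < q)
    (hz : ∀ s, (S s).ζ ≤ 1 / 8) (hθ : ∀ s, 0 ≤ (S s).θ / Lam) (hθ1 : ∀ s, (S s).θ / Lam ≤ 1)
    (hE : ∀ i b, |(sgn (ndR G X d) R i b : ℝ) - (∑ b', (sgn (ndR G X d) R i b' : ℝ)) / q| ≤ 2)
    (n : Fin N) (β : Bool) (b : ℕ) :
    ((univ.filter (fun w => Cvr G X d n β w ∧ mmr P R w = b)).card : ℝ) ≤ 4 * d / q + 2 := by
  have hq' : (0 : ℝ) < q := by exact_mod_cast hq0
  set W := univ.filter fun w => Cvr G X d n β w with hW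
  have hnd1 : nsd (ndR G X d) (Sum.inr (⟨(n, β)⟩ : NI.{u} N)) false = W := by
    ext w
    rw [mem_nsd0, hW, mem_filter]
    constructor
    · intro h1
      exact ⟨mem_univ _, (ndR_inr h1).2.1⟩
    · rintro ⟨-, h1⟩
      exact ndR_cov (Or.inl h1.1) h1 fun p hp => cov_uniq h.px hz hd h1 hp
  have hnd2 : nsd (ndR G X d) (Sum.inr (⟨(n, β)⟩ : NI.{u} N)) true = ∅ := by
    rw [eq_empty_iff_forall_notMem]
    intro w hw
    rw [mem_nsd0] at hw
    have := (ndR_inr hw).2.2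
    simp at this
  have hsg : ∀ b : Fin q, (sgn (ndR G X d) R (Sum.inr (⟨(n, β)⟩ : NI.{u} N)) b : ℝ) =
      (W.card : ℝ) - ((W.filter fun w => R b w = w).card : ℝ) := by
    intro b
    unfold sgn
    rw [hnd1, hnd2]
    have h1 := card_filter_add_card_filter_not (s := W) (fun w => R b w = w)
    have h2 : ((W.filter fun w => R b w = w).card : ℝ) + ((W.filter fun w => ¬ R b w = w).card : ℝ) =
        W.card := by exact_mod_cast h1
    simp only [filter_empty, card_empty]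
    push_cast
    simp only [ne_eq]
    linarith
  have h1 : ∑ b : Fin q, ((W.filter fun w => R b w = w).card : ℝ) ≤ 2 * W.card := by
    have e1 : ∑ b : Fin q, ((W.filter fun w => R b w = w).card : ℝ) =
        ∑ w ∈ W, ((univ.filter fun b => R b w = w).card : ℝ) := by
      have h1 : ∀ b, ((W.filter fun v => R b v = v).card : ℝ) =
          ∑ v ∈ W, if R b v = v then (1 : ℝ) else 0 := by
        intro b
        rw [← sum_filter, sum_const, nsmul_eq_mul, mul_one]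
      have h2 : ∀ v, ((univ.filter fun b => R b v = v).card : ℝ) =
          ∑ b, if R b v = v then (1 : ℝ) else 0 := by
        intro v
        rw [← sum_filter, sum_const, nsmul_eq_mul, mul_one]
      simp_rw [h1, h2]
      exact sum_comm
    rw [e1]
    refine (sum_le_card_nsmul W _ 2 fun w hw => ?_).trans (by rw [nsmul_eq_mul, mul_comm])
    have hc : Cvr G X d n β w := (mem_filter.mp hw).2
    have hO : InO X w := Or.inl hc.1
    have h2 := h.unc_O hO
    have h3 := Sit.Rcard hR w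
    rw [EL_unc_Fl h.hv f h.rl.ff (Or.inl hc.1)] at h3
    have h4 := card_filter_add_card_filter_not (s := (univ : Finset (Fin q))) (fun b => R b w = w)
    rw [card_univ, Fintype.card_fin] at h4
    have h5 : (univ.filter fun b => R b w ≠ w) = univ.filter fun b => ¬ R b w = w := rfl
    rw [h5] at h3
    have h6 : (univ.filter fun b => R b w = w).card ≤ 2 := by omega
    exact_mod_cast h6
  have h2 : ∀ b : Fin q, ((W.filter fun w => R b w = w).card : ℝ) ≤ 4 * d / q + 2 := by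
    intro b
    have h3 := hE (Sum.inr ⟨(n, β)⟩) b
    simp_rw [hsg] at h3
    rw [sum_sub_distrib, sum_const, card_univ, Fintype.card_fin, nsmul_eq_mul, sub_div,
      mul_div_cancel_left₀ _ hq'.ne'] at h3
    have h4 := (abs_le.mp h3).1
    have h5 : (∑ b : Fin q, ((W.filter fun w => R b w = w).card : ℝ)) / q ≤ 4 * d / q := by
      refine div_le_div_of_nonneg_right (h1.trans ?_) hq'.le
      have h6 := cov_card h.px hz hd hθ n β
      have h7 : (W.card : ℝ) ≤ 2 * ((S (X.sc n)).θ / Lam) * d := h6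
      have h8 := hθ1 (X.sc n)
      have h9 : (S (X.sc n)).θ / Lam * d ≤ 1 * d := mul_le_mul_of_nonneg_right h8 (Nat.cast_nonneg _)
      linarith
    linarith
  by_cases hb : ∃ b' : Fin q, b = P + b'
  · obtain ⟨b', rfl⟩ := hb
    refine le_trans (Nat.cast_le.mpr (card_le_card fun w hw => ?_)) (h2 b')
    rw [mem_filter] at hw
    obtain ⟨b'', h3, h4⟩ := mmr_spec (P := P) (h.misR hR hq ⟨n, β, hw.2.1⟩) hw.2.2
    have : b' = b'' := Fin.ext (by omega)
    rw [mem_filter, hW, mem_filter, this]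
    exact ⟨⟨mem_univ _, hw.2.1⟩, h4⟩
  · have h3 : (univ.filter (fun w => Cvr G X d n β w ∧ mmr P R w = b)) = ∅ := by
      rw [filter_eq_empty_iff]
      rintro w - ⟨h4, h5⟩
      obtain ⟨b'', h6, -⟩ := mmr_spec (P := P) (h.misR hR hq ⟨n, β, h4⟩) h5
      exact hb ⟨b'', h6⟩
    rw [h3, card_empty, Nat.cast_zero]
    positivity

end sit

end Pool.Agent.Work.MP_db9399_oxe
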