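import Pool.Agent.Work.MP_db9399_oxe_helper48.Lft
import Pool.Agent.Work.MP_db9399_sg_helper39.RESTN

/-!
# MP_db9399, OXE, part 3 (helper48): degrees of the left over graph, its colouring by RESTN
-/

set_option autoImplicit false

namespace Pool.Agent.Work.MP_db9399_oxe

open Finset Classical
open Pool.Agent.Work.MP_db9399_all (nb)
open Pool.Agent.Work.MP_db9399_da
open Pool.Agent.Work.MP_db9399_xf
open Pool.Agent.Work.MP_db9399_iv
open Pool.Agent.Work.MP_db9399_ox (sdg Rl)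
open Pool.Agent.Work.MP_db9399_sg (nod nsd Mts sgn)

universe u

section sit

variable {V : Type u} [Fintype V] {N J P : ℕ} {πk C CD a ε ε2 C₀ Lam η : ℝ} {M : ℕ}
    {S : Fin J → Scl} {G : SimpleGraph V} {d : ℕ} {X : XD V N J} {D r : Cx.{u} → ℕ}
    {cl : Fin P → Cx.{u}} {H : Cx.{u} → SimpleGraph V} {Ex : Cx.{u} → Finset V}
    {m : Cx.{u} → NI.{u} N → ℕ} {cc : V → Option (Fin P)} {f : Fin P → V → V}
    {g z θk θ' a' cs t CC ρ1 MS : ℝ}

theorem NmX.Pr (h : NmX πk CD a d P D r cl) : P + ∑ κ, r κ = d := by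
  have h1 : ∑ κ, (univ.filter fun b => cl b = κ).card = P := by
    have := card_eq_sum_card_fiberwise (s := (univ : Finset (Fin P))) (t := univ) (f := cl)
      (fun _ _ => mem_univ _)
    rw [← this, card_univ, Fintype.card_fin]
  have h2 := h.sum
  rw [← sum_congr rfl fun κ _ => h.cr κ, sum_add_distrib, h1] at h2
  exact h2

/-- uncoloured edges at a vertex of `O` -/
theorem Sit.unc_O (h : Sit πk C CD a ε ε2 C₀ Lam η M S G d X D r cl H Ex m cc f g z θk θ' a' cs
    t CC ρ1 MS) {v : V} (hO : InO X v) :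
    (unc G X f v).card + P = d + (univ.filter fun b => f b v = v).card := by
  have h1 := h.unc_card v
  rw [nb_Erx_O hO, h.px.reg v] at h1
  have h2 := card_filter_add_card_filter_not (s := (univ : Finset (Fin P))) (fun b => f b v = v)
  rw [card_univ, Fintype.card_fin] at h2
  have h3 : (univ.filter fun b => f b v ≠ v) = univ.filter fun b => ¬ f b v = v := rfl
  rw [h3] at h1
  omega

theorem Sit.fix_O (h : Sit πk C CD a ε ε2 C₀ Lam η M S G d X D r cl H Ex m cc f g z θk θ' a' cs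
    t CC ρ1 MS) {v : V} (hO : InO X v) :
    (univ.filter fun b => f b v = v).card ≤
      (univ.filter fun b => f b v = v ∧ cc v ≠ some b).card + if cc v = none then 0 else 1 := by
  have h1 : (univ.filter fun b => f b v = v) ⊆ (univ.filter fun b => f b v = v ∧ cc v ≠ some b) ∪
      univ.filter fun b => cc v = some b := by
    intro b hb
    simp only [mem_filter, mem_univ, true_and, mem_union] at hb ⊢
    by_cases hc : cc v = some b
    · exact Or.inr hc
    · exact Or.inl ⟨hb, hc⟩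
  refine (card_le_card h1).trans ((card_union_le _ _).trans ?_)
  refine Nat.add_le_add_left ?_ _
  split_ifs with h2
  · rw [h2]
    simp
  · rw [card_le_one]
    intro b hb b' hb'
    simp only [mem_filter, mem_univ, true_and] at hb hb'
    rw [hb] at hb'
    exact Option.some_injective _ hb'

theorem Sit.deg_O (h : Sit πk C CD a ε ε2 C₀ Lam η M S G d X D r cl H Ex m cc f g z θk θ' a' cs
    t CC ρ1 MS) {v : V} (hO : InO X v) :
    (unc G X f v).card + P ≤ d + 1 + if cc v = none then 0 else 1 := by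
  have h1 := h.unc_O hO
  have h2 := h.fix_O hO
  have h3 := h.rl.mis v (mem_OV.mpr hO)
  omega

/-- degree `q` only if there is a missing colour -/
theorem Sit.deg_mis (h : Sit πk C CD a ε ε2 C₀ Lam η M S G d X D r cl H Ex m cc f g z θk θ' a' cs
    t CC ρ1 MS) {v : V} (hO : InO X v) (hd : d + 2 ≤ (unc G X f v).card + P) :
    ∃ b, f b v = v ∧ cc v ≠ some b := by
  have h1 := h.unc_O hO
  have h2 := h.fix_O hO
  by_contra hcon
  push Not at hcon
  have h3 : (univ.filter fun b => f b v = v ∧ cc v ≠ some b).card = 0 := by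
    rw [card_eq_zero, filter_eq_empty_iff]
    rintro b - ⟨h4, h5⟩
    exact h5 (hcon b h4)
  rw [h3] at h2
  split_ifs at h2 <;> omega

variable (hl : ∀ v, ¬ InO X v → C₀ * (((nb (Erx G X) v).card : ℝ) / d) ≤ 1 / 4)
  (hr : 2 * (d : ℝ) ^ (9 / 10 : ℝ) ≤ ∑ κ, (r κ : ℝ))

include hl hr in
theorem Sit.deg_light (h : Sit πk C CD a ε ε2 C₀ Lam η M S G d X D r cl H Ex m cc f g z θk θ' a' cs
    t CC ρ1 MS) (hC0 : 0 < C₀) (he : 0 < ε2) (he4 : ε2 ≤ 1 / 4) {v : V} (hO : ¬ InO X v) :
    (unc G X f v).card + P ≤ d := by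
  have h1 := h.unc_le hC0 he hO
  have h2 := hl v hO
  have h3 : noc G X H v ≤ (d : ℝ) ^ (9 / 10 : ℝ) := by
    refine h.ts.uL v ?_
    rw [mem_OV]
    exact hO
  have h4 : (0 : ℝ) ≤ ∑ κ, (r κ : ℝ) := sum_nonneg fun κ _ => Nat.cast_nonneg _
  have h5 : ((unc G X f v).card : ℝ) ≤ ∑ κ, (r κ : ℝ) := by
    have : (∑ κ, (r κ : ℝ)) * (C₀ * (((nb (Erx G X) v).card : ℝ) / d) + ε2) ≤
        (∑ κ, (r κ : ℝ)) * (1 / 2) := mul_le_mul_of_nonneg_left (by linarith) h4
    linarith
  have h6 := h.nm.Pr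
  have h7 : (unc G X f v).card ≤ ∑ κ, r κ := by exact_mod_cast h5
  omega

include hl hr in
theorem Sit.EL_deg (h : Sit πk C CD a ε ε2 C₀ Lam η M S G d X D r cl H Ex m cc f g z θk θ' a' cs
    t CC ρ1 MS) (hC0 : 0 < C₀) (he : 0 < ε2) (he4 : ε2 ≤ 1 / 4) (v : V) :
    (nb (EL G X f) v).card ≤ d + 2 - P := by
  have h0 := card_le_card (EL_unc (G := G) (X := X) f v)
  have h6 := h.nm.Pr
  by_cases hO : InO X v
  · have h1 := h.deg_O hO
    split_ifs at h1 <;> omega
  · have h1 := h.deg_light hl hr hC0 he he4 hO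
    omega

include hl hr in
theorem Sit.EL_adj (h : Sit πk C CD a ε ε2 C₀ Lam η M S G d X D r cl H Ex m cc f g z θk θ' a' cs
    t CC ρ1 MS) (hC0 : 0 < C₀) (he : 0 < ε2) (he4 : ε2 ≤ 1 / 4) (v w : V)
    (hvw : (EL G X f).Adj v w) : (nb (EL G X f) v).card < d + 2 - P ∨
      (nb (EL G X f) w).card < d + 2 - P := by
  by_contra hcon
  push Not at hcon
  have h6 := h.nm.Pr
  have key : ∀ u, d + 2 - P ≤ (nb (EL G X f) u).card →
      InO X u ∧ ∃ b, f b u = u ∧ cc u ≠ some b := by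
    intro u hu
    have h0 := card_le_card (EL_unc (G := G) (X := X) f u)
    by_cases hO : InO X u
    · exact ⟨hO, h.deg_mis hO (by omega)⟩
    · have h1 := h.deg_light hl hr hC0 he he4 hO
      omega
  obtain ⟨hv, b, hb, hb'⟩ := key v hcon.1
  obtain ⟨hw, b1, hb1, hb1'⟩ := key w hcon.2
  obtain ⟨b2, hb2⟩ := h.rl.ind v (mem_OV.mpr hv) w (mem_OV.mpr hw) b b1 hb hb' hb1 hb1'
    (xt_Erx hvw.1)
  exact hvw.2.1 b2 hb2

end sit

/-! ### nodes -/

section nodes

variable {V : Type u} [Fintype V] {N J P : ℕ} {G : SimpleGraph V} {X : XD V N J} {d : ℕ}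

/-- The nodes for RESTN: parts of the pieces (light vertices), covering vertices. -/
noncomputable def ndR (G : SimpleGraph V) (X : XD V N J) (d : ℕ) (v : V) :
    Option ((NI.{u} N ⊕ NI.{u} N) × Bool) :=
  if ¬ InO X v then some (Sum.inl ⟨(X.P.pc v, ptx X v)⟩, X.P.sd v)
  else if h : ∃ p : Fin N × Bool, Cvr G X d p.1 p.2 v then some (Sum.inr ⟨h.choose⟩, false)
  else none

theorem ndR_inl {v : V} {n : Fin N} {i s : Bool} :
    ndR G X d v = some (Sum.inl ⟨(n, i)⟩, s) ↔ ¬ InO X v ∧ X.P.pc v = n ∧ ptx X v = i ∧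
      X.P.sd v = s := by
  unfold ndR
  by_cases h : InO X v
  · simp only [h, not_true_eq_false, if_false, false_and, iff_false]
    split_ifs <;> simp
  · simp only [h, not_false_eq_true, if_true, true_and, Option.some.injEq, Prod.mk.injEq,
      Sum.inl.injEq, ULift.up.injEq]
    tauto

theorem ndR_inr {v : V} {p : Fin N × Bool} {s : Bool} (h : ndR G X d v = some (Sum.inr ⟨p⟩, s)) :
    InO X v ∧ Cvr G X d p.1 p.2 v ∧ s = false := by
  unfold ndR at h
  by_cases h0 : InO X v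
  · simp only [h0, not_true_eq_false, if_false] at h
    split_ifs at h with h1
    simp only [Option.some.injEq, Prod.mk.injEq, Sum.inr.injEq, ULift.up.injEq] at h
    obtain ⟨h2, h3⟩ := h
    refine ⟨h0, ?_, h3.symm⟩
    rw [← h2]
    exact h1.choose_spec
  · simp [h0] at h

theorem ndR_cov {v : V} (h0 : InO X v) {n : Fin N} {β : Bool} (h : Cvr G X d n β v)
    (hu : ∀ p : Fin N × Bool, Cvr G X d p.1 p.2 v → p = (n, β)) :
    ndR G X d v = some (Sum.inr ⟨(n, β)⟩, false) := by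
  unfold ndR
  have h1 : ∃ p : Fin N × Bool, Cvr G X d p.1 p.2 v := ⟨(n, β), h⟩
  rw [if_neg (by simpa using h0), dif_pos h1, hu _ h1.choose_spec]

end nodes

/-! ### sizes of pieces -/

section sizes

variable {V : Type u} [Fintype V] {N J : ℕ} {C g z θk θ' η a' : ℝ} {M : ℕ} {S : Fin J → Scl}
  {G : SimpleGraph V} {d : ℕ} {X : XD V N J}

theorem mem_pV {v : V} {n : Fin N} : v ∈ pV X.P n ↔ v ∉ X.P.V0 ∧ X.P.pc v = n := by
  simp [pV]

theorem mem_sV {v : V} {n : Fin N} {β : Bool} :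
    v ∈ sV X.P n β ↔ v ∉ X.P.V0 ∧ X.P.pc v = n ∧ X.P.sd v = β := by
  simp [sV]

theorem pV_le (h : PcX C g z θk θ' η a' M S G d X) (hC : 0 ≤ C) (n : Fin N) :
    ((pV X.P n).card : ℝ) ≤ C * d := by
  rcases (pV X.P n).eq_empty_or_nonempty with h0 | ⟨v0, hv0⟩
  · rw [h0]
    simp only [card_empty, Nat.cast_zero]
    positivity
  · rw [mem_pV] at hv0
    obtain ⟨k, hk⟩ := Option.ne_none_iff_exists'.mp (h.cln v0 hv0.1)
    refine le_trans ?_ (h.clc k)
    refine Nat.cast_le.mpr (card_le_card ?_)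
    intro v hv
    rw [mem_pV] at hv
    simp only [mem_filter, mem_univ, true_and]
    rw [← hk]
    exact h.clp v v0 hv.1 hv0.1 (hv.2.trans hv0.2.symm)

theorem B_side (h : PcX C g z θk θ' η a' M S G d X) {n : Fin N} (hn : X.P.ty n = Ty.B) (β : Bool) :
    (sV X.P n β).card + (sV X.P n β).card = (pV X.P n).card := by
  have h1 : pV X.P n = sV X.P n β ∪ sV X.P n (!β) := by
    ext v
    rw [mem_union, mem_sV, mem_sV, mem_pV]
    cases β <;> cases X.P.sd v <;> simp
  have h2 : Disjoint (sV X.P n β) (sV X.P n (!β)) := by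
    rw [Finset.disjoint_left]
    intro v hv hv'
    rw [mem_sV] at hv hv'
    have := hv.2.2.symm.trans hv'.2.2
    cases β <;> simp at this
  have h3 : (sV X.P n (!β)).card = (sV X.P n β).card := by
    have := h.bE n hn
    cases β
    · exact this.symm
    · exact this
  rw [h1, card_union_of_disjoint h2, h3]

theorem B_lo (h : PcX C g z θk θ' η a' M S G d X) {n : Fin N} (hn : X.P.ty n = Ty.B) (β : Bool) :
    (1 - (S (X.sc n)).ζ) * d ≤ ((sV X.P n β).card : ℝ) := by
  obtain ⟨v0, hv0⟩ := h.bN n hn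
  have h1 := B_side h hn β
  have h1' := B_side h hn (!β)
  have h2 : 0 < (pV X.P n).card := card_pos.mpr ⟨v0, hv0⟩
  have h3 : 0 < (sV X.P n (!β)).card := by omega
  obtain ⟨v, hv⟩ := card_pos.mp h3
  rw [mem_sV] at hv
  have h4 := h.thd v (Or.inr ⟨hv.1, by rw [hv.2.1]; exact hn⟩)
  rw [hv.2.1] at h4
  have h5 : nb G v ⊆ nb (thin G X.P) v ∪ sV X.P n β := by
    intro w hw
    rw [mem_nb] at hw
    rw [mem_union, mem_nb, mem_sV]
    by_cases hb : (bulk G X.P).Adj v w
    · right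
      refine ⟨hb.2.2.1, hb.2.2.2.1.symm.trans hv.2.1, ?_⟩
      have := hb.2.2.2.2 (by rw [hv.2.1]; exact hn)
      rw [hv.2.2] at this
      cases β <;> cases hs : X.P.sd w <;> simp_all
    · exact Or.inl ⟨hw, hb⟩
  have h6 : (nb G v).card ≤ (nb (thin G X.P) v).card + (sV X.P n β).card :=
    (card_le_card h5).trans (card_union_le _ _)
  rw [h.reg v] at h6
  have h7 : (d : ℝ) ≤ (nb (thin G X.P) v).card + (sV X.P n β).card := by exact_mod_cast h6
  linarith

theorem pV_lo (h : PcX C g z θk θ' η a' M S G d X) (hg : 0 < g) {n : Fin N}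
    (hn : X.P.ty n = Ty.N ∨ X.P.ty n = Ty.B) (hz : (S (X.sc n)).ζ ≤ 1 / 2) :
    (d : ℝ) ≤ ((pV X.P n).card : ℝ) := by
  rcases hn with hn | hn
  · have h1 := h.nL n hn
    have h2 : Fintype.card (Ts X.P n) = (pV X.P n).card := by
      rw [Fintype.card_subtype]
      rfl
    rw [h2] at h1
    have : (0 : ℝ) ≤ d := Nat.cast_nonneg _
    nlinarith
  · have h1 := B_lo h hn true
    have h2 : ((sV X.P n true).card : ℝ) + (sV X.P n true).card = (pV X.P n).card := by
      exact_mod_cast B_side h hn true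
    have : (0 : ℝ) ≤ d := Nat.cast_nonneg _
    nlinarith

/-- a vertex covers at most one side -/
theorem cov_uniq (h : PcX C g z θk θ' η a' M S G d X) (hz : ∀ s, (S s).ζ ≤ 1 / 8) (hd : 1 ≤ d)
    {n n' : Fin N} {β β' : Bool} {w : V} (h1 : Cvr G X d n β w) (h2 : Cvr G X d n' β' w) :
    (n', β') = (n, β) := by
  by_contra hne
  have hd' : (1 : ℝ) ≤ d := by exact_mod_cast hd
  have key : ∀ (n : Fin N) (β : Bool), Cvr G X d n β w →
      3 / 4 * (d : ℝ) ≤ ((sV X.P n β ∩ nb G w).card : ℝ) := by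
    intro n β hc
    have h3 := B_lo h hc.2.1 β
    have h4 := hz (X.sc n)
    have h5 : ((sV X.P n β).card : ℝ) = ((sV X.P n β ∩ nb G w).card : ℝ) +
        ((sV X.P n β \ nb G w).card : ℝ) := by
      have := card_inter_add_card_sdiff (sV X.P n β) (nb G w)
      exact_mod_cast this.symm
    have h6 := hc.2.2
    nlinarith
  have k1 := key n β h1
  have k2 := key n' β' h2
  have h3 : Disjoint (sV X.P n β ∩ nb G w) (sV X.P n' β' ∩ nb G w) := by
    rw [Finset.disjoint_left]
    intro v hv hv'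
    rw [mem_inter, mem_sV] at hv hv'
    exact hne (Prod.ext (hv'.1.2.1.symm.trans hv.1.2.1) (hv'.1.2.2.symm.trans hv.1.2.2))
  have h4 : (sV X.P n β ∩ nb G w ∪ sV X.P n' β' ∩ nb G w).card ≤ (nb G w).card :=
    card_le_card (union_subset inter_subset_right inter_subset_right)
  rw [card_union_of_disjoint h3, h.reg w] at h4
  have h5 : ((sV X.P n β ∩ nb G w).card : ℝ) + ((sV X.P n' β' ∩ nb G w).card : ℝ) ≤ d := by
    exact_mod_cast h4
  linarith

/-- double counting -/
theorem dbl (K : SimpleGraph V) (A B : Finset V) :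
    ∑ v ∈ A, ((nb K v ∩ B).card : ℝ) = ∑ w ∈ B, ((nb K w ∩ A).card : ℝ) := by
  have h : ∀ (A B : Finset V), ∑ v ∈ A, ((nb K v ∩ B).card : ℝ) =
      ∑ v ∈ A, ∑ w ∈ B, (if K.Adj v w then (1 : ℝ) else 0) := by
    intro A B
    refine sum_congr rfl fun v _ => ?_
    rw [← sum_filter, sum_const, nsmul_eq_mul, mul_one]
    congr 2
    ext w
    simp [mem_nb, and_comm]
  rw [h, h, sum_comm]
  refine sum_congr rfl fun w _ => sum_congr rfl fun v _ => ?_
  rw [K.adj_comm]

/-- few covering vertices -/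
theorem cov_card (h : PcX C g z θk θ' η a' M S G d X) (hz : ∀ s, (S s).ζ ≤ 1 / 8) (hd : 1 ≤ d)
    (hθ : ∀ s, 0 ≤ (S s).θ) (n : Fin N) (β : Bool) :
    ((univ.filter fun w => Cvr G X d n β w).card : ℝ) ≤ 2 * (S (X.sc n)).θ * d := by
  have hd' : (1 : ℝ) ≤ d := by exact_mod_cast hd
  by_cases hn : X.P.ty n = Ty.B
  swap
  · have h0 : (univ.filter fun w => Cvr G X d n β w) = ∅ := by
      rw [filter_eq_empty_iff]
      rintro w - hw
      exact hn hw.2.1
    rw [h0]
    simp only [card_empty, Nat.cast_zero]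
    have := hθ (X.sc n)
    positivity
  · set W := univ.filter fun w => Cvr G X d n β w with hW
    have h1 : ∀ w ∈ W, 3 / 4 * (d : ℝ) ≤ ((nb G w ∩ sV X.P n β).card : ℝ) := by
      intro w hw
      have hc : Cvr G X d n β w := (mem_filter.mp hw).2
      have h3 := B_lo h hn β
      have h4 := hz (X.sc n)
      have h5 : ((sV X.P n β).card : ℝ) = ((nb G w ∩ sV X.P n β).card : ℝ) +
          ((sV X.P n β \ nb G w).card : ℝ) := by
        have := card_inter_add_card_sdiff (sV X.P n β) (nb G w)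
        rw [inter_comm] at this
        exact_mod_cast this.symm
      have h6 := hc.2.2
      nlinarith
    have h2 : (W.card : ℝ) * (3 / 4 * (d : ℝ)) ≤ ∑ w ∈ W, ((nb G w ∩ sV X.P n β).card : ℝ) := by
      rw [← nsmul_eq_mul]
      exact card_nsmul_le_sum _ _ _ h1
    rw [dbl] at h2
    have h3 : ∑ v ∈ sV X.P n β, ((nb G v ∩ W).card : ℝ) ≤
        ∑ v ∈ pV X.P n, ((nb (thin G X.P) v).card : ℝ) := by
      have hs : sV X.P n β ⊆ pV X.P n := by
        intro v hv
        rw [mem_sV] at hv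
        rw [mem_pV]
        exact ⟨hv.1, hv.2.1⟩
      refine le_trans (sum_le_sum fun v hv => ?_)
        (sum_le_sum_of_subset_of_nonneg hs fun v _ _ => Nat.cast_nonneg _)
      refine Nat.cast_le.mpr (card_le_card ?_)
      intro w hw
      rw [mem_inter, mem_nb] at hw
      rw [mem_nb]
      exact ⟨hw.1, fun hb => hb.2.2.1 ((mem_filter.mp hw.2).2.1)⟩
    have h4 := h.ths n (Or.inr hn)
    have h5 : (W.card : ℝ) * (3 / 4 * (d : ℝ)) ≤ (S (X.sc n)).θ * (d : ℝ) ^ 2 := by linarith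
    have h6 := hθ (X.sc n)
    have h7 : (W.card : ℝ) * (3 / 4) ≤ (S (X.sc n)).θ * d := by
      have hd0 : (0 : ℝ) < d := by linarith
      have : (W.card : ℝ) * (3 / 4) * d ≤ (S (X.sc n)).θ * d * d := by nlinarith
      exact le_of_mul_le_mul_right this hd0
    nlinarith [mul_nonneg h6 (by linarith : (0 : ℝ) ≤ d)]

end sizes

end Pool.Agent.Work.MP_db9399_oxe
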