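import Pool.Agent.Work.MP_db9399_oxe_helper48.Defs

/-!
# MP_db9399, OXE, part 1 (helper48): the colour of an edge from the matchings
-/

set_option autoImplicit false

namespace Pool.Agent.Work.MP_db9399_oxe

open Finset Classical
open Pool.Agent.Work.MP_db9399_all (nb)
open Pool.Agent.Work.MP_db9399_xf

universe u

variable {V : Type u} {P q : ℕ}

/-- two families of disjoint matchings -/
structure Mch (f : Fin P → V → V) (g : Fin q → V → V) : Prop where
  ff : ∀ b v, f b (f b v) = v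
  fd : ∀ b b' v, f b v ≠ v → f b v = f b' v → b = b'
  gg : ∀ b v, g b (g b v) = v
  gd : ∀ b b' v, g b v ≠ v → g b v = g b' v → b = b'
  fg : ∀ b b' v, g b' v ≠ v → f b v ≠ g b' v

/-- the colour of the pair `v w` -/
noncomputable def tcol (f : Fin P → V → V) (g : Fin q → V → V) (v w : V) : ℕ :=
  sInf {k : ℕ | (∃ b : Fin P, k = b ∧ f b v = w ∧ f b w = v) ∨
    (∃ b : Fin q, k = P + b ∧ g b v = w ∧ g b w = v)}

theorem tcol_sym (f : Fin P → V → V) (g : Fin q → V → V) (v w : V) :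
    tcol f g v w = tcol f g w v := by
  unfold tcol
  congr 1
  ext k
  simp only [Set.mem_setOf_eq]
  constructor
  · rintro (⟨b, h1, h2, h3⟩ | ⟨b, h1, h2, h3⟩)
    · exact Or.inl ⟨b, h1, h3, h2⟩
    · exact Or.inr ⟨b, h1, h3, h2⟩
  · rintro (⟨b, h1, h2, h3⟩ | ⟨b, h1, h2, h3⟩)
    · exact Or.inl ⟨b, h1, h3, h2⟩
    · exact Or.inr ⟨b, h1, h3, h2⟩

theorem Mch.spec {f : Fin P → V → V} {g : Fin q → V → V} (h : Mch f g) {v w : V}
    (hc : (∃ b, f b v = w) ∨ ∃ b, g b v = w) :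
    (∃ b : Fin P, tcol f g v w = b ∧ f b v = w) ∨
      ∃ b : Fin q, tcol f g v w = P + b ∧ g b v = w := by
  have hne : {k : ℕ | (∃ b : Fin P, k = b ∧ f b v = w ∧ f b w = v) ∨
    (∃ b : Fin q, k = P + b ∧ g b v = w ∧ g b w = v)}.Nonempty := by
    rcases hc with ⟨b, hb⟩ | ⟨b, hb⟩
    · exact ⟨b, Or.inl ⟨b, rfl, hb, by rw [← hb]; exact h.ff b v⟩⟩
    · exact ⟨P + b, Or.inr ⟨b, rfl, hb, by rw [← hb]; exact h.gg b v⟩⟩
  rcases Nat.sInf_mem hne with ⟨b, h1, h2, -⟩ | ⟨b, h1, h2, -⟩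
  · exact Or.inl ⟨b, h1, h2⟩
  · exact Or.inr ⟨b, h1, h2⟩

theorem Mch.tf {f : Fin P → V → V} {g : Fin q → V → V} (h : Mch f g) {v : V} {b : Fin P}
    (hb : f b v ≠ v) : tcol f g v (f b v) = b := by
  rcases h.spec (Or.inl ⟨b, rfl⟩ : (∃ b', f b' v = f b v) ∨ ∃ b', g b' v = f b v) with
    ⟨b', h1, h2⟩ | ⟨b', h1, h2⟩
  · rw [h1, h.fd b b' v hb h2.symm]
  · exact absurd h2.symm (h.fg b b' v (by rw [h2]; exact hb))

theorem Mch.tg {f : Fin P → V → V} {g : Fin q → V → V} (h : Mch f g) {v : V} {b : Fin q}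
    (hb : g b v ≠ v) : tcol f g v (g b v) = P + b := by
  rcases h.spec (Or.inr ⟨b, rfl⟩ : (∃ b', f b' v = g b v) ∨ ∃ b', g b' v = g b v) with
    ⟨b', h1, h2⟩ | ⟨b', h1, h2⟩
  · exact absurd h2 (h.fg b' b v hb)
  · rw [h1, h.gd b b' v hb h2.symm]

theorem Mch.tlt {f : Fin P → V → V} {g : Fin q → V → V} (h : Mch f g) {v w : V}
    (hc : (∃ b, f b v = w) ∨ ∃ b, g b v = w) : tcol f g v w < P + q := by
  rcases h.spec hc with ⟨b, h1, -⟩ | ⟨b, h1, -⟩
  · rw [h1]; omega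
  · rw [h1]; omega

theorem Mch.tinj {f : Fin P → V → V} {g : Fin q → V → V} (h : Mch f g) {v w w' : V}
    (hc : (∃ b, f b v = w) ∨ ∃ b, g b v = w) (hc' : (∃ b, f b v = w') ∨ ∃ b, g b v = w')
    (he : tcol f g v w = tcol f g v w') : w = w' := by
  rcases h.spec hc with ⟨b, h1, h2⟩ | ⟨b, h1, h2⟩ <;>
    rcases h.spec hc' with ⟨b', h3, h4⟩ | ⟨b', h3, h4⟩
  · have : b = b' := Fin.ext (by rw [← h1, ← h3, he])
    rw [← h2, ← h4, this]
  · have h5 := b.isLt
    omega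
  · have h5 := b'.isLt
    omega
  · have : b = b' := Fin.ext (by omega)
    rw [← h2, ← h4, this]

variable [Fintype V]

/-- colours of the machine at `v` -/
theorem Mch.mem_f {f : Fin P → V → V} {g : Fin q → V → V} (h : Mch f g) {T : SimpleGraph V}
    (hT : ∀ v w, T.Adj v w → (∃ b, f b v = w) ∨ ∃ b, g b v = w) (v : V) (b : Fin P) :
    (b : ℕ) ∈ Ft T (tcol f g) v ↔ f b v ≠ v ∧ T.Adj v (f b v) := by
  unfold Ft nb
  simp only [mem_image, mem_filter, mem_univ, true_and]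
  constructor
  · rintro ⟨w, hw, h1⟩
    rcases h.spec (hT v w hw) with ⟨b', h2, h3⟩ | ⟨b', h2, h3⟩
    · have : b = b' := Fin.ext (by rw [← h2, h1])
      subst this
      rw [h3]
      exact ⟨hw.ne', hw⟩
    · have := b.isLt
      omega
  · rintro ⟨h1, h2⟩
    exact ⟨f b v, h2, h.tf h1⟩

/-- colours of Rest at `v` -/
theorem Mch.mem_g {f : Fin P → V → V} {g : Fin q → V → V} (h : Mch f g) {T : SimpleGraph V}
    (hT : ∀ v w, T.Adj v w → (∃ b, f b v = w) ∨ ∃ b, g b v = w) (v : V) (b : Fin q) :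
    P + (b : ℕ) ∈ Ft T (tcol f g) v ↔ g b v ≠ v ∧ T.Adj v (g b v) := by
  unfold Ft nb
  simp only [mem_image, mem_filter, mem_univ, true_and]
  constructor
  · rintro ⟨w, hw, h1⟩
    rcases h.spec (hT v w hw) with ⟨b', h2, h3⟩ | ⟨b', h2, h3⟩
    · have := b'.isLt
      omega
    · have : b = b' := Fin.ext (by omega)
      subst this
      rw [h3]
      exact ⟨hw.ne', hw⟩
  · rintro ⟨h1, h2⟩
    exact ⟨g b v, h2, h.tg h1⟩

/-- the number of the edges at `v` which belong to the matchings -/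
theorem card_match {K : SimpleGraph V} (f : Fin P → V → V)
    (fd : ∀ b b' v, f b v ≠ v → f b v = f b' v → b = b')
    (fK : ∀ b v, f b v ≠ v → K.Adj v (f b v)) (v : V) (s : Finset (Fin P)) :
    ((nb K v).filter fun w => ∃ b ∈ s, f b v = w).card =
      (s.filter fun b => f b v ≠ v).card := by
  symm
  refine card_bij (fun b _ => f b v) ?_ ?_ ?_
  · intro b hb
    simp only [mem_filter] at hb
    simp only [nb, mem_filter, mem_univ, true_and]
    exact ⟨fK b v hb.2, b, hb.1, rfl⟩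
  · intro b hb b' _ h
    simp only [mem_filter] at hb
    exact fd b b' v hb.2 h
  · intro w hw
    simp only [nb, mem_filter, mem_univ, true_and] at hw
    obtain ⟨h1, b, hb, h2⟩ := hw
    refine ⟨b, ?_, h2⟩
    simp only [mem_filter]
    refine ⟨hb, ?_⟩
    rw [h2]
    exact h1.ne'

end Pool.Agent.Work.MP_db9399_oxe
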